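import Pool.Agent.SCG.HTP2

/-!
# From multihead automata to token programs (helper52): soundness and completeness
-/

set_option autoImplicit false
set_option linter.unusedSectionVars false

namespace Pool.Agent.SCG

open Pool.Agent.Heads Relation Function

section Prog3

variable {T : Type} [LinearOrder T] [Finite T] {k : ℕ} {M : FA T k} {a : T} {s : List T}
  (hs : s.Pairwise (· ≤ ·))
include hs

theorem sim_step {pos : Fin k → ℕ} {c c' : Ctl M} {l l' : List (T × (Fin k → Bool))}
    (h : Sim M a s pos c l) (h1 : (hprog M).Step (c, l) (c', l')) :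
    ∃ pos', Sim M a s pos' c' l' := by
  obtain ⟨N, ch, h2, h3, h4⟩ := (step_iff M).1 h1
  obtain ⟨g1, g2, g3, g4⟩ := h
  cases h2 with
  | go a' st q q' d h5 =>
    obtain ⟨-, rfl⟩ | ⟨x, y, h6, -⟩ := h4
    swap
    · simp at h6
    have ha : a' = a := g1
    subst ha
    refine ⟨pos, rfl, g2, g3, g4.1, mv_zero g4.2 ?_⟩
    have h7 : (fun i => tape (a' :: s) (pos i)) = fun i => scan a' (st i) := by
      funext i
      rw [tape_stat]
      exact congrArg _ (g4.1 i).symm
    rw [h7]
    exact h5
  | done a' st q d =>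
    obtain ⟨-, rfl⟩ | ⟨x, y, h6, -⟩ := h4
    swap
    · simp at h6
    exact ⟨pos, g1, g2, g3, g4.1, mv_last g4.2⟩
  | stay a' st q d j h5 =>
    obtain ⟨-, rfl⟩ | ⟨x, y, h6, -⟩ := h4
    swap
    · simp at h6
    refine ⟨pos, g1, g2, g3, g4.1, ?_⟩
    have h7 := mv_succ g4.2
    rw [h5, upd_same (show move (s.length + 2) (pos j) Dir.S = pos j from rfl)] at h7
    exact h7
  | rl a' st q d j h5 h6 =>
    obtain ⟨-, rfl⟩ | ⟨x, y, h7, -⟩ := h4
    swap
    · simp at h7
    have h8 : pos j = 0 := stat_left_iff.1 (by rw [← g4.1 j]; exact h6)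
    have h9 := mv_succ g4.2
    rw [h5, h8] at h9
    have h10 : move (s.length + 2) 0 Dir.R = 1 := by
      show min (0 + 1) (s.length + 2) = 1
      omega
    rw [h10] at h9
    refine ⟨update pos j 1, g1, upd_rel (fun i _ => g2 i) ?_, upd_le g3 (by omega),
      upd_stat (fun i _ => g4.1 i) rfl, h9⟩
    have := g2 j
    rw [h8] at this
    exact rel_zero_iff.1 this
  | rr a' st q d j h5 h6 =>
    obtain ⟨-, rfl⟩ | ⟨x, y, h7, -⟩ := h4
    swap
    · simp at h7
    have h8 : pos j = s.length + 2 := (stat_right_iff (g3 j)).1 (by rw [← g4.1 j]; exact h6)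
    have h9 := mv_succ g4.2
    have h10 : move (s.length + 2) (pos j) Dir.R = pos j := by
      rw [h8]
      show min (s.length + 2 + 1) (s.length + 2) = s.length + 2
      omega
    rw [h5, upd_same h10] at h9
    exact ⟨pos, g1, g2, g3, g4.1, h9⟩
  | ra a' st q d j b F h5 h6 h7 hF =>
    obtain ⟨h8, -⟩ | ⟨x, y, h8, l₁, l₂, rfl, rfl⟩ := h4
    · simp at h8
    simp only [Option.some.injEq, Prod.mk.injEq] at h8
    obtain ⟨rfl, rfl⟩ := h8
    have h9 : pos j ≠ 0 := fun h9 => h6 ((g4.1 j).trans (stat_left_iff.2 h9))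
    have h10 : pos j ≠ s.length + 2 := fun h10 =>
      h7 ((g4.1 j).trans ((stat_right_iff (g3 j)).2 h10))
    obtain ⟨n, hn⟩ := Nat.exists_eq_succ_of_ne_zero h9
    have hn' : n ≤ s.length := by
      have := g3 j
      omega
    have hR := g2 j
    rw [hn] at hR
    have hb : s[n]? = some b := adv_sound hs hR (by simp) hF fun x hx hx1 => h3 x hx hx1
    have h9' := mv_succ g4.2
    have h11 : move (s.length + 2) (pos j) Dir.R = n + 2 := by
      rw [hn]
      show min (n + 1 + 1) (s.length + 2) = n + 2
      omega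
    rw [h5, h11] at h9'
    refine ⟨update pos j (n + 2), g1, upd_rel (fun i hi => rel_other (g2 i) ?_)
      (rel_adv hR hb hF (by rw [update_self])), upd_le g3 (by omega),
      upd_stat (fun i _ => g4.1 i) (stat_on hb).symm, h9'⟩
    rw [update_of_ne hi]
  | re a' st q d j h5 h6 h7 =>
    obtain ⟨-, rfl⟩ | ⟨x, y, h8, -⟩ := h4
    swap
    · simp at h8
    have h9 : pos j ≠ 0 := fun h9 => h6 ((g4.1 j).trans (stat_left_iff.2 h9))
    have h10 : pos j ≠ s.length + 2 := fun h10 =>
      h7 ((g4.1 j).trans ((stat_right_iff (g3 j)).2 h10))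
    obtain ⟨n, hn⟩ := Nat.exists_eq_succ_of_ne_zero h9
    have hn' : n ≤ s.length := by
      have := g3 j
      omega
    have hR := g2 j
    rw [hn] at hR
    have h11 : s.length ≤ n := (end_iff hR).1 fun x hx hx1 => h3 x hx hx1
    have h12 : n = s.length := le_antisymm hn' h11
    subst h12
    have h9' := mv_succ g4.2
    have h13 : move (s.length + 2) (pos j) Dir.R = s.length + 2 := by
      rw [hn]
      show min (s.length + 1 + 1) (s.length + 2) = s.length + 2
      omega
    rw [h5, h13] at h9'
    exact ⟨update pos j (s.length + 2), g1, upd_rel (fun i _ => g2 i) (rel_end' hR),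
      upd_le g3 le_rfl, upd_stat (fun i _ => g4.1 i) stat_right.symm, h9'⟩
  | ll a' st q d j h5 h6 =>
    obtain ⟨-, rfl⟩ | ⟨x, y, h7, -⟩ := h4
    swap
    · simp at h7
    have h8 : pos j = 0 ∨ pos j = 1 := by
      rcases h6 with h6 | h6
      · exact Or.inl (stat_left_iff.1 (by rw [← g4.1 j]; exact h6))
      · exact Or.inr (stat_first_iff.1 (by rw [← g4.1 j]; exact h6))
    have h9 := mv_succ g4.2
    have h10 : move (s.length + 2) (pos j) Dir.L = 0 := by
      show pos j - 1 = 0
      omega
    rw [h5, h10] at h9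
    refine ⟨update pos j 0, g1, upd_rel (fun i _ => g2 i) ?_, upd_le g3 (by omega),
      upd_stat (fun i _ => g4.1 i) rfl, h9⟩
    have := g2 j
    rcases h8 with h8 | h8
    · rwa [h8] at this
    · rw [h8] at this
      exact rel_zero_iff.2 this
  | lr a' st q d j h5 h6 =>
    obtain ⟨-, rfl⟩ | ⟨x, y, h7, -⟩ := h4
    swap
    · simp at h7
    have h8 : pos j = s.length + 2 := (stat_right_iff (g3 j)).1 (by rw [← g4.1 j]; exact h6)
    have h9 := mv_succ g4.2
    have h10 : move (s.length + 2) (pos j) Dir.L = s.length + 1 := by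
      rw [h8]
      rfl
    rw [h5, h10] at h9
    have hR := g2 j
    rw [h8] at hR
    refine ⟨update pos j (s.length + 1), g1, upd_rel (fun i _ => g2 i) (rel_end hR),
      upd_le g3 (by omega), fun i hi => ?_, ?_, ?_, h9⟩
    · rw [update_of_ne hi]
      exact g4.1 i
    · rw [update_self]
      omega
    · rw [update_self]
  | la a' st q d j b F h5 h6 hF =>
    obtain ⟨h8, -⟩ | ⟨x, y, h8, l₁, l₂, rfl, rfl⟩ := h4
    · simp at h8
    simp only [Option.some.injEq, Prod.mk.injEq] at h8
    obtain ⟨rfl, rfl⟩ := h8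
    obtain ⟨n, hn, hb⟩ := stat_on_iff.1 ((g4.1 j).symm.trans h6)
    have hn' : n < s.length := (List.getElem?_eq_some_iff.1 hb).1
    have hR := g2 j
    rw [hn] at hR
    have h9 := mv_succ g4.2
    have h10 : move (s.length + 2) (pos j) Dir.L = n + 1 := by
      rw [hn]
      rfl
    rw [h5, h10] at h9
    refine ⟨update pos j (n + 1), g1, upd_rel (fun i hi => rel_other (g2 i) ?_)
      (rel_back hR hb hF (by rw [update_self])), upd_le g3 (by omega), fun i hi => ?_, ?_, ?_, h9⟩
    · rw [update_of_ne hi]
    · rw [update_of_ne hi]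
      exact g4.1 i
    · rw [update_self]
      omega
    · rw [update_self]
      omega
  | sf a' st q d j =>
    obtain ⟨-, rfl⟩ | ⟨x, y, h7, -⟩ := h4
    swap
    · simp at h7
    obtain ⟨g5, g6, g7, g8⟩ := g4
    obtain ⟨n, hn⟩ := Nat.exists_eq_succ_of_ne_zero (show pos j ≠ 0 by omega)
    have hR := g2 j
    rw [hn] at hR
    have h8 : n = 0 := (first_iff hR (by omega)).1 fun x hx hx1 => h3 x hx hx1
    subst h8
    refine ⟨pos, g1, g2, g3, ?_, g8⟩
    have h9 := upd_stat (x := Sta.first) g5 (show Sta.first = stat s (pos j) by rw [hn]; rfl)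
    rw [update_eq_self] at h9
    exact h9
  | so a' st q d j b F hF =>
    obtain ⟨h8, -⟩ | ⟨x, y, h8, l₁, l₂, rfl, rfl⟩ := h4
    · simp at h8
    simp only [Option.some.injEq, Prod.mk.injEq] at h8
    obtain ⟨rfl, rfl⟩ := h8
    obtain ⟨g5, g6, g7, g8⟩ := g4
    obtain ⟨n, hn⟩ := Nat.exists_eq_succ_of_ne_zero (show pos j ≠ 0 by omega)
    have hR := g2 j
    rw [hn] at hR
    obtain ⟨n', rfl, hb⟩ := on_sound hs hR (by omega) (by simp) hF fun x hx hx1 => h3 x hx hx1
    refine ⟨pos, g1, g2, g3, ?_, g8⟩
    have h9 := upd_stat (x := Sta.on b) g5 (show Sta.on b = stat s (pos j) by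
      rw [hn]
      exact (stat_on hb).symm)
    rw [update_eq_self] at h9
    exact h9

omit hs in
theorem upd_fun {pos : Fin k → ℕ} {j : Fin k} {p : ℕ} {x : Sta T} {st : Fin k → Sta T}
    (h : ∀ i, i ≠ j → st i = stat s (pos i)) (hx : x = stat s p) :
    update st j x = fun i => stat s (update pos j p i) := funext (upd_stat h hx)

/-- the last part of a move to the left -/
theorem run_set {pos : Fin k → ℕ} {l : List (T × (Fin k → Bool))} {st : Fin k → Sta T}
    {q : M.Q} {d : Fin k → Dir} {j : Fin k} (h1 : Rel s j (pos j) l)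
    (h2 : 1 ≤ pos j) (h3 : pos j ≤ s.length + 1) (h4 : ∀ i, i ≠ j → st i = stat s (pos i)) :
    (hprog M).Step ((a, st, Ph.set q d j), l) ((a, fun i => stat s (pos i), Ph.mv q d j.succ), l) := by
  obtain ⟨n, hn⟩ := Nat.exists_eq_succ_of_ne_zero (show pos j ≠ 0 by omega)
  have hR := h1
  rw [hn] at hR
  rw [step_iff]
  cases n with
  | zero =>
    have h5 : update st j Sta.first = fun i => stat s (pos i) := by
      have := upd_fun (x := Sta.first) h4 (show Sta.first = stat s (pos j) by rw [hn]; rfl)
      rw [this, update_eq_self]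
    have h6 := Ins.sf (M := M) a st q d j
    rw [h5] at h6
    exact ⟨_, _, h6, fun x hx hx1 => (first_iff hR (by omega)).2 rfl x hx hx1, Or.inl ⟨rfl, rfl⟩⟩
  | succ n =>
    have hb : s[n]? = some s[n] := List.getElem?_eq_getElem (by omega)
    obtain ⟨⟨F, hF1, hF2⟩, h7⟩ := on_complete hs hR hb
    have h5 : update st j (Sta.on s[n]) = fun i => stat s (pos i) := by
      have := upd_fun (x := Sta.on s[n]) h4 (show Sta.on s[n] = stat s (pos j) by
        rw [hn]
        exact (stat_on hb).symm)
      rw [this, update_eq_self]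
    have h6 := Ins.so (M := M) a st q d j s[n] F hF2
    rw [h5] at h6
    obtain ⟨l₁, l₂, rfl⟩ := List.append_of_mem hF1
    exact ⟨_, _, h6, fun x hx hx1 => h7 x hx hx1, Or.inr ⟨_, _, rfl, l₁, l₂, rfl, rfl⟩⟩

/-- the move of one head -/
theorem run_head {pos : Fin k → ℕ} {l : List (T × (Fin k → Bool))}
    {q : M.Q} {d : Fin k → Dir} {j : Fin k} (h1 : ∀ i, Rel s i (pos i) l)
    (h2 : ∀ i, pos i ≤ s.length + 2) : ∃ l', ReflTransGen (hprog M).Step
      ((a, fun i => stat s (pos i), Ph.mv q d j.castSucc), l)
      ((a, fun i => stat s (update pos j (move (s.length + 2) (pos j) (d j)) i),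
        Ph.mv q d j.succ), l') ∧
      ∀ i, Rel s i (update pos j (move (s.length + 2) (pos j) (d j)) i) l' := by
  have hd : d j = Dir.L ∨ d j = Dir.S ∨ d j = Dir.R := by
    cases d j <;> simp
  rcases hd with hd | hd | hd
  · rw [hd]
    have hmv : move (s.length + 2) (pos j) Dir.L = pos j - 1 := rfl
    rw [hmv]
    rcases (show pos j ≤ 1 ∨ ∃ n, pos j = n + 2 by
      rcases Nat.lt_or_ge 1 (pos j) with h3 | h3
      · exact Or.inr ⟨pos j - 2, by omega⟩
      · exact Or.inl h3) with h3 | ⟨n, hn⟩
    · have h4 : pos j - 1 = 0 := by omega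
      rw [h4]
      refine ⟨l, ReflTransGen.single ((step_iff M).2 ⟨_, _, ?_, fun x _ => Set.notMem_empty x,
        Or.inl ⟨rfl, rfl⟩⟩), upd_rel (fun i _ => h1 i) ?_⟩
      · have h5 := Ins.ll (M := M) a (fun i => stat s (pos i)) q d j hd (by
          rcases Nat.eq_zero_or_pos (pos j) with h5 | h5
          · exact Or.inl (stat_left_iff.2 h5)
          · exact Or.inr (stat_first_iff.2 (by omega)))
        rw [upd_fun (fun i _ => rfl) (show Sta.left = stat s 0 from rfl)] at h5
        exact h5
      · have := h1 j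
        rcases Nat.eq_zero_or_pos (pos j) with h5 | h5
        · rwa [h5] at this
        · have h6 : pos j = 1 := by omega
          rw [h6] at this
          exact rel_zero_iff.2 this
    · have h4 : pos j - 1 = n + 1 := by omega
      rw [h4]
      have hR := h1 j
      rw [hn] at hR
      rcases lt_or_eq_of_le (show n ≤ s.length by have := h2 j; omega) with h5 | h5
      · have hb : s[n]? = some s[n] := List.getElem?_eq_getElem h5
        obtain ⟨⟨F, hF1, hF2⟩, h7⟩ := on_complete hs hR hb
        obtain ⟨l₁, l₂, rfl⟩ := List.append_of_mem hF1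
        have h8 : (hprog M).Step
            ((a, fun i => stat s (pos i), Ph.mv q d j.castSucc), l₁ ++ (s[n], F) :: l₂)
            ((a, fun i => stat s (pos i), Ph.set q d j),
              l₁ ++ (s[n], update F j false) :: l₂) :=
          (step_iff M).2 ⟨_, _, Ins.la a _ q d j s[n] F hd (by
            show stat s (pos j) = Sta.on s[n]
            rw [hn]
            exact stat_on hb) hF2, fun x _ => Set.notMem_empty x,
            Or.inr ⟨_, _, rfl, l₁, l₂, rfl, rfl⟩⟩
        have h9 : ∀ i, Rel s i (update pos j (n + 1) i)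
            (l₁ ++ (s[n], update F j false) :: l₂) :=
          upd_rel (fun i hi => rel_other (h1 i) (update_of_ne hi _ _))
            (rel_back hR hb hF2 (update_self _ _ _))
        refine ⟨_, (ReflTransGen.single h8).tail (run_set hs (h9 j) ?_ ?_ fun i hi => ?_), h9⟩
        · rw [update_self]
          omega
        · rw [update_self]
          omega
        · rw [update_of_ne hi]
      · subst h5
        have h8 : (hprog M).Step
            ((a, fun i => stat s (pos i), Ph.mv q d j.castSucc), l)
            ((a, fun i => stat s (pos i), Ph.set q d j), l) :=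
          (step_iff M).2 ⟨_, _, Ins.lr a _ q d j hd (by
            show stat s (pos j) = Sta.right
            rw [hn]
            exact stat_right), fun x _ => Set.notMem_empty x, Or.inl ⟨rfl, rfl⟩⟩
        have h9 : ∀ i, Rel s i (update pos j (s.length + 1) i) l :=
          upd_rel (fun i _ => h1 i) (rel_end hR)
        refine ⟨_, (ReflTransGen.single h8).tail (run_set hs (h9 j) ?_ ?_ fun i hi => ?_), h9⟩
        · rw [update_self]
          omega
        · rw [update_self]
        · rw [update_of_ne hi]
  · rw [hd, upd_same (show move (s.length + 2) (pos j) Dir.S = pos j from rfl)]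
    exact ⟨l, ReflTransGen.single ((step_iff M).2 ⟨_, _, Ins.stay a _ q d j hd,
      fun x _ => Set.notMem_empty x, Or.inl ⟨rfl, rfl⟩⟩), h1⟩
  · rw [hd]
    rcases (show pos j = 0 ∨ pos j = s.length + 2 ∨ ∃ n, n ≤ s.length ∧ pos j = n + 1 by
      rcases Nat.eq_zero_or_pos (pos j) with h3 | h3
      · exact Or.inl h3
      · rcases lt_or_eq_of_le (h2 j) with h4 | h4
        · exact Or.inr (Or.inr ⟨pos j - 1, by omega, by omega⟩)
        · exact Or.inr (Or.inl h4)) with h3 | h3 | ⟨n, h3, hn⟩
    · have h4 : move (s.length + 2) (pos j) Dir.R = 1 := by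
        rw [h3]
        show min (0 + 1) (s.length + 2) = 1
        omega
      rw [h4]
      refine ⟨l, ReflTransGen.single ((step_iff M).2 ⟨_, _, ?_, fun x _ => Set.notMem_empty x,
        Or.inl ⟨rfl, rfl⟩⟩), upd_rel (fun i _ => h1 i) ?_⟩
      · have h5 := Ins.rl (M := M) a (fun i => stat s (pos i)) q d j hd (stat_left_iff.2 h3)
        rw [upd_fun (fun i _ => rfl) (show Sta.first = stat s 1 from rfl)] at h5
        exact h5
      · have := h1 j
        rw [h3] at this
        exact rel_zero_iff.1 this
    · have h4 : move (s.length + 2) (pos j) Dir.R = pos j := by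
        rw [h3]
        show min (s.length + 2 + 1) (s.length + 2) = s.length + 2
        omega
      rw [upd_same h4]
      exact ⟨l, ReflTransGen.single ((step_iff M).2 ⟨_, _, Ins.rr a _ q d j hd (by
        show stat s (pos j) = Sta.right
        rw [h3]
        exact stat_right), fun x _ => Set.notMem_empty x, Or.inl ⟨rfl, rfl⟩⟩), h1⟩
    · have h4 : move (s.length + 2) (pos j) Dir.R = n + 2 := by
        rw [hn]
        show min (n + 1 + 1) (s.length + 2) = n + 2
        omega
      rw [h4]
      have hR := h1 j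
      rw [hn] at hR
      have hl : stat s (pos j) ≠ Sta.left := fun h => by
        have := stat_left_iff.1 h
        omega
      have hr : stat s (pos j) ≠ Sta.right := fun h => by
        have := (stat_right_iff (h2 j)).1 h
        omega
      rcases lt_or_eq_of_le h3 with h5 | h5
      · have hb : s[n]? = some s[n] := List.getElem?_eq_getElem h5
        obtain ⟨⟨F, hF1, hF2⟩, h7⟩ := adv_complete hs hR hb
        obtain ⟨l₁, l₂, rfl⟩ := List.append_of_mem hF1
        have h8 := Ins.ra (M := M) a (fun i => stat s (pos i)) q d j s[n] F hd hl hr hF2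
        rw [upd_fun (fun i _ => rfl) (stat_on hb).symm] at h8
        exact ⟨_, ReflTransGen.single ((step_iff M).2 ⟨_, _, h8, fun x hx hx1 => h7 x hx hx1,
          Or.inr ⟨_, _, rfl, l₁, l₂, rfl, rfl⟩⟩),
          upd_rel (fun i hi => rel_other (h1 i) (update_of_ne hi _ _))
            (rel_adv hR hb hF2 (update_self _ _ _))⟩
      · subst h5
        have h8 := Ins.re (M := M) a (fun i => stat s (pos i)) q d j hd hl hr
        rw [upd_fun (fun i _ => rfl) (show Sta.right = stat s (s.length + 2) from
          stat_right.symm)] at h8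
        exact ⟨l, ReflTransGen.single ((step_iff M).2 ⟨_, _, h8,
          fun x hx hx1 => (end_iff hR).2 le_rfl x hx hx1, Or.inl ⟨rfl, rfl⟩⟩),
          upd_rel (fun i _ => h1 i) (rel_end' hR)⟩

/-- the moves of all heads -/
theorem run_heads {pos : Fin k → ℕ} {l : List (T × (Fin k → Bool))}
    {q : M.Q} {d : Fin k → Dir} (h1 : ∀ i, Rel s i (pos i) l) (h2 : ∀ i, pos i ≤ s.length + 2)
    (j : Fin (k + 1)) : ∃ l', ReflTransGen (hprog M).Step
      ((a, fun i => stat s (pos i), Ph.mv q d 0), l)
      ((a, fun i => stat s (if i.castSucc < j then move (s.length + 2) (pos i) (d i) else pos i),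
        Ph.mv q d j), l') ∧
      ∀ i, Rel s i (if i.castSucc < j then move (s.length + 2) (pos i) (d i) else pos i) l' := by
  induction j using Fin.induction with
  | zero =>
    refine ⟨l, ?_, fun i => ?_⟩
    · have : (fun i : Fin k => stat s (if i.castSucc < (0 : Fin (k + 1)) then
          move (s.length + 2) (pos i) (d i) else pos i)) = fun i => stat s (pos i) := by
        funext i
        rw [if_neg (by simp)]
      rw [this]
    · rw [if_neg (by simp)]
      exact h1 i
  | succ j ih =>
    obtain ⟨l', h3, h4⟩ := ih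
    obtain ⟨l'', h5, h6⟩ := run_head (M := M) (a := a) (q := q) (d := d) (j := j) hs h4 (fun i => by
      split_ifs
      · exact move_le _ _ _ (h2 i)
      · exact h2 i)
    have h7 : (update (fun i => if i.castSucc < j.castSucc then move (s.length + 2) (pos i) (d i)
        else pos i) j (move (s.length + 2) (if j.castSucc < j.castSucc then
          move (s.length + 2) (pos j) (d j) else pos j) (d j))) =
        fun i => if i.castSucc < j.succ then move (s.length + 2) (pos i) (d i) else pos i := by
      funext i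
      by_cases h3 : i = j
      · subst h3
        rw [update_self, if_neg (lt_irrefl _), if_pos (Fin.castSucc_lt_succ)]
      · rw [update_of_ne h3]
        have h4 : i.castSucc < j.castSucc ↔ i.castSucc < j.succ := by
          rw [Fin.lt_def, Fin.lt_def]
          have h5 : (i : ℕ) ≠ j := fun h5 => h3 (Fin.ext h5)
          simp only [Fin.val_castSucc, Fin.val_succ]
          omega
        by_cases h5 : i.castSucc < j.castSucc
        · rw [if_pos h5, if_pos (h4.1 h5)]
        · rw [if_neg h5, if_neg fun h6 => h5 (h4.2 h6)]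
    rw [h7] at h5 h6
    exact ⟨l'', h3.trans h5, h6⟩

/-- a run of the automaton gives a run of the program -/
theorem run_all {l : List (T × (Fin k → Bool))} (h0 : ∀ i : Fin k, Rel s i 0 l) {q : M.Q}
    {pos : Fin k → ℕ} (h : MR M a s q pos) : (∀ i, pos i ≤ s.length + 2) ∧
    ∃ l', ReflTransGen (hprog M).Step ((a, fun _ => Sta.left, Ph.main M.start), l)
      ((a, fun i => stat s (pos i), Ph.main q), l') ∧ ∀ i, Rel s i (pos i) l' := by
  unfold MR at h
  generalize hc : (q, pos) = c at h
  induction h generalizing q pos with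
  | refl =>
    have h1 : q = M.start := congrArg Prod.fst hc
    have h2 : pos = fun _ => 0 := congrArg Prod.snd hc
    rw [h1, h2]
    exact ⟨fun _ => Nat.zero_le _, l, ReflTransGen.refl, h0⟩
  | tail h1 h2 ih =>
    rename_i c₁ c₂
    obtain ⟨q₁, pos₁⟩ := c₁
    obtain ⟨h3, l', h4, h5⟩ := ih rfl
    obtain ⟨⟨q', d⟩, h6, h7⟩ := h2
    rw [← hc] at h7
    have hq : q = q' := congrArg Prod.fst h7
    have hp : pos = fun i => move (s.length + 2) (pos₁ i) (d i) := congrArg Prod.snd h7
    obtain ⟨l'', h8, h9⟩ := run_heads (M := M) (a := a) (q := q') (d := d) hs h5 h3 (Fin.last k)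
    have h10 : (fun i : Fin k => if i.castSucc < Fin.last k then
        move (s.length + 2) (pos₁ i) (d i) else pos₁ i) = pos := by
      rw [hp]
      funext i
      rw [if_pos (Fin.castSucc_lt_last i)]
    have h10' : ∀ i : Fin k, (if i.castSucc < Fin.last k then
        move (s.length + 2) (pos₁ i) (d i) else pos₁ i) = pos i := fun i => congrFun h10 i
    simp only [h10'] at h8 h9
    refine ⟨fun i => ?_, l'', ?_, h9⟩
    · rw [hp]
      exact move_le _ _ _ (h3 i)
    · have g1 : (hprog M).Step ((a, fun i => stat s (pos₁ i), Ph.main q₁), l')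
          ((a, fun i => stat s (pos₁ i), Ph.mv q' d 0), l') :=
        (step_iff M).2 ⟨_, _, Ins.go a _ q₁ q' d (by
          have h11 : (fun i => scan a (stat s (pos₁ i))) = fun i => tape (a :: s) (pos₁ i) := by
            funext i
            rw [tape_stat]
          rw [h11]
          exact h6), fun x _ => Set.notMem_empty x, Or.inl ⟨rfl, rfl⟩⟩
      have g2 : (hprog M).Step ((a, fun i => stat s (pos i), Ph.mv q' d (Fin.last k)), l'')
          ((a, fun i => stat s (pos i), Ph.main q), l'') :=
        (step_iff M).2 ⟨_, _, by rw [hq]; exact Ins.done a _ q' d, fun x _ => Set.notMem_empty x,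
          Or.inl ⟨rfl, rfl⟩⟩
      exact ((h4.tail g1).trans h8).tail g2

end Prog3

/-- **From multihead automata to token programs** -/
theorem exists_prog {T : Type} [Finite T] {k : ℕ} (M : FA T k)
    (hc : ∀ w w' : List T, w.Perm w' → w ∈ M.lang → w' ∈ M.lang) (h0 : [] ∉ M.lang) :
    ∃ P : TP T, P.lang = M.lang := by
  classical
  obtain ⟨n, ⟨e⟩⟩ := Finite.exists_equiv_fin T
  let _ : LinearOrder T := LinearOrder.lift' e e.injective
  refine ⟨hprog M, ?_⟩
  have hsort : ∀ w : List T, ∃ s : List T, s.Perm w ∧ s.Pairwise (· ≤ ·) := fun w =>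
    ⟨w.insertionSort (· ≤ ·), List.perm_insertionSort _ w, List.pairwise_insertionSort _ w⟩
  have hrel : ∀ (w s : List T), s.Perm w → ∀ i : Fin k,
      Rel s i 0 (w.map fun a => ((a, fun _ => false) : T × (Fin k → Bool))) := by
    intro w s hw i
    unfold Rel
    have h1 : fg i (w.map fun a => ((a, fun _ => false) : T × (Fin k → Bool))) = [] := by
      unfold fg
      induction w with
      | nil => rfl
      | cons a w ih => simp
    have h2 : uf i (w.map fun a => ((a, fun _ => false) : T × (Fin k → Bool))) = w := by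
      unfold uf
      rw [List.filter_eq_self.2 (by simp), List.map_map]
      exact List.map_id w
    rw [h1, h2]
    exact ⟨List.Perm.refl _, hw.symm⟩
  ext w
  constructor
  · rintro ⟨a, w', rfl, c, l, h, hacc⟩
    obtain ⟨s, hs, hs1⟩ := hsort w'
    have h1 : ∀ c' : (hprog M).C × List (hprog M).X, ReflTransGen (hprog M).Step
        ((hprog M).st a, w'.map (hprog M).ini) c' → ∃ pos, Sim M a s pos c'.1 c'.2 := by
      intro c' h'
      induction h' with
      | refl => exact ⟨fun _ => 0, rfl, hrel w' s hs, fun _ => Nat.zero_le _, fun _ => rfl,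
          ReflTransGen.refl⟩
      | tail _ h2 ih =>
        obtain ⟨pos, hpos⟩ := ih
        exact sim_step hs1 hpos h2
    obtain ⟨pos, g1, g2, g3, g4⟩ := h1 _ h
    obtain ⟨q, hq, hq1⟩ := hacc
    have g4' : MR M a s q pos := by
      have hq2 : c.2.2 = Ph.main q := hq1
      simp only [hq2] at g4
      exact g4.2
    exact hc (a :: s) (a :: w') (hs.cons a) ⟨(q, pos), g4', hq⟩
  · intro hw
    cases w with
    | nil => exact absurd hw h0
    | cons a w' =>
      obtain ⟨s, hs, hs1⟩ := hsort w'
      obtain ⟨⟨q, pos⟩, h1, h2⟩ := hc (a :: w') (a :: s) (hs.symm.cons a) hw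
      obtain ⟨-, l', h3, -⟩ := run_all hs1 (hrel w' s hs) h1
      exact ⟨a, w', rfl, _, l', h3, q, h2, rfl⟩

end Pool.Agent.SCG
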