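import Pool.Agent.SCG.ToHeads

/-!
# The automaton simulating a grammar on multiplicities (helper52)
-/

set_option autoImplicit false

namespace Pool.Agent.SCG

open Pool.Agent.Heads Relation

/-! ### Operations of an automaton whose heads are counters, one more head reads the input -/

/-- the elementary operations -/
inductive Op (K T : Type) where
  | inc : K → Op K T
  | dec : K → Op K T
  | zero : K → Op K T
  | pos : K → Op K T
  | read : T → Op K T
  | skip : Op K T
  | fin : Op K T

instance {K T : Type} [Finite K] [Finite T] : Finite (Op K T) := by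
  let f : Op K T → (Fin 7 × Option K × Option T) := fun o => match o with
    | Op.inc κ => (0, some κ, none)
    | Op.dec κ => (1, some κ, none)
    | Op.zero κ => (2, some κ, none)
    | Op.pos κ => (3, some κ, none)
    | Op.read a => (4, none, some a)
    | Op.skip => (5, none, none)
    | Op.fin => (6, none, none)
  refine Finite.of_injective f fun a b h => ?_
  cases a <;> cases b <;> simp [f] at h <;> first | rfl | (rw [h])

section Ops

variable {K T : Type}

/-- the guard of an operation, in terms of the scanned symbols -/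
def Op.ok (x : Option K → Sym T) : Op K T → Prop
  | Op.inc κ => x (some κ) ≠ Sym.right
  | Op.dec κ => x (some κ) ≠ Sym.left
  | Op.zero κ => x (some κ) = Sym.left
  | Op.pos κ => x (some κ) ≠ Sym.left
  | Op.read a => x none = Sym.letter a
  | Op.skip => x none = Sym.left
  | Op.fin => x none = Sym.right

open Classical in
/-- the head moves of an operation -/
noncomputable def Op.dir : Op K T → Option K → Dir
  | Op.inc κ => fun o => if o = some κ then Dir.R else Dir.S
  | Op.dec κ => fun o => if o = some κ then Dir.L else Dir.S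
  | Op.zero _ => fun _ => Dir.S
  | Op.pos _ => fun _ => Dir.S
  | Op.read _ => fun o => if o = none then Dir.R else Dir.S
  | Op.skip => fun o => if o = none then Dir.R else Dir.S
  | Op.fin => fun _ => Dir.S

/-- the effect of an operation on the positions -/
def Op.Run (w : List T) (op : Op K T) (p p' : Option K → ℕ) : Prop :=
  op.ok (fun o => tape w (p o)) ∧ p' = fun o => move (w.length + 1) (p o) (op.dir o)

/-- the effect of a list of operations -/
def Exec (w : List T) : List (Op K T) → (Option K → ℕ) → (Option K → ℕ) → Prop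
  | [], p, p' => p = p'
  | op :: l, p, p' => ∃ q, op.Run w p q ∧ Exec w l q p'

theorem tape_left {w : List T} {p : ℕ} : tape w p = Sym.left ↔ p = 0 := by
  cases p with
  | zero => simp [tape]
  | succ p =>
    simp only [tape, Nat.add_eq_zero_iff, one_ne_zero, and_false, iff_false]
    cases w[p]? <;> simp

theorem tape_right {w : List T} {p : ℕ} : tape w p = Sym.right ↔ w.length + 1 ≤ p := by
  cases p with
  | zero => simp [tape]
  | succ p =>
    simp only [tape]
    rcases Nat.lt_or_ge p w.length with h | h
    · rw [List.getElem?_eq_getElem h]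
      simp
      omega
    · rw [List.getElem?_eq_none h]
      simp
      omega

theorem tape_letter {w : List T} {p : ℕ} {a : T} :
    tape w p = Sym.letter a ↔ ∃ i, p = i + 1 ∧ w[i]? = some a := by
  cases p with
  | zero => simp [tape]
  | succ p =>
    simp only [tape]
    constructor
    · intro h
      refine ⟨p, rfl, ?_⟩
      cases h1 : w[p]? with
      | none => rw [h1] at h; simp at h
      | some b => rw [h1] at h; simp at h; rw [h]
    · rintro ⟨i, hi, h⟩
      have : i = p := by omega
      subst this
      rw [h]

theorem run_inc {w : List T} {κ : K} {p p' : Option K → ℕ} (h : (Op.inc κ : Op K T).Run w p p') :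
    p (some κ) ≤ w.length ∧ p' (some κ) = p (some κ) + 1 ∧ ∀ o, o ≠ some κ → p' o = p o := by
  obtain ⟨h1, rfl⟩ := h
  have h2 : ¬ (w.length + 1 ≤ p (some κ)) := fun h => h1 (tape_right.2 h)
  refine ⟨by omega, ?_, fun o ho => ?_⟩
  · simp only [Op.dir, if_true, move]
    omega
  · simp only [Op.dir, ho, if_false, move]

theorem inc_run {w : List T} {κ : K} {p p' : Option K → ℕ} (h0 : p (some κ) ≤ w.length)
    (h1 : p' (some κ) = p (some κ) + 1) (h2 : ∀ o, o ≠ some κ → p' o = p o) :
    (Op.inc κ : Op K T).Run w p p' := by
  refine ⟨fun h => ?_, ?_⟩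
  · have := tape_right.1 h
    omega
  · funext o
    by_cases ho : o = some κ
    · subst ho
      simp only [Op.dir, if_true, move]
      omega
    · simp only [Op.dir, ho, if_false, move]
      exact h2 o ho

theorem run_dec {w : List T} {κ : K} {p p' : Option K → ℕ} :
    (Op.dec κ : Op K T).Run w p p' ↔
    p (some κ) = p' (some κ) + 1 ∧ ∀ o, o ≠ some κ → p' o = p o := by
  constructor
  · rintro ⟨h1, rfl⟩
    have h2 : ¬ (p (some κ) = 0) := fun h => h1 (tape_left.2 h)
    refine ⟨?_, fun o ho => ?_⟩
    · simp only [Op.dir, if_true, move]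
      omega
    · simp only [Op.dir, ho, if_false, move]
  · rintro ⟨h1, h2⟩
    refine ⟨fun h => ?_, ?_⟩
    · have := tape_left.1 h
      omega
    · funext o
      by_cases ho : o = some κ
      · subst ho
        simp only [Op.dir, if_true, move]
        omega
      · simp only [Op.dir, ho, if_false, move]
        exact h2 o ho

theorem run_zero {w : List T} {κ : K} {p p' : Option K → ℕ} :
    (Op.zero κ : Op K T).Run w p p' ↔ p (some κ) = 0 ∧ p' = p := by
  show (tape w (p (some κ)) = Sym.left ∧ p' = p) ↔ _
  rw [tape_left]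

theorem run_pos {w : List T} {κ : K} {p p' : Option K → ℕ} :
    (Op.pos κ : Op K T).Run w p p' ↔ 0 < p (some κ) ∧ p' = p := by
  show (tape w (p (some κ)) ≠ Sym.left ∧ p' = p) ↔ _
  rw [ne_eq, tape_left, Nat.pos_iff_ne_zero]

theorem run_fin {w : List T} {p p' : Option K → ℕ} :
    (Op.fin : Op K T).Run w p p' ↔ w.length + 1 ≤ p none ∧ p' = p := by
  show (tape w (p none) = Sym.right ∧ p' = p) ↔ _
  rw [tape_right]

theorem run_skip {w : List T} {p p' : Option K → ℕ} :
    (Op.skip : Op K T).Run w p p' ↔ p none = 0 ∧ p' none = 1 ∧ ∀ κ, p' (some κ) = p (some κ) := by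
  show (tape w (p none) = Sym.left ∧
    p' = fun o => move (w.length + 1) (p o) ((Op.skip : Op K T).dir o)) ↔ _
  rw [tape_left]
  refine and_congr_right fun h => ?_
  constructor
  · rintro rfl
    simp [Op.dir, move, h]
  · rintro ⟨h1, h2⟩
    funext o
    cases o with
    | none => simp [Op.dir, move, h, h1]
    | some κ => simp [Op.dir, move, h2]

theorem run_read {w : List T} {a : T} {p p' : Option K → ℕ} :
    (Op.read a : Op K T).Run w p p' ↔ (∃ i, p none = i + 1 ∧ w[i]? = some a ∧ p' none = i + 2) ∧
      ∀ κ, p' (some κ) = p (some κ) := by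
  show (tape w (p none) = Sym.letter a ∧
    p' = fun o => move (w.length + 1) (p o) ((Op.read a : Op K T).dir o)) ↔ _
  rw [tape_letter]
  constructor
  · rintro ⟨⟨i, h1, h2⟩, rfl⟩
    have h3 : i < w.length := (List.getElem?_eq_some_iff.1 h2).1
    refine ⟨⟨i, h1, h2, ?_⟩, fun κ => ?_⟩
    · simp only [Op.dir, if_true, move, h1]
      omega
    · simp [Op.dir, move]
  · rintro ⟨⟨i, h1, h2, h3⟩, h4⟩
    have h5 : i < w.length := (List.getElem?_eq_some_iff.1 h2).1
    refine ⟨⟨i, h1, h2⟩, ?_⟩
    funext o
    cases o with
    | none =>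
      simp only [Op.dir, if_true, move, h1]
      omega
    | some κ => simp [Op.dir, move, h4]

theorem exec_append {w : List T} {l l' : List (Op K T)} {p p' : Option K → ℕ} :
    Exec w (l ++ l') p p' ↔ ∃ q, Exec w l p q ∧ Exec w l' q p' := by
  induction l generalizing p with
  | nil =>
    constructor
    · intro h
      exact ⟨p, rfl, h⟩
    · rintro ⟨q, h1, h2⟩
      have : p = q := h1
      rw [this]
      exact h2
  | cons op l ih =>
    simp only [List.cons_append, Exec, ih]
    constructor
    · rintro ⟨q, h1, q', h2, h3⟩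
      exact ⟨q', ⟨q, h1, h2⟩, h3⟩
    · rintro ⟨q', ⟨q, h1, h2⟩, h3⟩
      exact ⟨q, h1, q', h2, h3⟩

theorem exec_incs {w : List T} {l : List K} {p p' : Option K → ℕ}
    (h : Exec w (l.map (Op.inc : K → Op K T)) p p') :
    p' none = p none ∧ ∀ κ, p' (some κ) = p (some κ) + cnt l κ := by
  induction l generalizing p with
  | nil =>
    have : p = p' := h
    subst this
    exact ⟨rfl, fun κ => by rw [cnt_nil]; rfl⟩
  | cons κ l ih =>
    obtain ⟨q, h1, h2⟩ := h
    obtain ⟨-, h3, h4⟩ := run_inc h1
    obtain ⟨h5, h6⟩ := ih h2
    refine ⟨by rw [h5, h4 none (by simp)], fun κ' => ?_⟩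
    rw [h6, cnt_cons]
    by_cases hκ : κ' = κ
    · subst hκ
      rw [h3, cnt_self]
      omega
    · rw [h4 (some κ') (by simpa using hκ), cnt_ne hκ]
      omega

theorem incs_exec {w : List T} {l : List K} {p p' : Option K → ℕ}
    (h0 : p' none = p none) (h1 : ∀ κ, p' (some κ) = p (some κ) + cnt l κ)
    (h2 : ∀ κ, p' (some κ) ≤ w.length + 1) :
    Exec w (l.map (Op.inc : K → Op K T)) p p' := by
  classical
  induction l generalizing p with
  | nil =>
    show p = p'
    funext o
    cases o with
    | none => exact h0.symm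
    | some κ => rw [h1 κ, cnt_nil]; rfl
  | cons κ l ih =>
    refine ⟨fun o => if o = some κ then p o + 1 else p o, inc_run ?_ ?_ ?_, ih ?_ ?_⟩
    · have h3 := h1 κ
      rw [cnt_cons, cnt_self] at h3
      have := h2 κ
      omega
    · simp
    · intro o ho
      simp [ho]
    · simp [h0]
    · intro κ'
      rw [h1 κ', cnt_cons]
      by_cases hκ : κ' = κ
      · subst hκ
        rw [cnt_self]
        simp
        omega
      · rw [cnt_ne hκ]
        simp [hκ]

end Ops

end Pool.Agent.SCG
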