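import Pool.Agent.SCG.Auto

/-!
# The automaton simulating a grammar on multiplicities, correctness (helper52)
-/

set_option autoImplicit false

namespace Pool.Agent.SCG

open Pool.Agent.Heads Relation

/-- the phases of the simulation -/
inductive Mode where
  | derive | check | done

instance : Finite Mode := by
  refine Finite.of_injective (fun m : Mode => match m with
    | Mode.derive => (0 : Fin 3)
    | Mode.check => 1
    | Mode.done => 2) fun a b h => ?_
  cases a <;> cases b <;> simp at h <;> rfl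

section Sim

variable {T : Type} (G : Grammar T)

/-- the tests of a rule -/
def tests (r : Rule T G.N) : List (Op (T ⊕ G.N) T) :=
  (match r.perm with
    | some [s] => [Op.pos s]
    | _ => []) ++
  (match r.forb with
    | some [s] => [Op.zero s]
    | _ => [])

/-- the program of a rule -/
def prog (r : Rule T G.N) : List (Op (T ⊕ G.N) T) :=
  tests G r ++ Op.dec (Sum.inr r.lhs) :: r.rhs.map Op.inc

theorem exec_tests {w : List T} {r : Rule T G.N} {p p' : Option (T ⊕ G.N) → ℕ} :
    Exec w (tests G r) p p' ↔ p' = p ∧ (∀ s, r.perm = some [s] → 0 < p (some s)) ∧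
      (∀ s, r.forb = some [s] → p (some s) = 0) := by
  unfold tests
  rw [exec_append]
  have h1 : ∀ q, Exec w (match r.perm with
      | some [s] => [Op.pos s]
      | _ => []) p q ↔ q = p ∧ (∀ s, r.perm = some [s] → 0 < p (some s)) := by
    intro q
    split
    · rename_i s hs
      simp only [Exec, run_pos]
      constructor
      · rintro ⟨q', ⟨h1, rfl⟩, rfl⟩
        refine ⟨rfl, fun s' hs' => ?_⟩
        rw [hs] at hs'
        simp only [Option.some.injEq, List.cons.injEq, and_true] at hs'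
        rw [← hs']
        exact h1
      · rintro ⟨rfl, h1⟩
        exact ⟨q, ⟨h1 s hs, rfl⟩, rfl⟩
    · rename_i hs
      constructor
      · intro h
        have : p = q := h
        exact ⟨this.symm, fun s hs' => absurd hs' (hs s)⟩
      · rintro ⟨rfl, -⟩
        rfl
  have h2 : ∀ p p' : Option (T ⊕ G.N) → ℕ, Exec w (match r.forb with
      | some [s] => [Op.zero s]
      | _ => []) p p' ↔ p' = p ∧ (∀ s, r.forb = some [s] → p (some s) = 0) := by
    intro p p'
    split
    · rename_i s hs
      simp only [Exec, run_zero]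
      constructor
      · rintro ⟨q', ⟨h1, rfl⟩, rfl⟩
        refine ⟨rfl, fun s' hs' => ?_⟩
        rw [hs] at hs'
        simp only [Option.some.injEq, List.cons.injEq, and_true] at hs'
        rw [← hs']
        exact h1
      · rintro ⟨rfl, h1⟩
        exact ⟨p', ⟨h1 s hs, rfl⟩, rfl⟩
    · rename_i hs
      constructor
      · intro h
        have : p = p' := h
        exact ⟨this.symm, fun s hs' => absurd hs' (hs s)⟩
      · rintro ⟨rfl, -⟩
        rfl
  simp only [h1, h2]
  constructor
  · rintro ⟨q, ⟨rfl, h3⟩, h4, h5⟩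
    exact ⟨h4, h3, h5⟩
  · rintro ⟨h3, h4, h5⟩
    exact ⟨p, ⟨rfl, h4⟩, h3, h5⟩

theorem prog_sound {w : List T} {r : Rule T G.N} (hr : r ∈ G.rules)
    {p p' : Option (T ⊕ G.N) → ℕ} (h : Exec w (prog G r) p p') :
    PStep G (fun κ => p (some κ)) (fun κ => p' (some κ)) ∧ p' none = p none := by
  unfold prog at h
  rw [exec_append] at h
  obtain ⟨q, h1, q', h2, h3⟩ := h
  obtain ⟨rfl, h4, h5⟩ := (exec_tests G).1 h1
  obtain ⟨h6, h7⟩ := run_dec.1 h2
  obtain ⟨h8, h9⟩ := exec_incs h3
  refine ⟨⟨r, hr, by show 0 < q _; omega, h4, h5, fun s => ?_⟩, by rw [h8, h7 none (by simp)]⟩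
  show p' (some s) + _ = q (some s) + _
  rw [h9]
  by_cases hs : s = Sum.inr r.lhs
  · subst hs
    rw [cnt_self, h6]
    omega
  · rw [cnt_ne hs, h7 (some s) (by simpa using hs)]
    omega

theorem prog_complete {w : List T} {v v' : T ⊕ G.N → ℕ} (h : PStep G v v')
    (hv : ∀ κ, v' κ ≤ w.length + 1) (n : ℕ) :
    ∃ r ∈ G.rules, Exec w (prog G r) (fun o => o.elim n v) (fun o => o.elim n v') := by
  classical
  obtain ⟨r, hr, h1, h2, h3, h4⟩ := h
  refine ⟨r, hr, ?_⟩
  unfold prog
  rw [exec_append]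
  refine ⟨fun o => o.elim n v, (exec_tests G).2 ⟨rfl, h2, h3⟩,
    fun o => o.elim n (fun κ => if κ = Sum.inr r.lhs then v κ - 1 else v κ), ?_, ?_⟩
  · refine run_dec.2 ⟨?_, fun o ho => ?_⟩
    · simp only [Option.elim_some, if_true]
      omega
    · cases o with
      | none => rfl
      | some κ =>
        have : κ ≠ Sum.inr r.lhs := fun h => ho (by rw [h])
        simp [this]
  · refine incs_exec rfl (fun κ => ?_) hv
    simp only [Option.elim_some]
    have h5 := h4 κ
    by_cases hκ : κ = Sum.inr r.lhs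
    · subst hκ
      rw [cnt_self] at h5
      rw [if_pos rfl]
      omega
    · rw [cnt_ne hκ] at h5
      rw [if_neg hκ]
      omega

variable (zs : List (T ⊕ G.N))

/-- the silent transitions -/
def next : Mode → Set (Mode × List (Op (T ⊕ G.N) T))
  | Mode.derive => {t | (∃ r ∈ G.rules, t = (Mode.derive, prog G r)) ∨
      t = (Mode.check, [Op.skip])}
  | Mode.check => {t | (∃ a : T, t = (Mode.check, [Op.read a, Op.dec (Sum.inl a)])) ∨
      t = (Mode.done, Op.fin :: zs.map Op.zero)}
  | Mode.done => ∅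

/-- one step of the simulation -/
inductive MStep (w : List T) : Mode × List (Op (T ⊕ G.N) T) × (Option (T ⊕ G.N) → ℕ) →
    Mode × List (Op (T ⊕ G.N) T) × (Option (T ⊕ G.N) → ℕ) → Prop
  | op (m : Mode) (o : Op (T ⊕ G.N) T) (l : List (Op (T ⊕ G.N) T))
      (p p' : Option (T ⊕ G.N) → ℕ) : o.Run w p p' → MStep w (m, o :: l, p) (m, l, p')
  | sil (m m' : Mode) (l' : List (Op (T ⊕ G.N) T)) (p : Option (T ⊕ G.N) → ℕ) :
      (m', l') ∈ next G zs m → MStep w (m, [], p) (m', l', p)

/-- the initial configuration -/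
def mstart : Mode × List (Op (T ⊕ G.N) T) × (Option (T ⊕ G.N) → ℕ) :=
  (Mode.derive, [Op.inc (Sum.inr G.start)], fun _ => 0)

/-- the invariant of the simulation -/
def Inv (w : List T) (m : Mode) (l : List (Op (T ⊕ G.N) T)) (p : Option (T ⊕ G.N) → ℕ) : Prop :=
  match m with
  | Mode.derive => ∀ p', Exec w l p p' → PReach G (fun κ => p' (some κ)) ∧ p' none = 0
  | Mode.check => ∀ p', Exec w l p p' → ∃ i ≤ w.length, p' none = i + 1 ∧
      PReach G (fun κ => p' (some κ) + cnt ((w.take i).map Sum.inl) κ)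
  | Mode.done => ∀ p', Exec w l p p' → PReach G (cnt (w.map Sum.inl))

theorem exec_zeros {w : List T} {l : List (T ⊕ G.N)} {p p' : Option (T ⊕ G.N) → ℕ} :
    Exec w (l.map (Op.zero : T ⊕ G.N → Op (T ⊕ G.N) T)) p p' ↔
      p' = p ∧ ∀ κ ∈ l, p (some κ) = 0 := by
  induction l generalizing p with
  | nil =>
    constructor
    · intro h
      have : p = p' := h
      exact ⟨this.symm, by simp⟩
    · rintro ⟨rfl, -⟩
      rfl
  | cons κ l ih =>
    simp only [List.map_cons, Exec, run_zero, ih, List.mem_cons]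
    constructor
    · rintro ⟨q, ⟨h1, rfl⟩, rfl, h2⟩
      refine ⟨rfl, ?_⟩
      rintro κ' (rfl | h3)
      · exact h1
      · exact h2 κ' h3
    · rintro ⟨rfl, h1⟩
      exact ⟨p', ⟨h1 κ (Or.inl rfl), rfl⟩, rfl, fun κ' h => h1 κ' (Or.inr h)⟩

theorem inv_start (w : List T) :
    Inv G w Mode.derive [Op.inc (Sum.inr G.start)] (fun _ => 0) := by
  intro p' h
  obtain ⟨q, h1, h2⟩ := h
  have : q = p' := h2
  subst this
  obtain ⟨-, h3, h4⟩ := run_inc h1
  refine ⟨?_, h4 none (by simp)⟩
  have h5 : (fun κ => q (some κ)) = cnt [Sum.inr G.start] := by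
    funext κ
    by_cases hκ : κ = Sum.inr G.start
    · subst hκ
      rw [h3, cnt_self]
    · rw [h4 (some κ) (by simpa using hκ), cnt_ne hκ]
  rw [h5]
  exact ReflTransGen.refl

theorem inv_op {w : List T} {m : Mode} {o : Op (T ⊕ G.N) T} {l : List (Op (T ⊕ G.N) T)}
    {p p' : Option (T ⊕ G.N) → ℕ} (h : o.Run w p p') (hc : Inv G w m (o :: l) p) :
    Inv G w m l p' := by
  cases m with
  | derive => exact fun q hq => hc q ⟨p', h, hq⟩
  | check => exact fun q hq => hc q ⟨p', h, hq⟩
  | done => exact fun q hq => hc q ⟨p', h, hq⟩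

theorem inv_read {w : List T} {a : T} {p : Option (T ⊕ G.N) → ℕ}
    (hc : Inv G w Mode.check [] p) :
    Inv G w Mode.check [Op.read a, Op.dec (Sum.inl a)] p := by
  obtain ⟨i, hi, h5, h6⟩ := hc p rfl
  rintro q ⟨q', h7, q'', h8, h9⟩
  have : q'' = q := h9
  subst this
  obtain ⟨⟨i', h10, h11, h12⟩, h13⟩ := run_read.1 h7
  obtain ⟨h14, h15⟩ := run_dec.1 h8
  have hii : i' = i := by omega
  subst hii
  have hlt : i' < w.length := (List.getElem?_eq_some_iff.1 h11).1
  refine ⟨i' + 1, hlt, by rw [h15 none (by simp), h12], ?_⟩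
  have h16 : (fun κ => q'' (some κ) + cnt ((w.take (i' + 1)).map Sum.inl) κ) =
      fun κ => p (some κ) + cnt ((w.take i').map (Sum.inl : T → T ⊕ G.N)) κ := by
    funext κ
    have h17 : w.take (i' + 1) = w.take i' ++ [a] := by
      rw [List.take_add_one, h11]
      rfl
    rw [h17, List.map_append, cnt_append]
    simp only [List.map_cons, List.map_nil]
    rw [← h13 κ]
    by_cases hκ : κ = Sum.inl a
    · subst hκ
      rw [cnt_self, h14]
      omega
    · rw [cnt_ne hκ, h15 (some κ) (by simpa using hκ)]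
      rfl
  rw [h16]
  exact h6

theorem inv_skip {w : List T} {p : Option (T ⊕ G.N) → ℕ}
    (hc : Inv G w Mode.derive [] p) : Inv G w Mode.check [Op.skip] p := by
  have hc' := hc p rfl
  rintro q ⟨q', h5, h6⟩
  have : q' = q := h6
  subst this
  obtain ⟨-, h7, h8⟩ := run_skip.1 h5
  refine ⟨0, Nat.zero_le _, h7, ?_⟩
  have h9 : (fun κ => q' (some κ) + cnt ((w.take 0).map Sum.inl) κ) = fun κ => p (some κ) := by
    funext κ
    rw [h8, List.take_zero, List.map_nil, cnt_nil]
    rfl
  rw [h9]
  exact hc'.1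

theorem inv_fin (hzs : ∀ κ, κ ∈ zs) {w : List T} {p : Option (T ⊕ G.N) → ℕ}
    (hc : Inv G w Mode.check [] p) : Inv G w Mode.done (Op.fin :: zs.map Op.zero) p := by
  obtain ⟨i, hi, h5, h6⟩ := hc p rfl
  rintro q ⟨q', h7, h8⟩
  obtain ⟨h9, rfl⟩ := run_fin.1 h7
  obtain ⟨rfl, h10⟩ := (exec_zeros G).1 h8
  have hi' : i = w.length := by omega
  subst hi'
  rw [List.take_length] at h6
  have h11 : (fun κ => q (some κ) + cnt (w.map Sum.inl) κ) =
      cnt (w.map (Sum.inl : T → T ⊕ G.N)) := by
    funext κ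
    rw [h10 κ (hzs κ), Nat.zero_add]
  rw [h11] at h6
  exact h6

theorem inv_step (hzs : ∀ κ, κ ∈ zs) {w : List T}
    {c c' : Mode × List (Op (T ⊕ G.N) T) × (Option (T ⊕ G.N) → ℕ)}
    (h : MStep G zs w c c') (hc : Inv G w c.1 c.2.1 c.2.2) : Inv G w c'.1 c'.2.1 c'.2.2 := by
  cases h with
  | op m o l p p' h1 => exact inv_op G h1 hc
  | sil m m' l' p h2 =>
    cases m with
    | derive =>
      rcases h2 with ⟨r, hr, h4⟩ | h4
      · obtain ⟨rfl, rfl⟩ := Prod.mk.inj h4
        intro q hq
        obtain ⟨h5, h6⟩ := prog_sound G hr hq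
        have hc' := hc p rfl
        exact ⟨hc'.1.tail h5, by rw [h6]; exact hc'.2⟩
      · obtain ⟨rfl, rfl⟩ := Prod.mk.inj h4
        exact inv_skip G hc
    | check =>
      rcases h2 with ⟨a, h4⟩ | h4
      · obtain ⟨rfl, rfl⟩ := Prod.mk.inj h4
        exact inv_read G hc
      · obtain ⟨rfl, rfl⟩ := Prod.mk.inj h4
        exact inv_fin G zs hzs hc
    | done => exact absurd h2 (by simp [next])

theorem sim_sound (hzs : ∀ κ, κ ∈ zs) {w : List T} {p : Option (T ⊕ G.N) → ℕ}
    (h : ReflTransGen (MStep G zs w) (mstart G) (Mode.done, [], p)) :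
    PReach G (cnt (w.map Sum.inl)) := by
  have h1 : ∀ c, ReflTransGen (MStep G zs w) (mstart G) c → Inv G w c.1 c.2.1 c.2.2 := by
    intro c hc
    induction hc with
    | refl => exact inv_start G w
    | tail _ h2 ih => exact inv_step G zs hzs h2 ih
  exact h1 _ h p rfl

/-- executing a list of operations -/
theorem mreach_exec {w : List T} (m : Mode) {l : List (Op (T ⊕ G.N) T)}
    {p p' : Option (T ⊕ G.N) → ℕ} (h : Exec w l p p') :
    ReflTransGen (MStep G zs w) (m, l, p) (m, [], p') := by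
  induction l generalizing p with
  | nil =>
    have : p = p' := h
    rw [this]
  | cons op l ih =>
    obtain ⟨q, h1, h2⟩ := h
    exact ReflTransGen.head (MStep.op m op l p q h1) (ih h2)

theorem sim_complete_derive (hp : G.Propagating) [Fintype (T ⊕ G.N)] {w : List T}
    {v : T ⊕ G.N → ℕ} (h : PReach G v) (hv : ∑ κ, v κ ≤ w.length) :
    ReflTransGen (MStep G zs w) (mstart G) (Mode.derive, [], fun o => o.elim 0 v) := by
  unfold PReach at h
  induction h with
  | refl =>
    refine mreach_exec G zs Mode.derive ⟨fun o => o.elim 0 (cnt [Sum.inr G.start]), ?_, rfl⟩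
    refine inc_run (Nat.zero_le _) ?_ ?_
    · simp only [Option.elim_some, cnt_self]
    · intro o ho
      cases o with
      | none => rfl
      | some κ =>
        have : κ ≠ Sum.inr G.start := fun h => ho (by rw [h])
        simp only [Option.elim_some, cnt_ne this]
  | @tail v₁ v₂ _ h1 ih =>
    have h2 := ih ((sum_le_of_pstep G hp h1).trans hv)
    have h3 : ∀ κ, v₂ κ ≤ w.length + 1 := fun κ =>
      ((Finset.single_le_sum (f := v₂) (fun _ _ => Nat.zero_le _) (Finset.mem_univ κ)).trans hv).trans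
        (Nat.le_succ _)
    obtain ⟨r, hr, h4⟩ := prog_complete G h1 h3 0
    refine h2.trans (ReflTransGen.head
      (MStep.sil Mode.derive Mode.derive (prog G r) _ (Or.inl ⟨r, hr, rfl⟩)) ?_)
    exact mreach_exec G zs Mode.derive h4

theorem sim_complete_check (w : List T) (i : ℕ) (hi : i ≤ w.length) :
    ReflTransGen (MStep G zs w)
      (Mode.check, [], fun o => o.elim 1 (cnt (w.map (Sum.inl : T → T ⊕ G.N))))
      (Mode.check, [], fun o => o.elim (i + 1) (cnt ((w.drop i).map (Sum.inl : T → T ⊕ G.N)))) := by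
  induction i with
  | zero => exact ReflTransGen.refl
  | succ i ih =>
    have hlt : i < w.length := hi
    refine (ih hlt.le).trans ?_
    have h1 : w.drop i = w[i] :: w.drop (i + 1) := List.drop_eq_getElem_cons hlt
    refine ReflTransGen.head (MStep.sil Mode.check Mode.check
      [Op.read w[i], Op.dec (Sum.inl w[i])] _ (Or.inl ⟨w[i], rfl⟩))
      (mreach_exec G zs Mode.check ?_)
    refine ⟨fun o => o.elim (i + 2) (cnt ((w.drop i).map (Sum.inl : T → T ⊕ G.N))), ?_,
      fun o => o.elim (i + 2) (cnt ((w.drop (i + 1)).map (Sum.inl : T → T ⊕ G.N))), ?_, rfl⟩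
    · exact run_read.2 ⟨⟨i, rfl, List.getElem?_eq_getElem hlt, rfl⟩, fun κ => rfl⟩
    · refine run_dec.2 ⟨?_, fun o ho => ?_⟩
      · simp only [Option.elim_some]
        rw [h1, List.map_cons, cnt_cons, cnt_self, Nat.add_comm]
      · cases o with
        | none => rfl
        | some κ =>
          have : κ ≠ Sum.inl w[i] := fun h => ho (by rw [h])
          simp only [Option.elim_some]
          rw [h1, List.map_cons, cnt_cons _ ((w.drop (i + 1)).map _), cnt_ne this, Nat.zero_add]

theorem sim_complete (hp : G.Propagating) [Fintype (T ⊕ G.N)] {w : List T}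
    (h : PReach G (cnt (w.map Sum.inl))) :
    ∃ p, ReflTransGen (MStep G zs w) (mstart G) (Mode.done, [], p) := by
  have h0 : ∑ κ, cnt (w.map (Sum.inl : T → T ⊕ G.N)) κ ≤ w.length := by
    rw [sum_cnt, List.length_map]
  have h1 := sim_complete_derive G zs hp h h0
  have h2 : ReflTransGen (MStep G zs w)
      (Mode.derive, [], fun o => o.elim 0 (cnt (w.map (Sum.inl : T → T ⊕ G.N))))
      (Mode.check, [], fun o => o.elim 1 (cnt (w.map (Sum.inl : T → T ⊕ G.N)))) := by
    refine ReflTransGen.head (MStep.sil Mode.derive Mode.check [Op.skip] _ (Or.inr rfl))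
      (mreach_exec G zs Mode.check ?_)
    exact ⟨fun o => o.elim 1 (cnt (w.map (Sum.inl : T → T ⊕ G.N))),
      run_skip.2 ⟨rfl, rfl, fun κ => rfl⟩, rfl⟩
  have h3 := sim_complete_check G zs w w.length le_rfl
  rw [List.drop_length] at h3
  have h4 : Exec w (Op.fin :: zs.map Op.zero)
      (fun o => o.elim (w.length + 1) (cnt (List.map (Sum.inl : T → T ⊕ G.N) [])))
      (fun o => o.elim (w.length + 1) (cnt (List.map (Sum.inl : T → T ⊕ G.N) []))) := by
    refine ⟨_, run_fin.2 ⟨le_rfl, rfl⟩, (exec_zeros G).2 ⟨rfl, fun κ _ => ?_⟩⟩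
    simp only [Option.elim_some, List.map_nil, cnt_nil]
  exact ⟨_, h1.trans (h2.trans (h3.trans (ReflTransGen.head
    (MStep.sil Mode.check Mode.done (Op.fin :: zs.map Op.zero) _ (Or.inr rfl))
    (mreach_exec G zs Mode.done h4))))⟩

end Sim

end Pool.Agent.SCG
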