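import Pool.Agent.SCG.Auto2

/-!
# From grammars to multihead automata, final form (helper52)
-/

set_option autoImplicit false

namespace Pool.Agent.SCG

open Pool.Agent.Heads Relation

section Final

variable {T : Type} (G : Grammar T) (zs : List (T ⊕ G.N)) (B : ℕ)

/-- the states: phase and pending operations -/
abbrev QB : Type := Mode × {l : List (Op (T ⊕ G.N) T) // l.length ≤ B}

variable {k : ℕ} (e : Option (T ⊕ G.N) ≃ Fin k)

/-- the automaton -/
noncomputable def aut [Finite T] (hB : 1 ≤ B) : FA T k where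
  Q := QB G B
  finQ := by
    have := G.finN
    have : Finite {l : List (Op (T ⊕ G.N) T) // l.length ≤ B} :=
      (List.finite_length_le (Op (T ⊕ G.N) T) B).to_subtype
    exact inferInstanceAs (Finite (Mode × {l : List (Op (T ⊕ G.N) T) // l.length ≤ B}))
  start := (Mode.derive, ⟨[Op.inc (Sum.inr G.start)], hB⟩)
  accept := {q | q.1 = Mode.done ∧ q.2.1 = []}
  δ := fun q x => {t | (∃ o : Op (T ⊕ G.N) T, q.2.1 = o :: t.1.2.1 ∧ t.1.1 = q.1 ∧
      o.ok (fun s => x (e s)) ∧ t.2 = fun i => o.dir (e.symm i)) ∨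
    (q.2.1 = [] ∧ (t.1.1, t.1.2.1) ∈ next G zs q.1 ∧ t.2 = fun _ => Dir.S)}

/-- the abstract configuration of a configuration of the automaton -/
def abs (c : QB G B × (Fin k → ℕ)) :
    Mode × List (Op (T ⊕ G.N) T) × (Option (T ⊕ G.N) → ℕ) := (c.1.1, c.1.2.1, fun s => c.2 (e s))

theorem aut_step [Finite T] (hB : 1 ≤ B) {w : List T} {c c' : QB G B × (Fin k → ℕ)}
    (h : (aut G zs B e hB).Step w c c') : MStep G zs w (abs G B e c) (abs G B e c') := by
  obtain ⟨⟨m, l, hl⟩, pos⟩ := c
  obtain ⟨⟨⟨m', l', hl'⟩, d⟩, ht, rfl⟩ := h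
  rcases ht with ⟨o, h1, h2, h3, h4⟩ | ⟨h1, h2, h3⟩
  · have h1' : l = o :: l' := h1
    have h2' : m' = m := h2
    have h4' : d = fun i => o.dir (e.symm i) := h4
    subst h1' h2' h4'
    refine MStep.op _ o l' _ _ ⟨h3, ?_⟩
    funext s
    show move (w.length + 1) (pos (e s)) (o.dir (e.symm (e s))) = _
    rw [Equiv.symm_apply_apply]
  · have h1' : l = [] := h1
    have h3' : d = fun _ => Dir.S := h3
    subst h1' h3'
    exact MStep.sil m m' l' (fun s => pos (e s)) h2

theorem step_aut [Finite T] (hB : 1 ≤ B) (hzB : zs.length + 1 ≤ B) (h2B : 2 ≤ B)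
    (hrB : ∀ r ∈ G.rules, (prog G r).length ≤ B) {w : List T} {c : QB G B × (Fin k → ℕ)}
    {d : Mode × List (Op (T ⊕ G.N) T) × (Option (T ⊕ G.N) → ℕ)}
    (h : MStep G zs w (abs G B e c) d) :
    ∃ c', (aut G zs B e hB).Step w c c' ∧ abs G B e c' = d := by
  obtain ⟨⟨m, l, hl⟩, pos⟩ := c
  obtain ⟨m', l', p'⟩ := d
  have hg : ∀ a b, MStep G zs w a b → a = (m, l, fun s => pos (e s)) → b = (m', l', p') →
      ∃ c', (aut G zs B e hB).Step w ((m, ⟨l, hl⟩), pos) c' ∧ abs G B e c' = (m', l', p') := by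
    intro a b hab ha hb
    cases hab with
    | op m₁ o l₁ p₁ p₁' h1 =>
      simp only [Prod.mk.injEq] at ha hb
      obtain ⟨rfl, rfl, rfl⟩ := ha
      obtain ⟨rfl, rfl, rfl⟩ := hb
      obtain ⟨h3, h4⟩ := h1
      have hl' : l₁.length ≤ B := by
        simp only [List.length_cons] at hl
        omega
      refine ⟨((m₁, ⟨l₁, hl'⟩), fun i => move (w.length + 1) (pos i) (o.dir (e.symm i))),
        ⟨((m₁, ⟨l₁, hl'⟩), fun i => o.dir (e.symm i)), Or.inl ⟨o, rfl, rfl, h3, rfl⟩, rfl⟩, ?_⟩
      unfold abs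
      rw [h4]
      simp only [Equiv.symm_apply_apply]
    | sil m₁ m₁' l₁' p₁ h1 =>
      simp only [Prod.mk.injEq] at ha hb
      obtain ⟨rfl, rfl, rfl⟩ := ha
      obtain ⟨rfl, rfl, rfl⟩ := hb
      have hl' : l₁'.length ≤ B := by
        cases m₁ with
        | derive =>
          rcases h1 with ⟨r, hr, h4⟩ | h4
          · obtain ⟨-, rfl⟩ := Prod.mk.inj h4
            exact hrB r hr
          · obtain ⟨-, rfl⟩ := Prod.mk.inj h4
            exact hB
        | check =>
          rcases h1 with ⟨a, h4⟩ | h4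
          · obtain ⟨-, rfl⟩ := Prod.mk.inj h4
            exact h2B
          · obtain ⟨-, rfl⟩ := Prod.mk.inj h4
            simp only [List.length_cons, List.length_map]
            exact hzB
        | done => exact absurd h1 (by simp [next])
      refine ⟨((m₁', ⟨l₁', hl'⟩), fun i => move (w.length + 1) (pos i) Dir.S),
        ⟨((m₁', ⟨l₁', hl'⟩), fun _ => Dir.S), Or.inr ⟨rfl, h1, rfl⟩, rfl⟩, ?_⟩
      rfl
  exact hg _ _ h rfl rfl

theorem aut_lang (hp : G.Propagating) (hd : G.Degree 1 1) [Finite T] (hB : 1 ≤ B)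
    (hzB : zs.length + 1 ≤ B) (h2B : 2 ≤ B) (hrB : ∀ r ∈ G.rules, (prog G r).length ≤ B)
    (hzs : ∀ κ, κ ∈ zs) : (aut G zs B e hB).lang = comm G.lang := by
  have := G.finN
  have := Fintype.ofFinite (T ⊕ G.N)
  ext w
  rw [mem_comm_iff G hd]
  have h0 : abs G B e ((aut G zs B e hB).start, fun _ => 0) = mstart G := rfl
  constructor
  · rintro ⟨c, hc, h1, h2⟩
    have h3 : ReflTransGen (MStep G zs w) (mstart G) (abs G B e c) := by
      clear h1 h2
      induction hc with
      | refl => exact ReflTransGen.refl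
      | tail _ h5 ih => exact ih.tail (aut_step G zs B e hB h5)
    obtain ⟨⟨m, l, hl⟩, pos⟩ := c
    have h1' : m = Mode.done := h1
    have h2' : l = [] := h2
    subst h1' h2'
    exact sim_sound G zs hzs h3
  · intro h
    obtain ⟨p, hp1⟩ := sim_complete G zs hp h
    have key : ∀ d, ReflTransGen (MStep G zs w) (mstart G) d →
        ∃ c, ReflTransGen ((aut G zs B e hB).Step w)
          ((aut G zs B e hB).start, fun _ => 0) c ∧ abs G B e c = d := by
      intro d hd1
      induction hd1 with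
      | refl => exact ⟨_, ReflTransGen.refl, h0⟩
      | tail _ h5 ih =>
        obtain ⟨c, hc, rfl⟩ := ih
        obtain ⟨c', hc', h6⟩ := step_aut G zs B e hB hzB h2B hrB h5
        exact ⟨c', hc.tail hc', h6⟩
    obtain ⟨c, hc, h5⟩ := key _ hp1
    have h6 : c.1.1 = Mode.done := congrArg Prod.fst h5
    have h7 : c.1.2.1 = [] := congrArg (fun x => x.2.1) h5
    exact ⟨c, hc, h6, h7⟩

end Final

/-- **From grammars to automata.** The commutative closure of the language of a propagating
semi-conditional grammar of degree `(1, 1)` is accepted by a two-way nondeterministic multihead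
finite automaton. -/
theorem exists_heads {T : Type} [Finite T] (G : Grammar T) (hp : G.Propagating)
    (hd : G.Degree 1 1) : ∃ (k : ℕ) (M : FA T k), M.lang = comm G.lang := by
  have := G.finN
  have := Fintype.ofFinite (T ⊕ G.N)
  obtain ⟨b, hb⟩ := (G.finRules.image fun r => (prog G r).length).bddAbove
  have hb' : ∀ r ∈ G.rules, (prog G r).length ≤ b := fun r hr => hb ⟨r, hr, rfl⟩
  let zs : List (T ⊕ G.N) := Finset.univ.toList
  have hzs : ∀ κ, κ ∈ zs := fun κ => by simp [zs]
  obtain ⟨k, ⟨e⟩⟩ := Finite.exists_equiv_fin (Option (T ⊕ G.N))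
  refine ⟨k, aut G zs (max b (zs.length + 2)) e (by omega), ?_⟩
  exact aut_lang G zs _ e hp hd (by omega) (by omega) (by omega)
    (fun r hr => (hb' r hr).trans (le_max_left _ _)) hzs

end Pool.Agent.SCG
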