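import Mathlib

/-!
Definitions for problem MP_84f0c5_lc: semi-conditional grammars (helper52).
-/

set_option autoImplicit false

namespace Pool.Agent.SCG

/-- A rule `(A → x, α, β)` of a semi-conditional grammar with terminal alphabet `T` and set of
nonterminals `N`; the total alphabet is `T ⊕ N`, and `none` stands for the symbol `0` (no
condition). -/
structure Rule (T N : Type) where
  lhs : N
  rhs : List (T ⊕ N)
  perm : Option (List (T ⊕ N))
  forb : Option (List (T ⊕ N))

/-- A semi-conditional grammar with terminal alphabet `T`: a finite set of nonterminals, a start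
symbol, a finite set of rules; the conditions are nonempty words or `0`. -/
structure Grammar (T : Type) where
  N : Type
  finN : Finite N
  start : N
  rules : Set (Rule T N)
  finRules : rules.Finite
  perm_ne : ∀ r ∈ rules, r.perm ≠ some []
  forb_ne : ∀ r ∈ rules, r.forb ≠ some []

namespace Grammar

variable {T : Type} (G : Grammar T)

/-- `u ⇒ v`: some rule `(A → x, α, β)` with `u = u₁ A u₂`, `v = u₁ x u₂`, such that `α` (if it is
not `0`) is a factor of `u` and `β` (if it is not `0`) is not a factor of `u`. -/
def Step (u v : List (T ⊕ G.N)) : Prop :=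
  ∃ r ∈ G.rules, ∃ u₁ u₂ : List (T ⊕ G.N),
    u = u₁ ++ Sum.inr r.lhs :: u₂ ∧ v = u₁ ++ r.rhs ++ u₂ ∧
    (∀ α, r.perm = some α → α <:+: u) ∧ (∀ β, r.forb = some β → ¬ β <:+: u)

/-- `G.Derives m u v`: `v` is derived from `u` in exactly `m` steps. -/
def Derives : ℕ → List (T ⊕ G.N) → List (T ⊕ G.N) → Prop
  | 0, u, v => u = v
  | m + 1, u, v => ∃ x, G.Step u x ∧ Derives m x v

/-- `w` has a derivation of exactly `m` steps from the start symbol. -/
def Gen (m : ℕ) (w : List T) : Prop := G.Derives m [Sum.inr G.start] (w.map Sum.inl)

/-- The language `L(G)`. -/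
def lang : Set (List T) := {w | ∃ m, G.Gen m w}

/-- `G` has degree `(i, j)`. -/
def Degree (i j : ℕ) : Prop :=
  ∀ r ∈ G.rules, (∀ α, r.perm = some α → α.length ≤ i) ∧ (∀ β, r.forb = some β → β.length ≤ j)

/-- `G` is simple: no rule has both a permitting and a forbidding condition. -/
def Simple : Prop := ∀ r ∈ G.rules, r.perm = none ∨ r.forb = none

/-- `G` is propagating: no rule has the empty right-hand side. -/
def Propagating : Prop := ∀ r ∈ G.rules, r.rhs ≠ []

end Grammar

/-- The commutative closure of a language: all rearrangements of its words. -/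
def comm {T : Type} (L : Set (List T)) : Set (List T) := {w | ∃ w' ∈ L, w'.Perm w}

end Pool.Agent.SCG
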