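import Pool.Agent.SCG.TP4
import Pool.Agent.Lib_helper16.Heads.Defs

/-!
# From multihead automata to token programs (helper52): sorted words and tokens
-/

set_option autoImplicit false

namespace Pool.Agent.SCG

open Pool.Agent.Heads Relation

/-- the cell of a head: left endmarker, first letter, another letter, right endmarker -/
inductive Sta (T : Type) where
  | left : Sta T
  | first : Sta T
  | on : T → Sta T
  | right : Sta T

instance {T : Type} [Finite T] : Finite (Sta T) := by
  let f : Sta T → Fin 3 ⊕ T := fun o => match o with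
    | Sta.left => Sum.inl 0
    | Sta.first => Sum.inl 1
    | Sta.on a => Sum.inr a
    | Sta.right => Sum.inl 2
  refine Finite.of_injective f fun a b h => ?_
  cases a <;> cases b <;> simp [f] at h <;> first | rfl | rw [h]

instance finDir : Finite Dir := by
  let f : Dir → Fin 3 := fun o => match o with
    | Dir.L => 0
    | Dir.S => 1
    | Dir.R => 2
  refine Finite.of_injective f fun a b h => ?_
  cases a <;> cases b <;> simp [f] at h <;> rfl

/-- phases -/
inductive Ph (Q : Type) (k : ℕ) where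
  | main : Q → Ph Q k
  | mv : Q → (Fin k → Dir) → Fin (k + 1) → Ph Q k
  | set : Q → (Fin k → Dir) → Fin k → Ph Q k

instance {Q : Type} [Finite Q] {k : ℕ} : Finite (Ph Q k) := by
  let f : Ph Q k → Q ⊕ (Q × (Fin k → Dir) × Fin (k + 1)) ⊕ (Q × (Fin k → Dir) × Fin k) :=
    fun o => match o with
    | Ph.main q => Sum.inl q
    | Ph.mv q d j => Sum.inr (Sum.inl (q, d, j))
    | Ph.set q d j => Sum.inr (Sum.inr (q, d, j))
  refine Finite.of_injective f fun a b h => ?_
  cases a <;> cases b <;> simp [f] at h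
  · rw [h]
  · rw [h.1, h.2.1, h.2.2]
  · rw [h.1, h.2.1, h.2.2]

section Words

variable {T : Type}

/-- the scanned symbol -/
def scan (a : T) : Sta T → Sym T
  | Sta.left => Sym.left
  | Sta.first => Sym.letter a
  | Sta.on b => Sym.letter b
  | Sta.right => Sym.right

/-- a letter or the right endmarker -/
def ofO : Option T → Sta T
  | some b => Sta.on b
  | none => Sta.right

/-- the status of a head in cell `p` of the word `a :: s` -/
def stat (s : List T) : ℕ → Sta T
  | 0 => Sta.left
  | 1 => Sta.first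
  | p + 2 => ofO s[p]?

theorem stat_two (s : List T) (p : ℕ) : stat s (p + 2) = ofO s[p]? := rfl

theorem tape_two (a : T) (s : List T) (p : ℕ) : tape (a :: s) (p + 2) = match s[p]? with
    | some b => Sym.letter b
    | none => Sym.right := rfl

theorem tape_stat (a : T) (s : List T) (p : ℕ) : tape (a :: s) p = scan a (stat s p) := by
  match p with
  | 0 => rfl
  | 1 => rfl
  | p + 2 =>
    rw [stat_two, tape_two]
    cases s[p]? <;> rfl

theorem stat_on {s : List T} {n : ℕ} {b : T} (h : s[n]? = some b) : stat s (n + 2) = Sta.on b := by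
  rw [stat_two, h]
  rfl

theorem stat_right {s : List T} : stat s (s.length + 2) = Sta.right := by
  rw [stat_two, List.getElem?_eq_none le_rfl]
  rfl

theorem stat_left_iff {s : List T} {p : ℕ} : stat s p = Sta.left ↔ p = 0 := by
  match p with
  | 0 => simp [stat]
  | 1 => simp [stat]
  | p + 2 =>
    rw [stat_two]
    cases s[p]? <;> simp [ofO]

theorem stat_first_iff {s : List T} {p : ℕ} : stat s p = Sta.first ↔ p = 1 := by
  match p with
  | 0 => simp [stat]
  | 1 => simp [stat]
  | p + 2 =>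
    rw [stat_two]
    cases s[p]? <;> simp [ofO]

theorem stat_on_iff {s : List T} {p : ℕ} {b : T} :
    stat s p = Sta.on b ↔ ∃ n, p = n + 2 ∧ s[n]? = some b := by
  match p with
  | 0 => simp [stat]
  | 1 => simp [stat]
  | p + 2 =>
    rw [stat_two]
    constructor
    · intro h
      refine ⟨p, rfl, ?_⟩
      cases h1 : s[p]? with
      | none => rw [h1] at h; simp [ofO] at h
      | some c => rw [h1] at h; simpa [ofO] using h
    · rintro ⟨n, h1, h2⟩
      have : p = n := by omega
      rw [this, h2]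
      rfl

theorem stat_right_iff {s : List T} {p : ℕ} (hp : p ≤ s.length + 2) :
    stat s p = Sta.right ↔ p = s.length + 2 := by
  match p with
  | 0 => simp [stat]
  | 1 => simp [stat]
  | p + 2 =>
    rw [stat_two]
    constructor
    · intro h
      cases h1 : s[p]? with
      | none =>
        have := List.getElem?_eq_none_iff.1 h1
        omega
      | some c => rw [h1] at h; simp [ofO] at h
    · intro h
      have : p = s.length := by omega
      rw [this, List.getElem?_eq_none le_rfl]
      rfl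

theorem take_succ' {s : List T} {n : ℕ} {b : T} (h : s[n]? = some b) :
    s.take (n + 1) = s.take n ++ [b] := by
  rw [List.take_add_one, h]
  rfl

theorem drop_succ' {s : List T} {n : ℕ} {b : T} (h : s[n]? = some b) :
    s.drop n = b :: s.drop (n + 1) := by
  obtain ⟨h1, h2⟩ := List.getElem?_eq_some_iff.1 h
  rw [List.drop_eq_getElem_cons h1, h2]

theorem head_le [LinearOrder T] {s : List T} (hs : s.Pairwise (· ≤ ·)) {n : ℕ} {b c : T}
    (h : s[n]? = some b) (hc : c ∈ s.drop n) : b ≤ c := by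
  have h1 : (s.drop n).Pairwise (· ≤ ·) := hs.sublist (List.drop_sublist n s)
  rw [drop_succ' h] at h1 hc
  rcases List.mem_cons.1 hc with h2 | h2
  · rw [h2]
  · exact (List.pairwise_cons.1 h1).1 c h2

theorem le_last [LinearOrder T] {s : List T} (hs : s.Pairwise (· ≤ ·)) {n : ℕ} {b c : T}
    (h : s[n]? = some b) (hc : c ∈ s.take (n + 1)) : c ≤ b := by
  have h1 : (s.take (n + 1)).Pairwise (· ≤ ·) := hs.sublist (List.take_sublist _ s)
  rw [take_succ' h] at h1 hc
  rcases List.mem_append.1 hc with h2 | h2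
  · exact (List.pairwise_append.1 h1).2.2 c h2 b (by simp)
  · rw [List.mem_singleton.1 h2]

end Words

section Toks

variable {T : Type} {k : ℕ}

/-- the letters of the flagged tokens -/
def fg (j : Fin k) (l : List (T × (Fin k → Bool))) : List T :=
  (l.filter fun x => x.2 j).map Prod.fst

/-- the letters of the tokens which are not flagged -/
def uf (j : Fin k) (l : List (T × (Fin k → Bool))) : List T :=
  (l.filter fun x => !x.2 j).map Prod.fst

theorem mem_fg {j : Fin k} {l : List (T × (Fin k → Bool))} {b : T} :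
    b ∈ fg j l ↔ ∃ x ∈ l, x.2 j = true ∧ x.1 = b := by
  unfold fg
  simp only [List.mem_map, List.mem_filter]
  exact ⟨fun ⟨x, h1, h2⟩ => ⟨x, h1.1, h1.2, h2⟩, fun ⟨x, h1, h2, h3⟩ => ⟨x, ⟨h1, h2⟩, h3⟩⟩

theorem mem_uf {j : Fin k} {l : List (T × (Fin k → Bool))} {b : T} :
    b ∈ uf j l ↔ ∃ x ∈ l, x.2 j = false ∧ x.1 = b := by
  unfold uf
  simp only [List.mem_map, List.mem_filter, Bool.not_eq_eq_eq_not]
  constructor
  · rintro ⟨x, h1, h2⟩
    exact ⟨x, h1.1, by simpa using h1.2, h2⟩
  · rintro ⟨x, h1, h2, h3⟩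
    exact ⟨x, ⟨h1, by simpa using h2⟩, h3⟩

theorem fg_mid (j : Fin k) (l₁ l₂ : List (T × (Fin k → Bool))) (x : T × (Fin k → Bool)) :
    fg j (l₁ ++ x :: l₂) = fg j l₁ ++ (if x.2 j then [x.1] else []) ++ fg j l₂ := by
  unfold fg
  rw [List.filter_append, List.filter_cons]
  split_ifs <;> simp

theorem uf_mid (j : Fin k) (l₁ l₂ : List (T × (Fin k → Bool))) (x : T × (Fin k → Bool)) :
    uf j (l₁ ++ x :: l₂) = uf j l₁ ++ (if x.2 j then [] else [x.1]) ++ uf j l₂ := by
  unfold uf
  rw [List.filter_append, List.filter_cons]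
  cases h : x.2 j <;> simp

/-- the flags of the head `j` are right for the cell `p` -/
def Rel (s : List T) (j : Fin k) (p : ℕ) (l : List (T × (Fin k → Bool))) : Prop :=
  (fg j l).Perm (s.take (p - 1)) ∧ (uf j l).Perm (s.drop (p - 1))

variable {s : List T} {j : Fin k} {l l₁ l₂ : List (T × (Fin k → Bool))} {b : T}
  {F F' : Fin k → Bool}

theorem rel_other {i : Fin k} {p : ℕ} (h : Rel s i p (l₁ ++ (b, F) :: l₂)) (hF : F' i = F i) :
    Rel s i p (l₁ ++ (b, F') :: l₂) := by
  unfold Rel at h ⊢
  rw [fg_mid, uf_mid] at h ⊢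
  simp only [hF]
  exact h

theorem rel_adv {n : ℕ} (h : Rel s j (n + 1) (l₁ ++ (b, F) :: l₂)) (hb : s[n]? = some b)
    (hF : F j = false) (hF' : F' j = true) : Rel s j (n + 2) (l₁ ++ (b, F') :: l₂) := by
  unfold Rel at h ⊢
  rw [fg_mid, uf_mid] at h ⊢
  simp only [hF, hF', Nat.add_sub_cancel, Bool.false_eq_true, if_false, if_true,
    show n + 2 - 1 = n + 1 from rfl] at h ⊢
  rw [take_succ' hb]
  constructor
  · rw [List.append_nil] at h
    refine List.Perm.trans ?_ (List.perm_append_comm (l₁ := [b]))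
    refine List.Perm.trans ?_ (h.1.append_left [b])
    simp only [List.append_assoc, List.singleton_append]
    exact List.perm_middle
  · have h1 := h.2
    rw [drop_succ' hb] at h1
    rw [List.append_nil]
    refine List.Perm.cons_inv (a := b) (List.Perm.trans ?_ h1)
    simp only [List.append_assoc, List.singleton_append]
    exact List.perm_middle.symm

theorem rel_back {n : ℕ} (h : Rel s j (n + 2) (l₁ ++ (b, F) :: l₂)) (hb : s[n]? = some b)
    (hF : F j = true) (hF' : F' j = false) : Rel s j (n + 1) (l₁ ++ (b, F') :: l₂) := by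
  unfold Rel at h ⊢
  rw [fg_mid, uf_mid] at h ⊢
  simp only [hF, hF', Nat.add_sub_cancel, Bool.false_eq_true, if_false, if_true,
    show n + 2 - 1 = n + 1 from rfl] at h ⊢
  constructor
  · have h1 := h.1
    rw [take_succ' hb] at h1
    rw [List.append_nil]
    refine List.Perm.cons_inv (a := b) (List.Perm.trans ?_ (h1.trans List.perm_append_comm))
    simp only [List.append_assoc, List.singleton_append]
    exact List.perm_middle.symm
  · have h1 := h.2
    rw [drop_succ' hb]
    rw [List.append_nil] at h1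
    refine List.Perm.trans ?_ (h1.cons b)
    simp only [List.append_assoc, List.singleton_append]
    exact List.perm_middle

/-- the last cell and the one before it -/
theorem rel_end (h : Rel s j (s.length + 2) l) : Rel s j (s.length + 1) l := by
  unfold Rel at h ⊢
  rw [show s.length + 2 - 1 = s.length + 1 from rfl, List.take_of_length_le (by omega),
    List.drop_of_length_le (by omega)] at h
  rw [Nat.add_sub_cancel, List.take_length, List.drop_length]
  exact h

theorem rel_end' (h : Rel s j (s.length + 1) l) : Rel s j (s.length + 2) l := by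
  unfold Rel at h ⊢
  rw [show s.length + 2 - 1 = s.length + 1 from rfl, List.take_of_length_le (by omega),
    List.drop_of_length_le (by omega)]
  rw [Nat.add_sub_cancel, List.take_length, List.drop_length] at h
  exact h

theorem rel_zero_iff : Rel s j 0 l ↔ Rel s j 1 l := Iff.rfl

variable [LinearOrder T] (hs : s.Pairwise (· ≤ ·))
include hs

theorem adv_sound {n : ℕ} (h : Rel s j (n + 1) l) (hb : (b, F) ∈ l) (hF : F j = false)
    (hN : ∀ x ∈ l, ¬ (x.2 j = false ∧ x.1 < b)) : s[n]? = some b := by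
  have h1 : b ∈ s.drop n := h.2.mem_iff.1 (mem_uf.2 ⟨(b, F), hb, hF, rfl⟩)
  have h2 : n < s.length := by
    by_contra h3
    rw [List.drop_of_length_le (by omega)] at h1
    simp at h1
  have h3 : s[n]? = some s[n] := List.getElem?_eq_getElem h2
  have h4 : s[n] ∈ uf j l := h.2.mem_iff.2 (by
    show s[n] ∈ s.drop n
    rw [drop_succ' h3]
    exact List.mem_cons_self)
  obtain ⟨x, hx, hx1, hx2⟩ := mem_uf.1 h4
  have h5 := hN x hx
  rw [hx2] at h5
  have h6 : b ≤ s[n] := not_lt.1 fun h6 => h5 ⟨hx1, h6⟩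
  have h7 : s[n] ≤ b := head_le hs h3 h1
  rw [h3, le_antisymm h7 h6]

theorem adv_complete {n : ℕ} (h : Rel s j (n + 1) l) (hb : s[n]? = some b) :
    (∃ F, (b, F) ∈ l ∧ F j = false) ∧ ∀ x ∈ l, ¬ (x.2 j = false ∧ x.1 < b) := by
  have h4 : b ∈ uf j l := h.2.mem_iff.2 (by
    show b ∈ s.drop n
    rw [drop_succ' hb]
    simp)
  obtain ⟨x, hx, hx1, hx2⟩ := mem_uf.1 h4
  refine ⟨⟨x.2, ?_, hx1⟩, fun y hy hy1 => ?_⟩
  · rw [← hx2]
    exact hx
  · have h5 : y.1 ∈ s.drop n := h.2.mem_iff.1 (mem_uf.2 ⟨y, hy, hy1.1, rfl⟩)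
    exact absurd (head_le hs hb h5) (not_le.2 hy1.2)

theorem on_sound {n : ℕ} (h : Rel s j (n + 1) l) (hn : n ≤ s.length) (hb : (b, F) ∈ l)
    (hF : F j = true) (hN : ∀ x ∈ l, ¬ (x.2 j = true ∧ b < x.1)) :
    ∃ n', n = n' + 1 ∧ s[n']? = some b := by
  have h1 : b ∈ s.take n := h.1.mem_iff.1 (mem_fg.2 ⟨(b, F), hb, hF, rfl⟩)
  cases n with
  | zero => simp at h1
  | succ n =>
    refine ⟨n, rfl, ?_⟩
    have h3 : s[n]? = some s[n] := List.getElem?_eq_getElem (by omega)
    have h4 : s[n] ∈ fg j l := h.1.mem_iff.2 (by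
      show s[n] ∈ s.take (n + 1)
      rw [take_succ' h3]
      exact List.mem_append_right _ (List.mem_singleton_self _))
    obtain ⟨x, hx, hx1, hx2⟩ := mem_fg.1 h4
    have h5 := hN x hx
    rw [hx2] at h5
    have h6 : s[n] ≤ b := not_lt.1 fun h6 => h5 ⟨hx1, h6⟩
    have h7 : b ≤ s[n] := le_last hs h3 h1
    rw [h3, le_antisymm h6 h7]

theorem on_complete {n : ℕ} (h : Rel s j (n + 2) l) (hb : s[n]? = some b) :
    (∃ F, (b, F) ∈ l ∧ F j = true) ∧ ∀ x ∈ l, ¬ (x.2 j = true ∧ b < x.1) := by
  have h4 : b ∈ fg j l := h.1.mem_iff.2 (by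
    show b ∈ s.take (n + 1)
    rw [take_succ' hb]
    simp)
  obtain ⟨x, hx, hx1, hx2⟩ := mem_fg.1 h4
  refine ⟨⟨x.2, ?_, hx1⟩, fun y hy hy1 => ?_⟩
  · rw [← hx2]
    exact hx
  · have h5 : y.1 ∈ s.take (n + 1) := h.1.mem_iff.1 (mem_fg.2 ⟨y, hy, hy1.1, rfl⟩)
    exact absurd (le_last hs hb h5) (not_le.2 hy1.2)

omit hs in
theorem end_iff {n : ℕ} (h : Rel s j (n + 1) l) : (∀ x ∈ l, x.2 j ≠ false) ↔ s.length ≤ n := by
  constructor
  · intro h1
    by_contra h2
    have h3 : s[n]? = some s[n] := List.getElem?_eq_getElem (by omega)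
    have h4 : s[n] ∈ uf j l := h.2.mem_iff.2 (by
      show s[n] ∈ s.drop n
      rw [drop_succ' h3]
      exact List.mem_cons_self)
    obtain ⟨x, hx, hx1, -⟩ := mem_uf.1 h4
    exact h1 x hx hx1
  · intro h1 x hx hx1
    have h2 : x.1 ∈ s.drop n := h.2.mem_iff.1 (mem_uf.2 ⟨x, hx, hx1, rfl⟩)
    rw [List.drop_of_length_le h1] at h2
    simp at h2

omit hs in
theorem first_iff {n : ℕ} (h : Rel s j (n + 1) l) (hn : n ≤ s.length) :
    (∀ x ∈ l, x.2 j ≠ true) ↔ n = 0 := by
  constructor
  · intro h1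
    by_contra h2
    obtain ⟨n', rfl⟩ := Nat.exists_eq_succ_of_ne_zero h2
    have h3 : s[n']? = some s[n'] := List.getElem?_eq_getElem (by omega)
    have h4 : s[n'] ∈ fg j l := h.1.mem_iff.2 (by
      show s[n'] ∈ s.take (n' + 1)
      rw [take_succ' h3]
      exact List.mem_append_right _ (List.mem_singleton_self _))
    obtain ⟨x, hx, hx1, -⟩ := mem_fg.1 h4
    exact h1 x hx hx1
  · rintro rfl x hx hx1
    have h2 : x.1 ∈ s.take 0 := h.1.mem_iff.1 (mem_fg.2 ⟨x, hx, hx1, rfl⟩)
    simp at h2

end Toks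

end Pool.Agent.SCG
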