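import Pool.Agent.SCG.HTP

/-!
# From multihead automata to token programs (helper52): the program
-/

set_option autoImplicit false
set_option linter.unusedSectionVars false

namespace Pool.Agent.SCG

open Pool.Agent.Heads Relation Function

section Prog

variable {T : Type} [LinearOrder T] {k : ℕ} (M : FA T k)

/-- the control states -/
abbrev Ctl : Type := T × (Fin k → Sta T) × Ph M.Q k

/-- the instructions -/
inductive Ins : Ctl M → Ctl M → Set (T × (Fin k → Bool)) →
    Option ((T × (Fin k → Bool)) × (T × (Fin k → Bool))) → Prop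
  | go (a : T) (st : Fin k → Sta T) (q q' : M.Q) (d : Fin k → Dir)
      (h : (q', d) ∈ M.δ q (fun i => scan a (st i))) :
      Ins (a, st, Ph.main q) (a, st, Ph.mv q' d 0) ∅ none
  | done (a : T) (st : Fin k → Sta T) (q : M.Q) (d : Fin k → Dir) :
      Ins (a, st, Ph.mv q d (Fin.last k)) (a, st, Ph.main q) ∅ none
  | stay (a : T) (st : Fin k → Sta T) (q : M.Q) (d : Fin k → Dir) (j : Fin k) (h : d j = Dir.S) :
      Ins (a, st, Ph.mv q d j.castSucc) (a, st, Ph.mv q d j.succ) ∅ none
  | rl (a : T) (st : Fin k → Sta T) (q : M.Q) (d : Fin k → Dir) (j : Fin k) (h : d j = Dir.R)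
      (h1 : st j = Sta.left) :
      Ins (a, st, Ph.mv q d j.castSucc) (a, update st j Sta.first, Ph.mv q d j.succ) ∅ none
  | rr (a : T) (st : Fin k → Sta T) (q : M.Q) (d : Fin k → Dir) (j : Fin k) (h : d j = Dir.R)
      (h1 : st j = Sta.right) :
      Ins (a, st, Ph.mv q d j.castSucc) (a, st, Ph.mv q d j.succ) ∅ none
  | ra (a : T) (st : Fin k → Sta T) (q : M.Q) (d : Fin k → Dir) (j : Fin k) (b : T)
      (F : Fin k → Bool) (h : d j = Dir.R) (h1 : st j ≠ Sta.left) (h2 : st j ≠ Sta.right)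
      (hF : F j = false) :
      Ins (a, st, Ph.mv q d j.castSucc) (a, update st j (Sta.on b), Ph.mv q d j.succ)
        {x | x.2 j = false ∧ x.1 < b} (some ((b, F), (b, update F j true)))
  | re (a : T) (st : Fin k → Sta T) (q : M.Q) (d : Fin k → Dir) (j : Fin k) (h : d j = Dir.R)
      (h1 : st j ≠ Sta.left) (h2 : st j ≠ Sta.right) :
      Ins (a, st, Ph.mv q d j.castSucc) (a, update st j Sta.right, Ph.mv q d j.succ)
        {x | x.2 j = false} none
  | ll (a : T) (st : Fin k → Sta T) (q : M.Q) (d : Fin k → Dir) (j : Fin k) (h : d j = Dir.L)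
      (h1 : st j = Sta.left ∨ st j = Sta.first) :
      Ins (a, st, Ph.mv q d j.castSucc) (a, update st j Sta.left, Ph.mv q d j.succ) ∅ none
  | lr (a : T) (st : Fin k → Sta T) (q : M.Q) (d : Fin k → Dir) (j : Fin k) (h : d j = Dir.L)
      (h1 : st j = Sta.right) :
      Ins (a, st, Ph.mv q d j.castSucc) (a, st, Ph.set q d j) ∅ none
  | la (a : T) (st : Fin k → Sta T) (q : M.Q) (d : Fin k → Dir) (j : Fin k) (b : T)
      (F : Fin k → Bool) (h : d j = Dir.L) (h1 : st j = Sta.on b) (hF : F j = true) :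
      Ins (a, st, Ph.mv q d j.castSucc) (a, st, Ph.set q d j) ∅
        (some ((b, F), (b, update F j false)))
  | sf (a : T) (st : Fin k → Sta T) (q : M.Q) (d : Fin k → Dir) (j : Fin k) :
      Ins (a, st, Ph.set q d j) (a, update st j Sta.first, Ph.mv q d j.succ)
        {x | x.2 j = true} none
  | so (a : T) (st : Fin k → Sta T) (q : M.Q) (d : Fin k → Dir) (j : Fin k) (b : T)
      (F : Fin k → Bool) (hF : F j = true) :
      Ins (a, st, Ph.set q d j) (a, update st j (Sta.on b), Ph.mv q d j.succ)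
        {x | x.2 j = true ∧ b < x.1} (some ((b, F), (b, F)))

/-- the token program of a multihead automaton -/
def hprog [Finite T] : TP T where
  C := Ctl M
  X := T × (Fin k → Bool)
  I := {t : Ctl M × Ctl M × Set (T × (Fin k → Bool)) ×
    Option ((T × (Fin k → Bool)) × (T × (Fin k → Bool))) // Ins M t.1 t.2.1 t.2.2.1 t.2.2.2}
  finC := by
    have := M.finQ
    infer_instance
  finX := inferInstance
  finI := by
    have := M.finQ
    infer_instance
  lt := Prod.fst
  ini a := (a, fun _ => false)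
  lt_ini _ := rfl
  st a := (a, fun _ => Sta.left, Ph.main M.start)
  fl c := c.1
  fl_st _ := rfl
  src i := i.1.1
  dst i := i.1.2.1
  fl_eq := by
    rintro ⟨⟨c, c', N, ch⟩, h⟩
    cases h <;> rfl
  N i := i.1.2.2.1
  ch i := i.1.2.2.2
  lt_eq := by
    rintro ⟨⟨c, c', N, ch⟩, h⟩ x y h1
    have h1' : ch = some (x, y) := h1
    cases h <;> simp at h1' <;> (rw [← h1'.1, ← h1'.2])
  acc := {c | ∃ q ∈ M.accept, c.2.2 = Ph.main q}

theorem step_iff [Finite T] {c c' : Ctl M} {l l' : List (T × (Fin k → Bool))} :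
    (hprog M).Step (c, l) (c', l') ↔ ∃ N ch, Ins M c c' N ch ∧ (∀ x ∈ l, x ∉ N) ∧
      ((ch = none ∧ l' = l) ∨ ∃ x y, ch = some (x, y) ∧ ∃ l₁ l₂, l = l₁ ++ x :: l₂ ∧
        l' = l₁ ++ y :: l₂) := by
  constructor
  · rintro ⟨⟨⟨c₀, c₀', N, ch⟩, h⟩, rfl, rfl, h3, h4⟩
    exact ⟨N, ch, h, h3, h4⟩
  · rintro ⟨N, ch, h, h3, h4⟩
    exact ⟨⟨(c, c', N, ch), h⟩, rfl, rfl, h3, h4⟩

/-! ### Runs of the automaton, head by head -/

variable (a : T) (s : List T)

/-- reachable configurations -/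
def MR (q : M.Q) (pos : Fin k → ℕ) : Prop :=
  ReflTransGen (M.Step (a :: s)) (M.start, fun _ => 0) (q, pos)

/-- the heads `i < j` have been moved -/
def MV (q : M.Q) (d : Fin k → Dir) (j : Fin (k + 1)) (pos : Fin k → ℕ) : Prop :=
  ∃ q0 pos0, MR M a s q0 pos0 ∧ (q, d) ∈ M.δ q0 (fun i => tape (a :: s) (pos0 i)) ∧
    pos = fun i => if i.castSucc < j then move (s.length + 2) (pos0 i) (d i) else pos0 i

variable {M a s}

theorem mv_zero {q q' : M.Q} {d : Fin k → Dir} {pos : Fin k → ℕ} (h : MR M a s q pos)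
    (h1 : (q', d) ∈ M.δ q (fun i => tape (a :: s) (pos i))) : MV M a s q' d 0 pos :=
  ⟨q, pos, h, h1, by
    funext i
    rw [if_neg (by simp)]⟩

theorem mv_succ {q : M.Q} {d : Fin k → Dir} {j : Fin k} {pos : Fin k → ℕ}
    (h : MV M a s q d j.castSucc pos) :
    MV M a s q d j.succ (update pos j (move (s.length + 2) (pos j) (d j))) := by
  obtain ⟨q0, pos0, h1, h2, rfl⟩ := h
  refine ⟨q0, pos0, h1, h2, ?_⟩
  funext i
  by_cases h3 : i = j
  · subst h3
    rw [update_self]
    show move (s.length + 2) (if i.castSucc < i.castSucc then _ else pos0 i) (d i) = _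
    rw [if_neg (lt_irrefl _), if_pos (Fin.castSucc_lt_succ)]
  · rw [update_of_ne h3]
    show (if i.castSucc < j.castSucc then _ else pos0 i) = _
    have h4 : i.castSucc < j.castSucc ↔ i.castSucc < j.succ := by
      rw [Fin.lt_def, Fin.lt_def]
      have h5 : (i : ℕ) ≠ j := fun h5 => h3 (Fin.ext h5)
      simp only [Fin.val_castSucc, Fin.val_succ]
      omega
    by_cases h5 : i.castSucc < j.castSucc
    · rw [if_pos h5, if_pos (h4.1 h5)]
    · rw [if_neg h5, if_neg fun h6 => h5 (h4.2 h6)]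

theorem mv_last {q : M.Q} {d : Fin k → Dir} {pos : Fin k → ℕ}
    (h : MV M a s q d (Fin.last k) pos) : MR M a s q pos := by
  obtain ⟨q0, pos0, h1, h2, rfl⟩ := h
  refine ReflTransGen.tail h1 ⟨(q, d), h2, ?_⟩
  refine Prod.ext rfl ?_
  funext i
  show (if i.castSucc < Fin.last k then move (s.length + 2) (pos0 i) (d i) else pos0 i) = _
  rw [if_pos (Fin.castSucc_lt_last i)]
  rfl

theorem move_le (N p : ℕ) (d : Dir) (h : p ≤ N) : move N p d ≤ N := by
  cases d
  · show p - 1 ≤ N
    omega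
  · exact h
  · show min (p + 1) N ≤ N
    omega

variable (M a s) in
/-- the simulation relation -/
def Sim (pos : Fin k → ℕ) (c : Ctl M) (l : List (T × (Fin k → Bool))) : Prop :=
  c.1 = a ∧ (∀ i, Rel s i (pos i) l) ∧ (∀ i, pos i ≤ s.length + 2) ∧
    match c.2.2 with
    | Ph.main q => (∀ i, c.2.1 i = stat s (pos i)) ∧ MR M a s q pos
    | Ph.mv q d j => (∀ i, c.2.1 i = stat s (pos i)) ∧ MV M a s q d j pos
    | Ph.set q d j => (∀ i, i ≠ j → c.2.1 i = stat s (pos i)) ∧ 1 ≤ pos j ∧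
        pos j ≤ s.length + 1 ∧ MV M a s q d j.succ pos

theorem upd_stat {st : Fin k → Sta T} {pos : Fin k → ℕ} {j : Fin k} {p : ℕ} {x : Sta T}
    (h : ∀ i, i ≠ j → st i = stat s (pos i)) (hx : x = stat s p) :
    ∀ i, update st j x i = stat s (update pos j p i) := by
  intro i
  by_cases h1 : i = j
  · subst h1
    rw [update_self, update_self, hx]
  · rw [update_of_ne h1, update_of_ne h1, h i h1]

theorem upd_rel {pos : Fin k → ℕ} {j : Fin k} {p : ℕ} {l' : List (T × (Fin k → Bool))}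
    (h : ∀ i, i ≠ j → Rel s i (pos i) l') (h1 : Rel s j p l') :
    ∀ i, Rel s i (update pos j p i) l' := by
  intro i
  by_cases h2 : i = j
  · subst h2
    rwa [update_self]
  · rw [update_of_ne h2]
    exact h i h2

theorem upd_le {pos : Fin k → ℕ} {j : Fin k} {p N : ℕ} (h : ∀ i, pos i ≤ N) (h1 : p ≤ N) :
    ∀ i, update pos j p i ≤ N := by
  intro i
  by_cases h2 : i = j
  · subst h2
    rwa [update_self]
  · rw [update_of_ne h2]
    exact h i

theorem upd_same {pos : Fin k → ℕ} {j : Fin k} {p : ℕ} (h : p = pos j) : update pos j p = pos := by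
  rw [h, update_eq_self]

end Prog

end Pool.Agent.SCG
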