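import Pool.Agent.SCG.Defs

/-!
# Short derivations in propagating semi-conditional grammars of degree (1,1) (helper52)
-/

set_option autoImplicit false

namespace Pool.Agent.SCG

namespace Grammar

variable {T : Type} (G : Grammar T)

theorem derives_trans {a b : ℕ} {u v w : List (T ⊕ G.N)} (h1 : G.Derives a u v)
    (h2 : G.Derives b v w) : G.Derives (a + b) u w := by
  induction a generalizing u with
  | zero =>
    have : u = v := h1
    rw [this, Nat.zero_add]
    exact h2
  | succ a ih =>
    obtain ⟨x, hx, hx1⟩ := h1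
    rw [Nat.add_right_comm]
    exact ⟨x, hx, ih hx1⟩

theorem step_length (hp : G.Propagating) {u v : List (T ⊕ G.N)} (h : G.Step u v) :
    u.length ≤ v.length := by
  obtain ⟨r, hr, u₁, u₂, rfl, rfl, -, -⟩ := h
  have h1 : 0 < r.rhs.length := List.length_pos_iff.2 (hp r hr)
  simp only [List.length_append, List.length_cons]
  omega

theorem derives_length (hp : G.Propagating) {m : ℕ} {u v : List (T ⊕ G.N)}
    (h : G.Derives m u v) : u.length ≤ v.length := by
  induction m generalizing u with
  | zero =>
    have : u = v := h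
    rw [this]
  | succ m ih =>
    obtain ⟨x, hx, hx1⟩ := h
    exact (G.step_length hp hx).trans (ih hx1)

/-- one step of a unit rule on a string given as a function -/
def FStep {l : ℕ} (f g : Fin l → T ⊕ G.N) : Prop :=
  ∃ r ∈ G.rules, ∃ (p : Fin l) (b : T ⊕ G.N), f p = Sum.inr r.lhs ∧ r.rhs = [b] ∧
    g = Function.update f p b ∧
    (∀ α, r.perm = some α → α <:+: List.ofFn f) ∧ (∀ β, r.forb = some β → ¬ β <:+: List.ofFn f)

theorem fstep_of_step (hp : G.Propagating) {l : ℕ} {f : Fin l → T ⊕ G.N} {v : List (T ⊕ G.N)}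
    (h : G.Step (List.ofFn f) v) (hv : v.length = l) :
    ∃ g : Fin l → T ⊕ G.N, v = List.ofFn g ∧ G.FStep f g := by
  classical
  obtain ⟨r, hr, u₁, u₂, hu, hv', h1, h2⟩ := h
  have hl : u₁.length + (u₂.length + 1) = l := by
    have := congrArg List.length hu
    simp only [List.length_ofFn, List.length_append, List.length_cons] at this
    omega
  have h3 : 0 < r.rhs.length := List.length_pos_iff.2 (hp r hr)
  have h4 : r.rhs.length = 1 := by
    have := congrArg List.length hv'
    simp only [List.length_append] at this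
    omega
  obtain ⟨b, hb⟩ := List.length_eq_one_iff.1 h4
  have hpl : u₁.length < l := by omega
  have hget : ∀ (i : ℕ) (hi : i < l), f ⟨i, hi⟩ =
      (u₁ ++ Sum.inr r.lhs :: u₂)[i]'(by simp only [List.length_append, List.length_cons]; omega) := by
    intro i hi
    have h5 : (List.ofFn f)[i]'(by simpa using hi) = f ⟨i, hi⟩ := by simp
    rw [← h5]
    simp only [hu]
  refine ⟨Function.update f ⟨u₁.length, hpl⟩ b, ?_, r, hr, ⟨u₁.length, hpl⟩, b, ?_, hb, rfl, h1,
    h2⟩
  · refine List.ext_getElem (by simp [hv]) fun i hi1 hi2 => ?_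
    have hil : i < l := by simpa using hi2
    rw [List.getElem_ofFn]
    simp only [hv', hb]
    rcases lt_trichotomy i u₁.length with h5 | h5 | h5
    · rw [Function.update_of_ne (by simp [Fin.ext_iff]; omega), hget i hil]
      rw [List.getElem_append_left (by simp; omega), List.getElem_append_left h5,
        List.getElem_append_left h5]
    · subst h5
      rw [Function.update_self, List.getElem_append_left (by simp),
        List.getElem_append_right (le_refl _)]
      simp
    · rw [Function.update_of_ne (by simp [Fin.ext_iff]; omega), hget i hil]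
      rw [List.getElem_append_right (by simp; omega), List.getElem_append_right (by omega)]
      obtain ⟨j, hj⟩ : ∃ j, i = u₁.length + 1 + j := ⟨i - (u₁.length + 1), by omega⟩
      subst hj
      simp only [List.length_append, List.length_cons, List.length_nil, zero_add]
      rw [List.getElem_cons]
      rw [dif_neg (by omega)]
      congr 1
  · rw [hget _ hpl, List.getElem_append_right (le_refl _)]
    simp

theorem step_of_fstep {l : ℕ} {f g : Fin l → T ⊕ G.N} (h : G.FStep f g) :
    G.Step (List.ofFn f) (List.ofFn g) := by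
  classical
  obtain ⟨r, hr, p, b, hp, hb, hg, h1, h2⟩ := h
  refine ⟨r, hr, (List.ofFn f).take p, (List.ofFn f).drop (p + 1), ?_, ?_, h1, h2⟩
  · rw [← hp]
    have h3 : (List.ofFn f)[(p : ℕ)]'(by simp) = f p := by simp
    rw [← h3, List.getElem_cons_drop]
    exact (List.take_append_drop _ _).symm
  · rw [hb, hg]
    refine List.ext_getElem (by simp; omega) fun i hi1 hi2 => ?_
    have hil : i < l := by simpa using hi1
    have hpl : (p : ℕ) < l := p.2
    rw [List.getElem_ofFn]
    rcases lt_trichotomy i (p : ℕ) with h5 | h5 | h5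
    · rw [Function.update_of_ne (by simp [Fin.ext_iff]; omega)]
      rw [List.getElem_append_left (by simp; omega), List.getElem_append_left (by simp; omega)]
      simp
    · subst h5
      rw [List.getElem_append_left (by simp), List.getElem_append_right (by simp)]
      simp
    · rw [Function.update_of_ne (by simp [Fin.ext_iff]; omega)]
      rw [List.getElem_append_right (by simp; omega)]
      simp only [List.getElem_drop, List.getElem_ofFn]
      congr 1
      apply Fin.ext
      simp only [List.length_append, List.length_take, List.length_ofFn, List.length_cons,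
        List.length_nil]
      omega

/-- paths of unit steps -/
def FPath {l : ℕ} : ℕ → (Fin l → T ⊕ G.N) → (Fin l → T ⊕ G.N) → Prop
  | 0, f, g => f = g
  | m + 1, f, g => ∃ x, G.FStep f x ∧ FPath m x g

theorem fpath_trans {l a b : ℕ} {f g h : Fin l → T ⊕ G.N} (h1 : G.FPath a f g)
    (h2 : G.FPath b g h) : G.FPath (a + b) f h := by
  induction a generalizing f with
  | zero =>
    have : f = g := h1
    rw [this, Nat.zero_add]
    exact h2
  | succ a ih =>
    obtain ⟨x, hx, hx1⟩ := h1
    rw [Nat.add_right_comm]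
    exact ⟨x, hx, ih hx1⟩

theorem derives_of_fpath {l m : ℕ} {f g : Fin l → T ⊕ G.N} (h : G.FPath m f g) :
    G.Derives m (List.ofFn f) (List.ofFn g) := by
  induction m generalizing f with
  | zero =>
    have : f = g := h
    rw [this]
    rfl
  | succ m ih =>
    obtain ⟨x, hx, hx1⟩ := h
    exact ⟨_, G.step_of_fstep hx, ih hx1⟩

theorem fpath_of_derives (hp : G.Propagating) {l m : ℕ} {f : Fin l → T ⊕ G.N}
    {v : List (T ⊕ G.N)} (h : G.Derives m (List.ofFn f) v) (hv : v.length = l) :
    ∃ g : Fin l → T ⊕ G.N, v = List.ofFn g ∧ G.FPath m f g := by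
  induction m generalizing f with
  | zero =>
    have : List.ofFn f = v := h
    exact ⟨f, this.symm, rfl⟩
  | succ m ih =>
    obtain ⟨x, hx, hx1⟩ := h
    have h1 := G.step_length hp hx
    have h2 := G.derives_length hp hx1
    rw [List.length_ofFn] at h1
    obtain ⟨y, rfl, hy⟩ := G.fstep_of_step hp hx (by omega)
    obtain ⟨g, rfl, hg⟩ := ih hx1
    exact ⟨g, rfl, y, hy, hg⟩

/-- conditions of length at most one depend only on the set of symbols -/
theorem infix_iff {S : Type} {α : List S} (h : α.length ≤ 1) {l : ℕ} {f g : Fin l → S}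
    (hfg : Set.range f = Set.range g) : α <:+: List.ofFn f ↔ α <:+: List.ofFn g := by
  have key : ∀ (s : S) (f : Fin l → S), [s] <:+: List.ofFn f ↔ s ∈ Set.range f := by
    intro s f
    rw [← List.mem_ofFn']
    constructor
    · rintro ⟨a, b, h⟩
      rw [← h]
      simp
    · intro h
      obtain ⟨a, b, h⟩ := List.append_of_mem h
      exact ⟨a, b, by rw [h]; simp⟩
  rcases Nat.lt_or_ge α.length 1 with h1 | h1
  · have : α = [] := List.length_eq_zero_iff.1 (by omega)
    subst this
    exact iff_of_true (List.nil_infix) (List.nil_infix)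
  · obtain ⟨s, rfl⟩ := List.length_eq_one_iff.1 (le_antisymm h h1)
    rw [key, key, hfg]

theorem fstep_perm (hd : G.Degree 1 1) {l : ℕ} {f g : Fin l → T ⊕ G.N}
    (π : Equiv.Perm (Fin l)) (h : G.FStep f g) : G.FStep (f ∘ π) (g ∘ π) := by
  obtain ⟨r, hr, p, b, hp, hb, rfl, h1, h2⟩ := h
  have hrange : Set.range (f ∘ π) = Set.range f := π.surjective.range_comp f
  refine ⟨r, hr, π.symm p, b, by simpa using hp, hb, ?_, fun α hα => ?_, fun β hβ => ?_⟩
  · ext i
    by_cases hi : i = π.symm p
    · subst hi
      simp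
    · have : π i ≠ p := fun h => hi (by rw [← h, Equiv.symm_apply_apply])
      rw [Function.comp_apply, Function.update_of_ne this, Function.update_of_ne hi]
      rfl
  · exact (infix_iff ((hd r hr).1 α hα) hrange).2 (h1 α hα)
  · exact fun h3 => h2 β hβ ((infix_iff ((hd r hr).2 β hβ) hrange).1 h3)

theorem fpath_perm (hd : G.Degree 1 1) {l m : ℕ} {f g : Fin l → T ⊕ G.N}
    (π : Equiv.Perm (Fin l)) (h : G.FPath m f g) : G.FPath m (f ∘ π) (g ∘ π) := by
  induction m generalizing f with
  | zero =>
    have : f = g := h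
    rw [this]
    rfl
  | succ m ih =>
    obtain ⟨x, hx, hx1⟩ := h
    exact ⟨_, G.fstep_perm hd π hx, ih hx1⟩

/-- two functions with fibres of equal size differ by a permutation -/
theorem exists_perm_of_card {l : ℕ} {S : Type} (F F' : Fin l → S)
    (h : ∀ s, Nat.card {i // F i = s} = Nat.card {i // F' i = s}) :
    ∃ π : Equiv.Perm (Fin l), F ∘ π = F' := by
  have e' : ∀ s, {i // F' i = s} ≃ {i // F i = s} := fun s =>
    Classical.choice (by
      have h1 := (h s).symm
      classical
      rw [Nat.card_eq_fintype_card, Nat.card_eq_fintype_card] at h1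
      exact Fintype.card_eq.1 h1)
  refine ⟨Equiv.ofFiberEquiv (f := F') (g := F) e', ?_⟩
  ext i
  exact Equiv.ofFiberEquiv_map (f := F') (g := F) e' i

/-- a path of unit steps can be shortened to polynomial length -/
theorem fpath_short (hd : G.Degree 1 1) [Finite T] {l m : ℕ} {f g : Fin l → T ⊕ G.N}
    (h : G.FPath m f g) : ∃ m' ≤ (l + 1) ^ (Nat.card (T ⊕ G.N) ^ 2), G.FPath m' f g := by
  classical
  have := G.finN
  have := Fintype.ofFinite (T ⊕ G.N)
  -- intermediate strings
  have hseq : ∀ {m : ℕ} {f : Fin l → T ⊕ G.N}, G.FPath m f g → ∃ c : ℕ → (Fin l → T ⊕ G.N),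
      ∀ i ≤ m, G.FPath i f (c i) ∧ G.FPath (m - i) (c i) g := by
    intro m
    induction m with
    | zero =>
      intro f h
      refine ⟨fun _ => f, fun i hi => ?_⟩
      have : i = 0 := by omega
      subst this
      exact ⟨rfl, h⟩
    | succ m ih =>
      intro f h
      obtain ⟨x, hx, hx1⟩ := h
      obtain ⟨c, hc⟩ := ih hx1
      refine ⟨fun i => if i = 0 then f else c (i - 1), fun i hi => ?_⟩
      rcases Nat.eq_zero_or_pos i with rfl | hi0
      · simp only [if_true]
        exact ⟨rfl, x, hx, hx1⟩
      · obtain ⟨j, rfl⟩ : ∃ j, i = j + 1 := ⟨i - 1, by omega⟩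
        simp only [Nat.add_eq_zero_iff, one_ne_zero, and_false, if_false, Nat.add_sub_cancel]
        obtain ⟨h1, h2⟩ := hc j (by omega)
        refine ⟨⟨x, hx, h1⟩, ?_⟩
        rw [show m + 1 - (j + 1) = m - j by omega]
        exact h2
  induction m using Nat.strong_induction_on with
  | _ m ih =>
    by_cases hm : m ≤ (l + 1) ^ (Nat.card (T ⊕ G.N) ^ 2)
    · exact ⟨m, hm, h⟩
    · push Not at hm
      obtain ⟨c, hc⟩ := hseq h
      let J : Fin (m + 1) → ((T ⊕ G.N) × (T ⊕ G.N) → Fin (l + 1)) := fun t s =>
        ⟨Nat.card {i // (fun i => (f i, c t i)) i = s}, by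
          have h1 : Nat.card {i // (fun i => (f i, c t i)) i = s} ≤ Nat.card (Fin l) :=
            Nat.card_le_card_of_injective _ Subtype.val_injective
          rw [Nat.card_fin] at h1
          omega⟩
      have hni : ¬ Function.Injective J := by
        intro hJ
        have h1 := Fintype.card_le_of_injective J hJ
        rw [Fintype.card_fin, Fintype.card_fun, Fintype.card_fin, Fintype.card_prod,
          ← Nat.card_eq_fintype_card, ← pow_two] at h1
        omega
      obtain ⟨a, b, hab, hne⟩ : ∃ a b, J a = J b ∧ a ≠ b := by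
        simpa [Function.Injective] using hni
      wlog hlt : a < b generalizing a b
      · exact this b a hab.symm hne.symm (lt_of_le_of_ne (not_lt.1 hlt) hne.symm)
      obtain ⟨π, hπ⟩ := exists_perm_of_card (fun i => (f i, c a i)) (fun i => (f i, c b i))
        (fun s => by
          have h1 := congrArg Fin.val (congrFun hab s)
          exact h1)
      have hf : f ∘ π = f := by
        ext1 i
        exact congrArg Prod.fst (congrFun hπ i)
      have hg : c a ∘ π = c b := by
        ext1 i
        exact congrArg Prod.snd (congrFun hπ i)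
      have ha := a.2
      have hb := b.2
      have hlt' : (a : ℕ) < b := hlt
      have h1 := G.fpath_perm hd π (hc a (by omega)).1
      rw [hf, hg] at h1
      exact ih (a + (m - b)) (by omega) (G.fpath_trans h1 (hc b (by omega)).2)

/-- a derivation of polynomial length -/
theorem derives_short (hp : G.Propagating) (hd : G.Degree 1 1) [Finite T] {m : ℕ}
    {u v : List (T ⊕ G.N)} (h : G.Derives m u v) :
    ∃ (x : List (T ⊕ G.N)) (m₁ m₂ : ℕ), x.length = u.length ∧ G.Derives m₁ u x ∧
      m₁ ≤ (v.length + 1) ^ (Nat.card (T ⊕ G.N) ^ 2) ∧ G.Derives m₂ x v ∧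
      m₂ ≤ (v.length - u.length) * ((v.length + 1) ^ (Nat.card (T ⊕ G.N) ^ 2) + 1) := by
  induction m generalizing u with
  | zero =>
    have : u = v := h
    subst this
    exact ⟨u, 0, 0, rfl, rfl, Nat.zero_le _, rfl, Nat.zero_le _⟩
  | succ m ih =>
    obtain ⟨y, hy, hy1⟩ := h
    obtain ⟨x, m₁, m₂, hx, h1, hm1, h2, hm2⟩ := ih hy1
    have hl1 := G.step_length hp hy
    have hl2 := G.derives_length hp hy1
    rcases Nat.eq_or_lt_of_le hl1 with hl | hl
    · -- one phase
      have h3 : G.Derives (m₁ + 1) u x := ⟨y, hy, h1⟩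
      obtain ⟨f, hf⟩ : ∃ f : Fin u.length → T ⊕ G.N, u = List.ofFn f :=
        ⟨u.get, (List.ofFn_get u).symm⟩
      have h4 : ∃ (g : Fin u.length → T ⊕ G.N), x = List.ofFn g ∧ G.FPath (m₁ + 1) f g := by
        refine G.fpath_of_derives hp ?_ (hx.trans hl.symm)
        rw [← hf]
        exact h3
      obtain ⟨g, hg, hgp⟩ := h4
      obtain ⟨m', hm', hgp'⟩ := G.fpath_short hd hgp
      refine ⟨x, m', m₂, hx.trans hl.symm, ?_, hm'.trans (Nat.pow_le_pow_left (by omega) _), h2,
        ?_⟩
      · have h5 := G.derives_of_fpath hgp'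
        rw [← hf, ← hg] at h5
        exact h5
      · rw [hl]
        exact hm2
    · refine ⟨u, 0, 1 + (m₁ + m₂), rfl, rfl, Nat.zero_le _, ?_, ?_⟩
      · rw [Nat.add_comm 1]
        exact ⟨y, hy, G.derives_trans h1 h2⟩
      · set B := (v.length + 1) ^ (Nat.card (T ⊕ G.N) ^ 2)
        have h3 : v.length - y.length + 1 ≤ v.length - u.length := by omega
        calc 1 + (m₁ + m₂) ≤ (v.length - y.length + 1) * (B + 1) := by
              rw [Nat.add_mul]
              omega
          _ ≤ _ := Nat.mul_le_mul_right _ h3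

/-- **Short derivations.** In a propagating semi-conditional grammar of degree `(1, 1)` every word
of the language has a derivation of polynomial length. -/
theorem gen_short (hp : G.Propagating) (hd : G.Degree 1 1) [Finite T] :
    ∃ C : ℕ, ∀ w ∈ G.lang, ∃ m ≤ C * (w.length + 1) ^ C, G.Gen m w := by
  set K := Nat.card (T ⊕ G.N) ^ 2 with hK
  refine ⟨K + 3, fun w hw => ?_⟩
  obtain ⟨m, hm⟩ := hw
  obtain ⟨x, m₁, m₂, -, h1, hm1, h2, hm2⟩ := G.derives_short hp hd hm
  rw [List.length_map] at hm1 hm2
  refine ⟨m₁ + m₂, ?_, G.derives_trans h1 h2⟩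
  set n := w.length
  rw [← hK] at hm1 hm2
  have h3 := hm2.trans (Nat.mul_le_mul_right ((n + 1) ^ K + 1) (Nat.sub_le n _))
  have h4 : 1 ≤ (n + 1) ^ K := Nat.one_le_pow _ _ (by omega)
  have h5 : m₁ + m₂ ≤ 3 * (n + 1) ^ (K + 1) := by
    calc m₁ + m₂ ≤ (n + 1) ^ K + n * ((n + 1) ^ K + 1) := by omega
      _ ≤ 3 * (n + 1) ^ (K + 1) := by
        rw [pow_succ]
        nlinarith
  calc m₁ + m₂ ≤ 3 * (n + 1) ^ (K + 1) := h5
    _ ≤ (K + 3) * (n + 1) ^ (K + 3) :=
      Nat.mul_le_mul (by omega) (Nat.pow_le_pow_right (by omega) (by omega))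

end Grammar

end Pool.Agent.SCG
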