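import Pool.Agent.SCG.ToHeads

/-!
# Token programs and the simple grammars which simulate them (helper52)
-/

set_option autoImplicit false

namespace Pool.Agent.SCG

open Relation

/-- A token program: a finite control and a list of tokens; an instruction tests that no token has a
type in a given set, and may change one token. -/
structure TP (T : Type) where
  C : Type
  X : Type
  I : Type
  finC : Finite C
  finX : Finite X
  finI : Finite I
  lt : X → T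
  ini : T → X
  lt_ini : ∀ a, lt (ini a) = a
  st : T → C
  fl : C → T
  fl_st : ∀ a, fl (st a) = a
  src : I → C
  dst : I → C
  fl_eq : ∀ i, fl (dst i) = fl (src i)
  N : I → Set X
  ch : I → Option (X × X)
  lt_eq : ∀ i x y, ch i = some (x, y) → lt x = lt y
  acc : Set C

namespace TP

variable {T : Type} (P : TP T)

/-- the effect of the change of an instruction on the tokens -/
def Chg (i : P.I) (l l' : List P.X) : Prop :=
  (P.ch i = none ∧ l' = l) ∨ ∃ x y, P.ch i = some (x, y) ∧ ∃ l₁ l₂, l = l₁ ++ x :: l₂ ∧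
    l' = l₁ ++ y :: l₂

/-- one step of the program -/
def Step (c c' : P.C × List P.X) : Prop :=
  ∃ i, P.src i = c.1 ∧ P.dst i = c'.1 ∧ (∀ x ∈ c.2, x ∉ P.N i) ∧ P.Chg i c.2 c'.2

/-- reachable from the initial configuration which is determined by the letters -/
def R (c : P.C) (l : List P.X) : Prop :=
  ReflTransGen P.Step (P.st (P.fl c), (l.map P.lt).map P.ini) (c, l)

/-- the language of the program -/
def lang : Set (List T) :=
  {w | ∃ a w', w = a :: w' ∧ ∃ c l, ReflTransGen P.Step (P.st a, w'.map P.ini) (c, l) ∧ c ∈ P.acc}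

theorem chg_lt {i : P.I} {l l' : List P.X} (h : P.Chg i l l') : l'.map P.lt = l.map P.lt := by
  rcases h with ⟨-, rfl⟩ | ⟨x, y, h1, l₁, l₂, rfl, rfl⟩
  · rfl
  · simp [P.lt_eq i x y h1]

theorem step_inv {c c' : P.C × List P.X} (h : P.Step c c') :
    P.fl c'.1 = P.fl c.1 ∧ c'.2.map P.lt = c.2.map P.lt := by
  obtain ⟨i, h1, h2, -, h3⟩ := h
  exact ⟨by rw [← h1, ← h2, P.fl_eq], P.chg_lt h3⟩

theorem reach_inv {c c' : P.C × List P.X} (h : ReflTransGen P.Step c c') :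
    P.fl c'.1 = P.fl c.1 ∧ c'.2.map P.lt = c.2.map P.lt := by
  induction h with
  | refl => exact ⟨rfl, rfl⟩
  | tail _ h1 ih =>
    obtain ⟨h2, h3⟩ := P.step_inv h1
    exact ⟨h2.trans ih.1, h3.trans ih.2⟩

theorem map_ini (w : List T) : (w.map P.ini).map P.lt = w := by
  rw [List.map_map]
  have : P.lt ∘ P.ini = id := funext P.lt_ini
  rw [this, List.map_id]

theorem R_st (a : T) (w : List T) : P.R (P.st a) (w.map P.ini) := by
  unfold R
  rw [P.map_ini, P.fl_st]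

theorem R_step {c c' : P.C} {l l' : List P.X} (h : P.R c l) (h1 : P.Step (c, l) (c', l')) :
    P.R c' l' := by
  obtain ⟨h2, h3⟩ := P.step_inv h1
  unfold R
  have h2' : P.fl c' = P.fl c := h2
  have h3' : l'.map P.lt = l.map P.lt := h3
  rw [h2', h3']
  exact ReflTransGen.tail h h1

theorem R_acc {c : P.C} {l : List P.X} (h : P.R c l) (hc : c ∈ P.acc) :
    P.fl c :: l.map P.lt ∈ P.lang := ⟨_, _, rfl, c, l, h, hc⟩

theorem R_of_reach {a : T} {w : List T} {c : P.C} {l : List P.X}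
    (h : ReflTransGen P.Step (P.st a, w.map P.ini) (c, l)) :
    P.R c l ∧ P.fl c = a ∧ l.map P.lt = w := by
  obtain ⟨h1, h2⟩ := P.reach_inv h
  have h1' : P.fl c = a := by
    have : P.fl c = P.fl (P.st a) := h1
    rw [this, P.fl_st]
  have h2' : l.map P.lt = w := by
    have : l.map P.lt = (w.map P.ini).map P.lt := h2
    rw [this, P.map_ini]
  refine ⟨?_, h1', h2'⟩
  unfold R
  rw [h1', h2']
  exact h

end TP

/-- the nonterminals of the grammar of a token program -/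
inductive NT {T : Type} (P : TP T) (m : ℕ) where
  | S : NT P m
  | gen : T → NT P m
  | ctl : P.C → NT P m
  | tok : P.X → NT P m
  | tst : P.I → Fin (m + 1) → NT P m
  | k3 : P.I → NT P m
  | k4 : P.I → NT P m
  | k5 : P.I → NT P m
  | z : P.I → NT P m
  | z' : P.I → NT P m
  | fin : T → NT P m

instance {T : Type} [Finite T] (P : TP T) (m : ℕ) : Finite (NT P m) := by
  have := P.finC
  have := P.finX
  have := P.finI
  let f : NT P m → (Fin 11 × Option T × Option P.C × Option P.X × Option P.I ×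
      Option (Fin (m + 1))) := fun o => match o with
    | NT.S => (0, none, none, none, none, none)
    | NT.gen a => (1, some a, none, none, none, none)
    | NT.ctl c => (2, none, some c, none, none, none)
    | NT.tok x => (3, none, none, some x, none, none)
    | NT.tst i j => (4, none, none, none, some i, some j)
    | NT.k3 i => (5, none, none, none, some i, none)
    | NT.k4 i => (6, none, none, none, some i, none)
    | NT.k5 i => (7, none, none, none, some i, none)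
    | NT.z i => (8, none, none, none, some i, none)
    | NT.z' i => (9, none, none, none, some i, none)
    | NT.fin a => (10, some a, none, none, none, none)
  refine Finite.of_injective f fun a b h => ?_
  cases a <;> cases b <;> simp [f] at h <;> first | rfl | (rw [h]) | (rw [h.1, h.2])

section Gr

variable {T : Type} (P : TP T) {m : ℕ} (e : Fin m ≃ P.X)

open Classical in
/-- the right-hand side of the last test -/
noncomputable def nx (i : P.I) : NT P m := if P.ch i = none then NT.ctl (P.dst i) else NT.k3 i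

open Classical in
/-- the forbidding condition of a test -/
noncomputable def fb (i : P.I) (j : Fin m) : Option (List (T ⊕ NT P m)) :=
  if e j ∈ P.N i then some [Sum.inr (NT.tok (e j))] else none

/-- rules without conditions -/
def rA : Set (Rule T (NT P m)) := Set.range fun a : T => ⟨NT.S, [Sum.inr (NT.gen a)], none, none⟩
def rB : Set (Rule T (NT P m)) := Set.range fun a : T × T =>
  ⟨NT.gen a.1, [Sum.inr (NT.gen a.1), Sum.inr (NT.tok (P.ini a.2))], none, none⟩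
def rC : Set (Rule T (NT P m)) := Set.range fun a : T =>
  ⟨NT.gen a, [Sum.inr (NT.ctl (P.st a))], none, none⟩
def rD : Set (Rule T (NT P m)) := Set.range fun i : P.I =>
  ⟨NT.ctl (P.src i), [Sum.inr (NT.tst i 0)], none, none⟩
/-- tests -/
noncomputable def rE : Set (Rule T (NT P m)) := Set.range fun i : P.I × Fin m =>
  ⟨NT.tst i.1 i.2.castSucc, [Sum.inr (NT.tst i.1 i.2.succ)], none, fb P e i.1 i.2⟩
noncomputable def rF : Set (Rule T (NT P m)) := Set.range fun i : P.I =>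
  ⟨NT.tst i (Fin.last m), [Sum.inr (nx P i)], none, none⟩
/-- a change -/
def rG : Set (Rule T (NT P m)) := {r | ∃ i x y, P.ch i = some (x, y) ∧
  r = ⟨NT.tok x, [Sum.inr (NT.z i)], some [Sum.inr (NT.k3 i)], none⟩}
def rH : Set (Rule T (NT P m)) := Set.range fun i : P.I =>
  ⟨NT.k3 i, [Sum.inr (NT.k4 i)], some [Sum.inr (NT.z i)], none⟩
def rI : Set (Rule T (NT P m)) := Set.range fun i : P.I =>
  ⟨NT.z i, [Sum.inr (NT.z' i)], none, some [Sum.inr (NT.z' i)]⟩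
def rJ : Set (Rule T (NT P m)) := Set.range fun i : P.I =>
  ⟨NT.k4 i, [Sum.inr (NT.k5 i)], none, some [Sum.inr (NT.z i)]⟩
def rK : Set (Rule T (NT P m)) := {r | ∃ i x y, P.ch i = some (x, y) ∧
  r = ⟨NT.z' i, [Sum.inr (NT.tok y)], some [Sum.inr (NT.k5 i)], none⟩}
def rL : Set (Rule T (NT P m)) := Set.range fun i : P.I =>
  ⟨NT.k5 i, [Sum.inr (NT.ctl (P.dst i))], none, some [Sum.inr (NT.z' i)]⟩
/-- the end -/
def rM : Set (Rule T (NT P m)) := {r | ∃ c ∈ P.acc,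
  r = ⟨NT.ctl c, [Sum.inr (NT.fin (P.fl c))], none, none⟩}
def rN : Set (Rule T (NT P m)) := Set.range fun a : P.X × T =>
  ⟨NT.tok a.1, [Sum.inl (P.lt a.1)], some [Sum.inr (NT.fin a.2)], none⟩
def rO : Set (Rule T (NT P m)) := Set.range fun a : T => ⟨NT.fin a, [Sum.inl a], none, none⟩

/-- all rules -/
noncomputable def rls : Set (Rule T (NT P m)) :=
  rA P ∪ rB P ∪ rC P ∪ rD P ∪ rE P e ∪ rF P ∪ rG P ∪ rH P ∪ rI P ∪ rJ P ∪ rK P ∪ rL P ∪ rM P ∪
    rN P ∪ rO P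

theorem rls_finite [Finite T] : (rls P e).Finite := by
  have := P.finC
  have := P.finX
  have := P.finI
  have hG : (rG P : Set (Rule T (NT P m))).Finite := by
    refine (Set.finite_range fun a : P.I × P.X => (⟨NT.tok a.2, [Sum.inr (NT.z a.1)],
      some [Sum.inr (NT.k3 a.1)], none⟩ : Rule T (NT P m))).subset ?_
    rintro r ⟨i, x, y, -, rfl⟩
    exact ⟨(i, x), rfl⟩
  have hK : (rK P : Set (Rule T (NT P m))).Finite := by
    refine (Set.finite_range fun a : P.I × P.X => (⟨NT.z' a.1, [Sum.inr (NT.tok a.2)],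
      some [Sum.inr (NT.k5 a.1)], none⟩ : Rule T (NT P m))).subset ?_
    rintro r ⟨i, x, y, -, rfl⟩
    exact ⟨(i, y), rfl⟩
  have hM : (rM P : Set (Rule T (NT P m))).Finite := by
    refine (Set.finite_range fun c : P.C => (⟨NT.ctl c, [Sum.inr (NT.fin (P.fl c))], none,
      none⟩ : Rule T (NT P m))).subset ?_
    rintro r ⟨c, -, rfl⟩
    exact ⟨c, rfl⟩
  unfold rls
  refine Set.Finite.union (Set.Finite.union (Set.Finite.union (Set.Finite.union
    (Set.Finite.union (Set.Finite.union (Set.Finite.union (Set.Finite.union (Set.Finite.union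
    (Set.Finite.union (Set.Finite.union (Set.Finite.union (Set.Finite.union (Set.Finite.union
    (Set.finite_range _) (Set.finite_range _)) (Set.finite_range _)) (Set.finite_range _))
    (Set.finite_range _)) (Set.finite_range _)) hG) (Set.finite_range _)) (Set.finite_range _))
    (Set.finite_range _)) hK) (Set.finite_range _)) hM) (Set.finite_range _)) (Set.finite_range _)

/-- the case distinction over all rules -/
theorem rls_cases {r : Rule T (NT P m)} (h : r ∈ rls P e) :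
    (∃ a : T, r = ⟨NT.S, [Sum.inr (NT.gen a)], none, none⟩) ∨
    (∃ a b : T, r = ⟨NT.gen a, [Sum.inr (NT.gen a), Sum.inr (NT.tok (P.ini b))], none, none⟩) ∨
    (∃ a : T, r = ⟨NT.gen a, [Sum.inr (NT.ctl (P.st a))], none, none⟩) ∨
    (∃ i : P.I, r = ⟨NT.ctl (P.src i), [Sum.inr (NT.tst i 0)], none, none⟩) ∨
    (∃ (i : P.I) (j : Fin m), r = ⟨NT.tst i j.castSucc, [Sum.inr (NT.tst i j.succ)], none,
      fb P e i j⟩) ∨
    (∃ i : P.I, r = ⟨NT.tst i (Fin.last m), [Sum.inr (nx P i)], none, none⟩) ∨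
    (∃ i x y, P.ch i = some (x, y) ∧
      r = ⟨NT.tok x, [Sum.inr (NT.z i)], some [Sum.inr (NT.k3 i)], none⟩) ∨
    (∃ i : P.I, r = ⟨NT.k3 i, [Sum.inr (NT.k4 i)], some [Sum.inr (NT.z i)], none⟩) ∨
    (∃ i : P.I, r = ⟨NT.z i, [Sum.inr (NT.z' i)], none, some [Sum.inr (NT.z' i)]⟩) ∨
    (∃ i : P.I, r = ⟨NT.k4 i, [Sum.inr (NT.k5 i)], none, some [Sum.inr (NT.z i)]⟩) ∨
    (∃ i x y, P.ch i = some (x, y) ∧
      r = ⟨NT.z' i, [Sum.inr (NT.tok y)], some [Sum.inr (NT.k5 i)], none⟩) ∨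
    (∃ i : P.I, r = ⟨NT.k5 i, [Sum.inr (NT.ctl (P.dst i))], none, some [Sum.inr (NT.z' i)]⟩) ∨
    (∃ c ∈ P.acc, r = ⟨NT.ctl c, [Sum.inr (NT.fin (P.fl c))], none, none⟩) ∨
    (∃ (x : P.X) (a : T), r = ⟨NT.tok x, [Sum.inl (P.lt x)], some [Sum.inr (NT.fin a)], none⟩) ∨
    (∃ a : T, r = ⟨NT.fin a, [Sum.inl a], none, none⟩) := by
  unfold rls at h
  simp only [Set.mem_union] at h
  rcases h with (((((((((((((h | h) | h) | h) | h) | h) | h) | h) | h) | h) | h) | h) | h) | h) | h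
  · obtain ⟨a, rfl⟩ := h
    exact Or.inl ⟨a, rfl⟩
  · obtain ⟨a, rfl⟩ := h
    exact Or.inr (Or.inl ⟨a.1, a.2, rfl⟩)
  · obtain ⟨a, rfl⟩ := h
    exact Or.inr (Or.inr (Or.inl ⟨a, rfl⟩))
  · obtain ⟨a, rfl⟩ := h
    exact Or.inr (Or.inr (Or.inr (Or.inl ⟨a, rfl⟩)))
  · obtain ⟨a, rfl⟩ := h
    exact Or.inr (Or.inr (Or.inr (Or.inr (Or.inl ⟨a.1, a.2, rfl⟩))))
  · obtain ⟨a, rfl⟩ := h
    exact Or.inr (Or.inr (Or.inr (Or.inr (Or.inr (Or.inl ⟨a, rfl⟩)))))
  · exact Or.inr (Or.inr (Or.inr (Or.inr (Or.inr (Or.inr (Or.inl h))))))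
  · obtain ⟨a, rfl⟩ := h
    exact Or.inr (Or.inr (Or.inr (Or.inr (Or.inr (Or.inr (Or.inr (Or.inl ⟨a, rfl⟩)))))))
  · obtain ⟨a, rfl⟩ := h
    exact Or.inr (Or.inr (Or.inr (Or.inr (Or.inr (Or.inr (Or.inr (Or.inr (Or.inl ⟨a, rfl⟩))))))))
  · obtain ⟨a, rfl⟩ := h
    exact Or.inr (Or.inr (Or.inr (Or.inr (Or.inr (Or.inr (Or.inr (Or.inr (Or.inr
      (Or.inl ⟨a, rfl⟩)))))))))
  · exact Or.inr (Or.inr (Or.inr (Or.inr (Or.inr (Or.inr (Or.inr (Or.inr (Or.inr (Or.inr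
      (Or.inl h))))))))))
  · obtain ⟨a, rfl⟩ := h
    exact Or.inr (Or.inr (Or.inr (Or.inr (Or.inr (Or.inr (Or.inr (Or.inr (Or.inr (Or.inr (Or.inr
      (Or.inl ⟨a, rfl⟩)))))))))))
  · exact Or.inr (Or.inr (Or.inr (Or.inr (Or.inr (Or.inr (Or.inr (Or.inr (Or.inr (Or.inr (Or.inr
      (Or.inr (Or.inl h))))))))))))
  · obtain ⟨a, rfl⟩ := h
    exact Or.inr (Or.inr (Or.inr (Or.inr (Or.inr (Or.inr (Or.inr (Or.inr (Or.inr (Or.inr (Or.inr
      (Or.inr (Or.inr (Or.inl ⟨a.1, a.2, rfl⟩)))))))))))))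
  · obtain ⟨a, rfl⟩ := h
    exact Or.inr (Or.inr (Or.inr (Or.inr (Or.inr (Or.inr (Or.inr (Or.inr (Or.inr (Or.inr (Or.inr
      (Or.inr (Or.inr (Or.inr ⟨a, rfl⟩)))))))))))))

theorem fb_spec (i : P.I) (j : Fin m) :
    (fb P e i j = none ∧ e j ∉ P.N i) ∨
      (fb P e i j = some [Sum.inr (NT.tok (e j))] ∧ e j ∈ P.N i) := by
  classical
  unfold fb
  by_cases h : e j ∈ P.N i
  · right
    rw [if_pos h]
    exact ⟨rfl, h⟩
  · left
    rw [if_neg h]
    exact ⟨rfl, h⟩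

theorem rls_perm : ∀ r ∈ rls P e, r.perm ≠ some [] := by
  intro r hr
  rcases rls_cases P e hr with ⟨a, rfl⟩ | ⟨a, b, rfl⟩ | ⟨a, rfl⟩ | ⟨i, rfl⟩ | ⟨i, j, rfl⟩ |
    ⟨i, rfl⟩ | ⟨i, x, y, h, rfl⟩ | ⟨i, rfl⟩ | ⟨i, rfl⟩ | ⟨i, rfl⟩ | ⟨i, x, y, h, rfl⟩ | ⟨i, rfl⟩ |
    ⟨c, hc, rfl⟩ | ⟨x, a, rfl⟩ | ⟨a, rfl⟩ <;> simp

theorem rls_forb : ∀ r ∈ rls P e, r.forb ≠ some [] := by
  intro r hr
  rcases rls_cases P e hr with ⟨a, rfl⟩ | ⟨a, b, rfl⟩ | ⟨a, rfl⟩ | ⟨i, rfl⟩ | ⟨i, j, rfl⟩ |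
    ⟨i, rfl⟩ | ⟨i, x, y, h, rfl⟩ | ⟨i, rfl⟩ | ⟨i, rfl⟩ | ⟨i, rfl⟩ | ⟨i, x, y, h, rfl⟩ | ⟨i, rfl⟩ |
    ⟨c, hc, rfl⟩ | ⟨x, a, rfl⟩ | ⟨a, rfl⟩
  case inr.inr.inr.inr.inl =>
    rcases fb_spec P e i j with ⟨h, -⟩ | ⟨h, -⟩ <;> simp [h]
  all_goals simp

theorem rls_rhs : ∀ r ∈ rls P e, r.rhs ≠ [] := by
  intro r hr
  rcases rls_cases P e hr with ⟨a, rfl⟩ | ⟨a, b, rfl⟩ | ⟨a, rfl⟩ | ⟨i, rfl⟩ | ⟨i, j, rfl⟩ |
    ⟨i, rfl⟩ | ⟨i, x, y, h, rfl⟩ | ⟨i, rfl⟩ | ⟨i, rfl⟩ | ⟨i, rfl⟩ | ⟨i, x, y, h, rfl⟩ | ⟨i, rfl⟩ |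
    ⟨c, hc, rfl⟩ | ⟨x, a, rfl⟩ | ⟨a, rfl⟩ <;> simp

theorem rls_simple : ∀ r ∈ rls P e, r.perm = none ∨ r.forb = none := by
  intro r hr
  rcases rls_cases P e hr with ⟨a, rfl⟩ | ⟨a, b, rfl⟩ | ⟨a, rfl⟩ | ⟨i, rfl⟩ | ⟨i, j, rfl⟩ |
    ⟨i, rfl⟩ | ⟨i, x, y, h, rfl⟩ | ⟨i, rfl⟩ | ⟨i, rfl⟩ | ⟨i, rfl⟩ | ⟨i, x, y, h, rfl⟩ | ⟨i, rfl⟩ |
    ⟨c, hc, rfl⟩ | ⟨x, a, rfl⟩ | ⟨a, rfl⟩ <;> simp

theorem rls_deg : ∀ r ∈ rls P e, (∀ α, r.perm = some α → α.length ≤ 1) ∧
    (∀ β, r.forb = some β → β.length ≤ 1) := by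
  intro r hr
  rcases rls_cases P e hr with ⟨a, rfl⟩ | ⟨a, b, rfl⟩ | ⟨a, rfl⟩ | ⟨i, rfl⟩ | ⟨i, j, rfl⟩ |
    ⟨i, rfl⟩ | ⟨i, x, y, h, rfl⟩ | ⟨i, rfl⟩ | ⟨i, rfl⟩ | ⟨i, rfl⟩ | ⟨i, x, y, h, rfl⟩ | ⟨i, rfl⟩ |
    ⟨c, hc, rfl⟩ | ⟨x, a, rfl⟩ | ⟨a, rfl⟩
  case inr.inr.inr.inr.inl =>
    refine ⟨fun α hα => by simp at hα, fun β hβ => ?_⟩
    rcases fb_spec P e i j with ⟨h, -⟩ | ⟨h, -⟩
    · exact absurd (h.symm.trans hβ) (by simp)
    · have h2 := h.symm.trans hβ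
      rw [← Option.some.inj h2]
      simp
  all_goals
    refine ⟨fun α hα => ?_, fun β hβ => ?_⟩
    · first
        | (exfalso; simp at hα; done)
        | (rw [← Option.some.inj hα]; simp)
    · first
        | (exfalso; simp at hβ; done)
        | (rw [← Option.some.inj hβ]; simp)

/-- the grammar of a token program -/
noncomputable def gram [Finite T] : Grammar T where
  N := NT P m
  finN := inferInstance
  start := NT.S
  rules := rls P e
  finRules := rls_finite P e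
  perm_ne := rls_perm P e
  forb_ne := rls_forb P e

theorem gram_prop [Finite T] : (gram P e).Propagating ∧ (gram P e).Simple ∧
    (gram P e).Degree 1 1 :=
  ⟨rls_rhs P e, rls_simple P e, rls_deg P e⟩

end Gr

end Pool.Agent.SCG
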