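import Pool.Agent.SCG.TP

/-!
# Soundness of the grammar of a token program (helper52)
-/

set_option autoImplicit false

namespace Pool.Agent.SCG

open Relation

/-- one step with a set of rules -/
def St {T N : Type} (R : Set (Rule T N)) (u v : List (T ⊕ N)) : Prop :=
  ∃ r ∈ R, ∃ u₁ u₂ : List (T ⊕ N), u = u₁ ++ Sum.inr r.lhs :: u₂ ∧ v = u₁ ++ r.rhs ++ u₂ ∧
    (∀ α, r.perm = some α → α <:+: u) ∧ (∀ β, r.forb = some β → ¬ β <:+: u)

theorem exists_derives {T : Type} (G : Grammar T) (u v : List (T ⊕ G.N)) :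
    (∃ m, G.Derives m u v) ↔ ReflTransGen (St G.rules) u v := by
  constructor
  · rintro ⟨m, h⟩
    induction m generalizing u with
    | zero =>
      have : u = v := h
      rw [this]
    | succ m ih =>
      obtain ⟨x, hx, hx1⟩ := h
      exact ReflTransGen.head hx (ih x hx1)
  · intro h
    induction h using ReflTransGen.head_induction_on with
    | refl => exact ⟨0, rfl⟩
    | head h1 _ ih =>
      obtain ⟨m, hm⟩ := ih
      exact ⟨m + 1, _, h1, hm⟩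

section Gr2

variable {T : Type} {P : TP T} {m : ℕ} {e : Fin m ≃ P.X}

/-- a token -/
def tk (x : P.X) : T ⊕ NT P m := Sum.inr (NT.tok x)

/-- a token which may be marked -/
def sy (i : P.I) (p : P.X × Fin 3) : T ⊕ NT P m :=
  if p.2 = 0 then Sum.inr (NT.tok p.1) else if p.2 = 1 then Sum.inr (NT.z i) else Sum.inr (NT.z' i)

/-- a token which may be a letter -/
def mx (p : P.X × Bool) : T ⊕ NT P m :=
  if p.2 then Sum.inl (P.lt p.1) else Sum.inr (NT.tok p.1)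

variable (e) in
/-- the sentential forms -/
inductive FInv : List (T ⊕ NT P m) → Prop
  | S : FInv [Sum.inr NT.S]
  | gen (a : T) (v : List T) : FInv (Sum.inr (NT.gen a) :: (v.map P.ini).map tk)
  | ctl (c : P.C) (l : List P.X) (h : P.R c l) : FInv (Sum.inr (NT.ctl c) :: l.map tk)
  | tst (i : P.I) (j : Fin (m + 1)) (l : List P.X) (h : P.R (P.src i) l)
      (h1 : ∀ j' : Fin m, j'.castSucc < j → e j' ∈ P.N i → e j' ∉ l) :
      FInv (Sum.inr (NT.tst i j) :: l.map tk)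
  | k3 (i : P.I) (x y : P.X) (v : List (P.X × Fin 3)) (hc : P.ch i = some (x, y))
      (h : P.R (P.src i) (v.map Prod.fst)) (ht : ∀ x' ∈ v.map Prod.fst, x' ∉ P.N i)
      (hz : ∀ p ∈ v, p.2 ≠ 0 → p.1 = x) (h2 : v.countP (fun p => p.2 = 2) ≤ 1) :
      FInv (Sum.inr (NT.k3 i) :: v.map (sy i))
  | k4 (i : P.I) (x y : P.X) (v : List (P.X × Fin 3)) (hc : P.ch i = some (x, y))
      (h : P.R (P.src i) (v.map Prod.fst)) (ht : ∀ x' ∈ v.map Prod.fst, x' ∉ P.N i)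
      (hz : ∀ p ∈ v, p.2 ≠ 0 → p.1 = x) (h2 : v.countP (fun p => p.2 = 2) ≤ 1)
      (h1 : ∃ p ∈ v, p.2 ≠ 0) : FInv (Sum.inr (NT.k4 i) :: v.map (sy i))
  | k5 (i : P.I) (x y : P.X) (l₁ l₂ : List P.X) (hc : P.ch i = some (x, y))
      (h : P.R (P.src i) (l₁ ++ x :: l₂)) (ht : ∀ x' ∈ l₁ ++ x :: l₂, x' ∉ P.N i) :
      FInv (Sum.inr (NT.k5 i) :: (l₁.map tk ++ Sum.inr (NT.z' i) :: l₂.map tk))
  | k5' (i : P.I) (l : List P.X) (h : P.R (P.dst i) l) : FInv (Sum.inr (NT.k5 i) :: l.map tk)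
  | fin (c : P.C) (hc : c ∈ P.acc) (v : List (P.X × Bool)) (h : P.R c (v.map Prod.fst)) :
      FInv (Sum.inr (NT.fin (P.fl c)) :: v.map mx)
  | mix (c : P.C) (hc : c ∈ P.acc) (v : List (P.X × Bool)) (h : P.R c (v.map Prod.fst)) :
      FInv (Sum.inl (P.fl c) :: v.map mx)

/-- symbols behind the first one -/
def Tl (s : T ⊕ NT P m) : Prop :=
  (∃ a, s = Sum.inl a) ∨ (∃ x, s = Sum.inr (NT.tok x)) ∨ (∃ i, s = Sum.inr (NT.z i)) ∨
    (∃ i, s = Sum.inr (NT.z' i))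

theorem tl_tk (x : P.X) : Tl (tk x : T ⊕ NT P m) := Or.inr (Or.inl ⟨x, rfl⟩)

theorem tl_z' (i : P.I) : Tl (Sum.inr (NT.z' i) : T ⊕ NT P m) := Or.inr (Or.inr (Or.inr ⟨i, rfl⟩))

theorem tl_sy (i : P.I) (p : P.X × Fin 3) : Tl (sy i p : T ⊕ NT P m) := by
  unfold sy
  split_ifs
  · exact Or.inr (Or.inl ⟨_, rfl⟩)
  · exact Or.inr (Or.inr (Or.inl ⟨_, rfl⟩))
  · exact Or.inr (Or.inr (Or.inr ⟨_, rfl⟩))

theorem tl_mx (p : P.X × Bool) : Tl (mx p : T ⊕ NT P m) := by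
  unfold mx
  split_ifs
  · exact Or.inl ⟨_, rfl⟩
  · exact Or.inr (Or.inl ⟨_, rfl⟩)

/-- the first symbol or another one is rewritten -/
theorem st_cases {h : T ⊕ NT P m} {t v : List (T ⊕ NT P m)} (hs : St (rls P e) (h :: t) v) :
    ∃ r ∈ rls P e, ((h = Sum.inr r.lhs ∧ v = r.rhs ++ t) ∨
      (∃ t₁ t₂, t = t₁ ++ Sum.inr r.lhs :: t₂ ∧ v = h :: (t₁ ++ r.rhs ++ t₂))) ∧
      (∀ s, r.perm = some [s] → s ∈ h :: t) ∧ (∀ s, r.forb = some [s] → s ∉ h :: t) := by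
  obtain ⟨r, hr, u₁, u₂, hu, hv, h1, h2⟩ := hs
  refine ⟨r, hr, ?_, fun s hs => (mem_iff_infix s _).1 (h1 _ hs),
    fun s hs h3 => h2 _ hs ((mem_iff_infix s _).2 h3)⟩
  cases u₁ with
  | nil =>
    rw [List.nil_append, List.cons.injEq] at hu
    left
    rw [hv, ← hu.2]
    exact ⟨hu.1, rfl⟩
  | cons a u₁ =>
    rw [List.cons_append, List.cons.injEq] at hu
    right
    refine ⟨u₁, u₂, hu.2, ?_⟩
    rw [hv, hu.1]
    rfl

/-- the rules for the symbols behind the first one -/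
theorem tail_cases {h : T ⊕ NT P m} {t : List (T ⊕ NT P m)} (ht : ∀ s ∈ t, Tl s)
    {r : Rule T (NT P m)} (hr : r ∈ rls P e) (hl : Sum.inr r.lhs ∈ t)
    (hp : ∀ s, r.perm = some [s] → s ∈ h :: t) (hf : ∀ s, r.forb = some [s] → s ∉ h :: t) :
    (∃ i x y, P.ch i = some (x, y) ∧ r.lhs = NT.tok x ∧ r.rhs = [Sum.inr (NT.z i)] ∧
      h = Sum.inr (NT.k3 i)) ∨
    (∃ i, r.lhs = NT.z i ∧ r.rhs = [Sum.inr (NT.z' i)] ∧ Sum.inr (NT.z' i) ∉ t) ∨
    (∃ i x y, P.ch i = some (x, y) ∧ r.lhs = NT.z' i ∧ r.rhs = [Sum.inr (NT.tok y)] ∧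
      h = Sum.inr (NT.k5 i)) ∨
    (∃ x a, r.lhs = NT.tok x ∧ r.rhs = [Sum.inl (P.lt x)] ∧ h = Sum.inr (NT.fin a)) := by
  have hT := ht _ hl
  have hmem : ∀ s : T ⊕ NT P m, ¬ Tl s → s ∈ h :: t → h = s := by
    intro s hs h1
    rcases List.mem_cons.1 h1 with h2 | h2
    · exact h2.symm
    · exact absurd (ht s h2) hs
  rcases rls_cases P e hr with ⟨a, rfl⟩ | ⟨a, b, rfl⟩ | ⟨a, rfl⟩ | ⟨i, rfl⟩ | ⟨i, j, rfl⟩ |
    ⟨i, rfl⟩ | ⟨i, x, y, h, rfl⟩ | ⟨i, rfl⟩ | ⟨i, rfl⟩ | ⟨i, rfl⟩ | ⟨i, x, y, h, rfl⟩ | ⟨i, rfl⟩ |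
    ⟨c, hc, rfl⟩ | ⟨x, a, rfl⟩ | ⟨a, rfl⟩
  case inr.inr.inr.inr.inr.inr.inl =>
    exact Or.inl ⟨i, x, y, h, rfl, rfl, hmem _ (by simp [Tl]) (hp _ rfl)⟩
  case inr.inr.inr.inr.inr.inr.inr.inr.inl =>
    exact Or.inr (Or.inl ⟨i, rfl, rfl, fun h3 => hf _ rfl (List.mem_cons_of_mem _ h3)⟩)
  case inr.inr.inr.inr.inr.inr.inr.inr.inr.inr.inl =>
    exact Or.inr (Or.inr (Or.inl ⟨i, x, y, h, rfl, rfl, hmem _ (by simp [Tl]) (hp _ rfl)⟩))
  case inr.inr.inr.inr.inr.inr.inr.inr.inr.inr.inr.inr.inr.inl =>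
    exact Or.inr (Or.inr (Or.inr ⟨x, a, rfl, rfl, hmem _ (by simp [Tl]) (hp _ rfl)⟩))
  all_goals simp [Tl] at hT

theorem no_sy_z' {i : P.I} {v : List (P.X × Fin 3)}
    (h : (Sum.inr (NT.z' i) : T ⊕ NT P m) ∉ v.map (sy i)) : v.countP (fun p => p.2 = 2) = 0 := by
  rw [List.countP_eq_zero]
  intro p hp h2
  refine h (List.mem_map.2 ⟨p, hp, ?_⟩)
  have h2' : p.2 = 2 := by simpa using h2
  simp [sy, h2']

theorem no_sy_z {i : P.I} {v : List (P.X × Fin 3)}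
    (h : (Sum.inr (NT.z i) : T ⊕ NT P m) ∉ v.map (sy i)) : ∀ p ∈ v, p.2 ≠ 1 := by
  intro p hp h2
  refine h (List.mem_map.2 ⟨p, hp, ?_⟩)
  simp [sy, h2]

theorem sy_tok {i : P.I} {p : P.X × Fin 3} {x : P.X}
    (h : (sy i p : T ⊕ NT P m) = Sum.inr (NT.tok x)) : p = (x, 0) := by
  unfold sy at h
  split_ifs at h with h1 h2
  · simp at h
    exact Prod.ext h h1
  · simp at h
  · simp at h

theorem sy_z {i i' : P.I} {p : P.X × Fin 3}
    (h : (sy i p : T ⊕ NT P m) = Sum.inr (NT.z i')) : i' = i ∧ p.2 = 1 := by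
  unfold sy at h
  split_ifs at h with h1 h2
  · simp at h
  · simp at h
    exact ⟨h.symm, h2⟩
  · simp at h

/-- in the phases `k3` and `k4` -/
theorem tail_k {i : P.I} {x y : P.X} {v : List (P.X × Fin 3)} (hc : P.ch i = some (x, y))
    (h : P.R (P.src i) (v.map Prod.fst)) (ht : ∀ x' ∈ v.map Prod.fst, x' ∉ P.N i)
    (hz : ∀ p ∈ v, p.2 ≠ 0 → p.1 = x) (h2 : v.countP (fun p => p.2 = 2) ≤ 1)
    {r : Rule T (NT P m)} {t₁ t₂ : List (T ⊕ NT P m)}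
    (hv : v.map (sy i) = t₁ ++ Sum.inr r.lhs :: t₂)
    (hr : (∃ x', P.ch i = some (x', y) ∧ r.lhs = NT.tok x' ∧ r.rhs = [Sum.inr (NT.z i)]) ∨
      (∃ i', r.lhs = NT.z i' ∧ r.rhs = [Sum.inr (NT.z' i')] ∧
        (Sum.inr (NT.z' i') : T ⊕ NT P m) ∉ v.map (sy i))) :
    ∃ v' : List (P.X × Fin 3), t₁ ++ r.rhs ++ t₂ = v'.map (sy i) ∧
      P.R (P.src i) (v'.map Prod.fst) ∧ (∀ x' ∈ v'.map Prod.fst, x' ∉ P.N i) ∧
      (∀ p ∈ v', p.2 ≠ 0 → p.1 = x) ∧ v'.countP (fun p => p.2 = 2) ≤ 1 ∧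
      (∃ p ∈ v', p.2 ≠ 0) := by
  obtain ⟨v₁, v₂', rfl, h3, h4⟩ := List.map_eq_append_iff.1 hv
  obtain ⟨p, v₂, rfl, h5, h6⟩ := List.map_eq_cons_iff.1 h4
  rcases hr with ⟨x', hx', h7, h8⟩ | ⟨i', h7, h8, h9⟩
  · have hp : p = (x', 0) := sy_tok (h5.trans (by rw [h7]))
    have hx : x' = x := by
      rw [hc] at hx'
      simp at hx'
      exact hx'.symm
    have hfst : (v₁ ++ (x', (1 : Fin 3)) :: v₂).map Prod.fst =
        (v₁ ++ p :: v₂).map Prod.fst := by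
      rw [hp]
      simp
    refine ⟨v₁ ++ (x', 1) :: v₂, ?_, ?_, ?_, ?_, ?_, (x', 1), by simp, by simp⟩
    · rw [h8, ← h3, ← h6]
      simp [sy]
    · rw [hfst]
      exact h
    · rw [hfst]
      exact ht
    · intro p' hp' h10
      rw [List.mem_append, List.mem_cons] at hp'
      rcases hp' with h11 | h11 | h11
      · exact hz p' (by simp [h11]) h10
      · rw [h11]
        exact hx
      · exact hz p' (by simp [h11]) h10
    · rw [hp] at h2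
      rw [List.countP_append, List.countP_cons_of_neg (by simp)] at h2 ⊢
      exact h2
  · obtain ⟨rfl, hp⟩ := sy_z (h5.trans (by rw [h7]))
    have h0 := no_sy_z' h9
    rw [List.countP_append, List.countP_cons] at h0
    have hfst : (v₁ ++ (p.1, (2 : Fin 3)) :: v₂).map Prod.fst =
        (v₁ ++ p :: v₂).map Prod.fst := by
      simp
    refine ⟨v₁ ++ (p.1, 2) :: v₂, ?_, ?_, ?_, ?_, ?_, (p.1, 2), by simp, by simp⟩
    · rw [h8, ← h3, ← h6]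
      simp [sy]
    · rw [hfst]
      exact h
    · rw [hfst]
      exact ht
    · intro p' hp' h10
      rw [List.mem_append, List.mem_cons] at hp'
      rcases hp' with h11 | h11 | h11
      · exact hz p' (by simp [h11]) h10
      · rw [h11]
        exact hz p (by simp) (by rw [hp]; simp)
      · exact hz p' (by simp [h11]) h10
    · rw [List.countP_append, List.countP_cons_of_pos (by simp)]
      omega

/-- no rule changes unmarked tokens, if the first symbol is not `k3` or `fin` -/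
theorem tail_tk {h : T ⊕ NT P m} (l : List P.X) (h3 : ∀ i, h ≠ Sum.inr (NT.k3 i))
    (h4 : ∀ a, h ≠ Sum.inr (NT.fin a)) {r : Rule T (NT P m)} (hr : r ∈ rls P e)
    (hl : Sum.inr r.lhs ∈ l.map (tk : P.X → T ⊕ NT P m))
    (hp : ∀ s, r.perm = some [s] → s ∈ h :: l.map tk)
    (hf : ∀ s, r.forb = some [s] → s ∉ h :: l.map tk) : False := by
  have ht : ∀ s ∈ l.map (tk : P.X → T ⊕ NT P m), Tl s := by
    intro s hs
    obtain ⟨x, -, rfl⟩ := List.mem_map.1 hs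
    exact tl_tk x
  obtain ⟨x', -, hx'⟩ := List.mem_map.1 hl
  rcases tail_cases ht hr hl hp hf with ⟨i, x, y, -, -, -, h5⟩ | ⟨i, h5, -, -⟩ |
    ⟨i, x, y, -, h5, -, -⟩ | ⟨x, a, -, -, h5⟩
  · exact h3 i h5
  · rw [h5] at hx'
    simp [tk] at hx'
  · rw [h5] at hx'
    simp [tk] at hx'
  · exact h4 a h5

end Gr2

end Pool.Agent.SCG
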