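import Pool.Agent.SCG.TP2

/-!
# Soundness of the grammar of a token program, the steps (helper52)
-/

set_option autoImplicit false

namespace Pool.Agent.SCG

open Relation

section Gr3

variable {T : Type} {P : TP T} {m : ℕ} {e : Fin m ≃ P.X}

variable (e) in
/-- the rules -/
inductive IsR : NT P m → List (T ⊕ NT P m) → Option (List (T ⊕ NT P m)) →
    Option (List (T ⊕ NT P m)) → Prop
  | A (a : T) : IsR NT.S [Sum.inr (NT.gen a)] none none
  | B (a b : T) : IsR (NT.gen a) [Sum.inr (NT.gen a), Sum.inr (NT.tok (P.ini b))] none none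
  | C (a : T) : IsR (NT.gen a) [Sum.inr (NT.ctl (P.st a))] none none
  | D (i : P.I) : IsR (NT.ctl (P.src i)) [Sum.inr (NT.tst i 0)] none none
  | E (i : P.I) (j : Fin m) : IsR (NT.tst i j.castSucc) [Sum.inr (NT.tst i j.succ)] none
      (fb P e i j)
  | F (i : P.I) : IsR (NT.tst i (Fin.last m)) [Sum.inr (nx P i)] none none
  | G (i : P.I) (x y : P.X) (h : P.ch i = some (x, y)) :
      IsR (NT.tok x) [Sum.inr (NT.z i)] (some [Sum.inr (NT.k3 i)]) none
  | H (i : P.I) : IsR (NT.k3 i) [Sum.inr (NT.k4 i)] (some [Sum.inr (NT.z i)]) none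
  | I (i : P.I) : IsR (NT.z i) [Sum.inr (NT.z' i)] none (some [Sum.inr (NT.z' i)])
  | J (i : P.I) : IsR (NT.k4 i) [Sum.inr (NT.k5 i)] none (some [Sum.inr (NT.z i)])
  | K (i : P.I) (x y : P.X) (h : P.ch i = some (x, y)) :
      IsR (NT.z' i) [Sum.inr (NT.tok y)] (some [Sum.inr (NT.k5 i)]) none
  | L (i : P.I) : IsR (NT.k5 i) [Sum.inr (NT.ctl (P.dst i))] none (some [Sum.inr (NT.z' i)])
  | M (c : P.C) (h : c ∈ P.acc) : IsR (NT.ctl c) [Sum.inr (NT.fin (P.fl c))] none none
  | N (x : P.X) (a : T) : IsR (NT.tok x) [Sum.inl (P.lt x)] (some [Sum.inr (NT.fin a)]) none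
  | O (a : T) : IsR (NT.fin a) [Sum.inl a] none none

theorem isR {r : Rule T (NT P m)} (hr : r ∈ rls P e) : IsR e r.lhs r.rhs r.perm r.forb := by
  rcases rls_cases P e hr with ⟨a, rfl⟩ | ⟨a, b, rfl⟩ | ⟨a, rfl⟩ | ⟨i, rfl⟩ | ⟨i, j, rfl⟩ |
    ⟨i, rfl⟩ | ⟨i, x, y, h, rfl⟩ | ⟨i, rfl⟩ | ⟨i, rfl⟩ | ⟨i, rfl⟩ | ⟨i, x, y, h, rfl⟩ | ⟨i, rfl⟩ |
    ⟨c, hc, rfl⟩ | ⟨x, a, rfl⟩ | ⟨a, rfl⟩
  · exact IsR.A a
  · exact IsR.B a b
  · exact IsR.C a
  · exact IsR.D i
  · exact IsR.E i j
  · exact IsR.F i
  · exact IsR.G i x y h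
  · exact IsR.H i
  · exact IsR.I i
  · exact IsR.J i
  · exact IsR.K i x y h
  · exact IsR.L i
  · exact IsR.M c hc
  · exact IsR.N x a
  · exact IsR.O a

/-- the first symbol or another one is rewritten -/
theorem st_head {s : NT P m} {t v : List (T ⊕ NT P m)}
    (hs : St (rls P e) (Sum.inr s :: t) v) :
    (∃ rhs perm forb, IsR e s rhs perm forb ∧ v = rhs ++ t ∧
      (∀ s', perm = some [s'] → s' ∈ Sum.inr s :: t) ∧
      (∀ s', forb = some [s'] → s' ∉ Sum.inr s :: t)) ∨
    (∃ r ∈ rls P e, ∃ t₁ t₂, t = t₁ ++ Sum.inr r.lhs :: t₂ ∧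
      v = Sum.inr s :: (t₁ ++ r.rhs ++ t₂) ∧
      (∀ s', r.perm = some [s'] → s' ∈ Sum.inr s :: t) ∧
      (∀ s', r.forb = some [s'] → s' ∉ Sum.inr s :: t)) := by
  obtain ⟨r, hr, h1 | ⟨t₁, t₂, h1, h2⟩, h3, h4⟩ := st_cases hs
  · left
    have h5 : s = r.lhs := Sum.inr_injective h1.1
    exact ⟨r.rhs, r.perm, r.forb, by rw [h5]; exact isR hr, h1.2, h3, h4⟩
  · right
    exact ⟨r, hr, t₁, t₂, h1, h2, h3, h4⟩

/-- unmarked tokens do not change -/
theorem st_tk {s : NT P m} {l : List P.X} {v : List (T ⊕ NT P m)} (h3 : ∀ i, s ≠ NT.k3 i)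
    (h4 : ∀ a, s ≠ NT.fin a) (hs : St (rls P e) (Sum.inr s :: l.map tk) v) :
    ∃ rhs perm forb, IsR e s rhs perm forb ∧ v = rhs ++ l.map tk ∧
      (∀ s', perm = some [s'] → s' ∈ (Sum.inr s : T ⊕ NT P m) :: l.map tk) ∧
      (∀ s', forb = some [s'] → s' ∉ (Sum.inr s : T ⊕ NT P m) :: l.map tk) := by
  rcases st_head hs with h | ⟨r, hr, t₁, t₂, h5, h6, h7, h8⟩
  · exact h
  · exfalso
    refine tail_tk l (fun i h => h3 i (Sum.inr_injective h)) (fun a h => h4 a (Sum.inr_injective h))
      hr ?_ h7 h8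
    rw [h5]
    simp

theorem mem_map_tk {l : List P.X} {x : P.X} :
    (Sum.inr (NT.tok x) : T ⊕ NT P m) ∈ l.map tk ↔ x ∈ l := by
  constructor
  · intro h
    obtain ⟨y, hy, h1⟩ := List.mem_map.1 h
    have : y = x := by
      unfold tk at h1
      simpa using h1
    rwa [← this]
  · intro h
    exact List.mem_map.2 ⟨x, h, rfl⟩

/-- a step in the last phase -/
theorem mx_tail {h : T ⊕ NT P m} {v : List (P.X × Bool)} {w : List (T ⊕ NT P m)} {r : Rule T (NT P m)}
    (hr : r ∈ rls P e) {t₁ t₂ : List (T ⊕ NT P m)} (hv : v.map mx = t₁ ++ Sum.inr r.lhs :: t₂)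
    (hp : ∀ s, r.perm = some [s] → s ∈ h :: v.map mx)
    (hf : ∀ s, r.forb = some [s] → s ∉ h :: v.map mx) (h3 : ∀ i, h ≠ Sum.inr (NT.k3 i))
    (hw : w = h :: (t₁ ++ r.rhs ++ t₂)) :
    ∃ v' : List (P.X × Bool), w = h :: v'.map mx ∧ v'.map Prod.fst = v.map Prod.fst := by
  have ht : ∀ s ∈ v.map (mx : P.X × Bool → T ⊕ NT P m), Tl s := by
    intro s hs
    obtain ⟨x, -, rfl⟩ := List.mem_map.1 hs
    exact tl_mx x
  have hl : Sum.inr r.lhs ∈ v.map (mx : P.X × Bool → T ⊕ NT P m) := by
    rw [hv]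
    simp
  obtain ⟨v₁, v₂', rfl, h5, h6⟩ := List.map_eq_append_iff.1 hv
  obtain ⟨p, v₂, rfl, h7, h8⟩ := List.map_eq_cons_iff.1 h6
  have hmx : ∀ s : NT P m, (mx p : T ⊕ NT P m) = Sum.inr s → s = NT.tok p.1 ∧ p.2 = false := by
    intro s hs
    unfold mx at hs
    split_ifs at hs with h9
    exact ⟨(Sum.inr_injective hs).symm, by simpa using h9⟩
  rcases tail_cases ht hr hl hp hf with ⟨i, x, y, -, -, -, h9⟩ | ⟨i, h9, -, -⟩ |
    ⟨i, x, y, -, h9, -, -⟩ | ⟨x, a, h9, h10, -⟩
  · exact absurd h9 (h3 i)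
  · have := (hmx _ h7).1
    rw [h9] at this
    simp at this
  · have := (hmx _ h7).1
    rw [h9] at this
    simp at this
  · have h11 := (hmx _ h7).1
    rw [h9] at h11
    have h12 : x = p.1 := by simpa using h11
    refine ⟨v₁ ++ (p.1, true) :: v₂, ?_, by simp⟩
    rw [hw, h10, ← h5, ← h8, h12]
    simp [mx]

theorem finv_step {u v : List (T ⊕ NT P m)} (h : FInv e u) (hs : St (rls P e) u v) : FInv e v := by
  cases h with
  | S =>
    obtain ⟨rhs, perm, forb, h1, rfl, -, -⟩ := st_tk (l := []) (by simp) (by simp) hs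
    cases h1 with
    | A a => exact FInv.gen a []
  | gen a w =>
    obtain ⟨rhs, perm, forb, h1, rfl, -, -⟩ := st_tk (by simp) (by simp) hs
    cases h1 with
    | B _ b => exact FInv.gen a (b :: w)
    | C => exact FInv.ctl (P.st a) _ (P.R_st a w)
  | ctl c l h =>
    obtain ⟨rhs, perm, forb, h1, rfl, -, -⟩ := st_tk (by simp) (by simp) hs
    cases h1 with
    | D i => exact FInv.tst i 0 l h fun j' h2 => absurd h2 (by simp)
    | M _ hc =>
      have h2 : (l.map fun x => (x, false)).map Prod.fst = l := by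
        rw [List.map_map]
        exact List.map_id l
      have h3 : (l.map fun x => (x, false)).map (mx : P.X × Bool → T ⊕ NT P m) = l.map tk := by
        rw [List.map_map]
        rfl
      have h4 := FInv.fin (e := e) c hc (l.map fun x => (x, false)) (by rw [h2]; exact h)
      rw [h3] at h4
      exact h4
  | tst i j l h hj =>
    obtain ⟨rhs, perm, forb, h1, rfl, -, h2⟩ := st_tk (by simp) (by simp) hs
    cases h1 with
    | E _ j =>
      refine FInv.tst i j.succ l h fun j' h3 h4 h5 => ?_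
      rcases lt_or_eq_of_le (Fin.le_castSucc_iff.2 h3) with h6 | h6
      · exact hj j' h6 h4 h5
      · have h7 : j' = j := Fin.castSucc_injective _ h6
        rw [h7] at h4 h5
        rcases fb_spec P e i j with ⟨-, h8⟩ | ⟨h8, -⟩
        · exact h8 h4
        · exact h2 _ h8 (List.mem_cons_of_mem _ (mem_map_tk.2 h5))
    | F =>
      have ht : ∀ x ∈ l, x ∉ P.N i := by
        intro x hx hx1
        obtain ⟨j', rfl⟩ := e.surjective x
        exact hj j' (Fin.castSucc_lt_last j') hx1 hx
      show FInv e (Sum.inr (nx P i) :: l.map tk)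
      cases hch : P.ch i with
      | none =>
        have h3 : nx P i = (NT.ctl (P.dst i) : NT P m) := by
          unfold nx
          rw [if_pos hch]
        rw [h3]
        exact FInv.ctl _ l (P.R_step h ⟨i, rfl, rfl, ht, Or.inl ⟨hch, rfl⟩⟩)
      | some xy =>
        obtain ⟨x, y⟩ := xy
        have h3 : nx P i = (NT.k3 i : NT P m) := by
          unfold nx
          rw [if_neg (by rw [hch]; simp)]
        rw [h3]
        have h4 : (l.map fun x => (x, (0 : Fin 3))).map Prod.fst = l := by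
          rw [List.map_map]
          exact List.map_id l
        have h5 : (l.map fun x => (x, (0 : Fin 3))).map (sy i : P.X × Fin 3 → T ⊕ NT P m) =
            l.map tk := by
          rw [List.map_map]
          rfl
        have h6 := FInv.k3 (e := e) i x y (l.map fun x => (x, 0)) hch (by rw [h4]; exact h)
          (by rw [h4]; exact ht) (by simp) (by
            rw [List.countP_eq_zero.2]
            · exact Nat.zero_le 1
            · simp)
        rw [h5] at h6
        exact h6
  | k3 i x y w hc h ht hz h2 =>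
    rcases st_head hs with ⟨rhs, perm, forb, h1, rfl, h3, -⟩ | ⟨r, hr, t₁, t₂, h5, rfl, h7, h8⟩
    · cases h1 with
      | H =>
        refine FInv.k4 i x y w hc h ht hz h2 ?_
        have h4 := h3 _ rfl
        rw [List.mem_cons] at h4
        rcases h4 with h4 | h4
        · simp at h4
        · obtain ⟨p, hp, hp1⟩ := List.mem_map.1 h4
          exact ⟨p, hp, by rw [(sy_z hp1).2]; simp⟩
    · have hT : ∀ s ∈ w.map (sy i : P.X × Fin 3 → T ⊕ NT P m), Tl s := by
        intro s hs
        obtain ⟨p, -, rfl⟩ := List.mem_map.1 hs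
        exact tl_sy i p
      obtain ⟨w', g1, g2, g3, g4, g5, g6⟩ := tail_k hc h ht hz h2 h5 (by
        rcases tail_cases hT hr (by rw [h5]; simp) h7 h8 with ⟨i', x', y', a1, a2, a3, a4⟩ |
          ⟨i', a1, a2, a3⟩ | ⟨i', x', y', -, -, -, a1⟩ | ⟨x', a, -, -, a1⟩
        · have hi : i = i' := by simpa using a4
          subst hi
          rw [hc] at a1
          simp at a1
          left
          exact ⟨x, hc, by rw [a2, a1.1], a3⟩
        · right
          exact ⟨i', a1, a2, a3⟩
        · simp at a1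
        · simp at a1)
      rw [g1]
      exact FInv.k3 i x y w' hc g2 g3 g4 g5
  | k4 i x y w hc h ht hz h2 hne =>
    rcases st_head hs with ⟨rhs, perm, forb, h1, rfl, -, h3⟩ | ⟨r, hr, t₁, t₂, h5, rfl, h7, h8⟩
    · cases h1 with
      | J =>
        have h4 := no_sy_z fun h5 => h3 _ rfl (List.mem_cons_of_mem _ h5)
        obtain ⟨p, hp, hp1⟩ := hne
        obtain ⟨w₁, w₂, rfl⟩ := List.append_of_mem hp
        have hp2 : p.2 = 2 := by
          have := h4 p hp
          omega
        rw [List.countP_append, List.countP_cons_of_pos (by simpa using hp2)] at h2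
        have hw1 : ∀ p' ∈ w₁, p'.2 = 0 := by
          intro p' hp'
          have a1 := h4 p' (by simp [hp'])
          have a2 := List.countP_eq_zero.1 (show w₁.countP (fun p => p.2 = 2) = 0 by omega) p' hp'
          have a3 : p'.2 ≠ 2 := by simpa using a2
          omega
        have hw2 : ∀ p' ∈ w₂, p'.2 = 0 := by
          intro p' hp'
          have a1 := h4 p' (by simp [hp'])
          have a2 := List.countP_eq_zero.1 (show w₂.countP (fun p => p.2 = 2) = 0 by omega) p' hp'
          have a3 : p'.2 ≠ 2 := by simpa using a2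
          omega
        have key : ∀ w' : List (P.X × Fin 3), (∀ p' ∈ w', p'.2 = 0) →
            w'.map (sy i : P.X × Fin 3 → T ⊕ NT P m) = (w'.map Prod.fst).map tk := by
          intro w' hw'
          rw [List.map_map]
          refine List.map_congr_left fun p' hp' => ?_
          simp [sy, tk, hw' p' hp']
        have hpx : p.1 = x := hz p hp hp1
        have h6 := FInv.k5 (e := e) i x y (w₁.map Prod.fst) (w₂.map Prod.fst) hc (by
          rw [← hpx]
          simpa using h) (by
          rw [← hpx]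
          simpa using ht)
        rw [← key w₁ hw1, ← key w₂ hw2] at h6
        have h7 : (w₁ ++ p :: w₂).map (sy i : P.X × Fin 3 → T ⊕ NT P m) =
            w₁.map (sy i) ++ Sum.inr (NT.z' i) :: w₂.map (sy i) := by
          rw [List.map_append, List.map_cons]
          congr 2
          simp [sy, hp2]
        rw [h7]
        exact h6
    · have hT : ∀ s ∈ w.map (sy i : P.X × Fin 3 → T ⊕ NT P m), Tl s := by
        intro s hs
        obtain ⟨p, -, rfl⟩ := List.mem_map.1 hs
        exact tl_sy i p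
      obtain ⟨w', g1, g2, g3, g4, g5, g6⟩ := tail_k hc h ht hz h2 h5 (by
        rcases tail_cases hT hr (by rw [h5]; simp) h7 h8 with ⟨i', x', y', a1, a2, a3, a4⟩ |
          ⟨i', a1, a2, a3⟩ | ⟨i', x', y', -, -, -, a1⟩ | ⟨x', a, -, -, a1⟩
        · simp at a4
        · right
          exact ⟨i', a1, a2, a3⟩
        · simp at a1
        · simp at a1)
      rw [g1]
      exact FInv.k4 i x y w' hc g2 g3 g4 g5 g6
  | k5 i x y l₁ l₂ hc h ht =>
    have hT : ∀ s ∈ (l₁.map (tk : P.X → T ⊕ NT P m) ++ Sum.inr (NT.z' i) :: l₂.map tk),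
        Tl s := by
      intro s hs
      rw [List.mem_append, List.mem_cons] at hs
      rcases hs with hs | hs | hs
      · obtain ⟨p, -, rfl⟩ := List.mem_map.1 hs
        exact tl_tk p
      · rw [hs]
        exact tl_z' i
      · obtain ⟨p, -, rfl⟩ := List.mem_map.1 hs
        exact tl_tk p
    rcases st_head hs with ⟨rhs, perm, forb, h1, rfl, -, h3⟩ | ⟨r, hr, t₁, t₂, h5, rfl, h7, h8⟩
    · cases h1 with
      | L => exact absurd (by simp) (h3 _ rfl)
    · rcases tail_cases hT hr (by rw [h5]; simp) h7 h8 with ⟨i', x', y', a1, a2, a3, a4⟩ |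
        ⟨i', a1, a2, a3⟩ | ⟨i', x', y', a0, a1, a2, a3⟩ | ⟨x', a, -, -, a1⟩
      · simp at a4
      · exfalso
        have h9 : (Sum.inr (NT.z i') : T ⊕ NT P m) ∈
            (l₁.map (tk : P.X → T ⊕ NT P m) ++ Sum.inr (NT.z' i) :: l₂.map tk) := by
          rw [h5, ← a1]
          simp
        simp [tk] at h9
      · have hi : i = i' := by simpa using a3
        subst hi
        rw [hc] at a0
        simp at a0
        have h10 : ∀ (l₁' : List P.X) (t₁ : List (T ⊕ NT P m)), l₁'.map (tk : P.X → T ⊕ NT P m) ++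
            Sum.inr (NT.z' i) :: l₂.map tk = t₁ ++ Sum.inr (NT.z' i) :: t₂ →
            t₁ = l₁'.map tk ∧ t₂ = l₂.map tk := by
          intro l₁'
          induction l₁' with
          | nil =>
            intro t₁ ht₁
            cases t₁ with
            | nil =>
              simp at ht₁
              exact ⟨rfl, ht₁.symm⟩
            | cons b t₁ =>
              exfalso
              simp only [List.map_nil, List.nil_append, List.cons_append, List.cons.injEq] at ht₁
              have : (Sum.inr (NT.z' i) : T ⊕ NT P m) ∈ l₂.map tk := by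
                rw [ht₁.2]
                simp
              simp [tk] at this
          | cons b l₁' ih =>
            intro t₁ ht₁
            cases t₁ with
            | nil => simp [tk] at ht₁
            | cons b' t₁ =>
              simp only [List.map_cons, List.cons_append, List.cons.injEq] at ht₁
              obtain ⟨b1, b2⟩ := ih t₁ ht₁.2
              exact ⟨by rw [b1, ← ht₁.1]; rfl, b2⟩
        rw [a1] at h5
        obtain ⟨rfl, rfl⟩ := h10 l₁ t₁ h5
        rw [a2, ← a0.2]
        have h11 := FInv.k5' (e := e) i (l₁ ++ y :: l₂) (P.R_step h ⟨i, rfl, rfl, ht,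
          Or.inr ⟨x, y, hc, l₁, l₂, rfl, rfl⟩⟩)
        have h12 : (l₁.map tk ++ [Sum.inr (NT.tok y)] ++ l₂.map tk : List (T ⊕ NT P m)) =
            (l₁ ++ y :: l₂).map tk := by
          simp [tk]
        rw [h12]
        exact h11
      · simp at a1
  | k5' i l h =>
    obtain ⟨rhs, perm, forb, h1, rfl, -, -⟩ := st_tk (by simp) (by simp) hs
    cases h1 with
    | L => exact FInv.ctl _ l h
  | fin c hc w h =>
    rcases st_head hs with ⟨rhs, perm, forb, h1, rfl, -, -⟩ | ⟨r, hr, t₁, t₂, h5, h6, h7, h8⟩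
    · cases h1 with
      | O => exact FInv.mix c hc w h
    · obtain ⟨w', rfl, h9⟩ := mx_tail hr h5 h7 h8 (by simp) h6
      exact FInv.fin c hc w' (by rw [h9]; exact h)
  | mix c hc w h =>
    obtain ⟨r, hr, ⟨h1, -⟩ | ⟨t₁, t₂, h5, h6⟩, h7, h8⟩ := st_cases hs
    · simp at h1
    · obtain ⟨w', rfl, h9⟩ := mx_tail hr h5 h7 h8 (by simp) h6
      exact FInv.mix c hc w' (by rw [h9]; exact h)

theorem mx_all : ∀ (v : List (P.X × Bool)) (w : List T),
    (w.map Sum.inl : List (T ⊕ NT P m)) = v.map mx → w = (v.map Prod.fst).map P.lt := by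
  intro v
  induction v with
  | nil =>
    intro w h
    simpa using h
  | cons p v ih =>
    intro w h
    rw [List.map_cons] at h
    obtain ⟨b, w, rfl, h5, h6⟩ := List.map_eq_cons_iff.1 h
    unfold mx at h5
    split_ifs at h5 with h7
    rw [List.map_cons, List.map_cons, ← ih w h6, Sum.inl_injective h5]

/-- **Soundness** -/
theorem sound [Finite T] : (gram P e).lang ⊆ P.lang := by
  rintro w ⟨n, hn⟩
  have h1 : ReflTransGen (St (rls P e)) [Sum.inr NT.S] (w.map Sum.inl) :=
    (exists_derives (gram P e) _ _).1 ⟨n, hn⟩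
  have h2 : FInv e (w.map Sum.inl) := by
    have : ∀ u, ReflTransGen (St (rls P e)) [Sum.inr NT.S] u → FInv e u := by
      intro u hu
      induction hu with
      | refl => exact FInv.S
      | tail _ h3 ih => exact finv_step ih h3
    exact this _ h1
  generalize hw : (w.map Sum.inl : List (T ⊕ NT P m)) = w1 at h2
  cases h2 with
  | mix c hc v h =>
    obtain ⟨a, w, rfl, h3, h4⟩ := List.map_eq_cons_iff.1 hw
    have ha : a = P.fl c := Sum.inl_injective h3
    have hv : w = (v.map Prod.fst).map P.lt := mx_all v w h4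
    rw [ha, hv]
    exact P.R_acc h hc
  | _ =>
    exfalso
    cases w with
    | nil => simp at hw
    | cons a w => simp at hw

end Gr3

end Pool.Agent.SCG
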