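import Pool.Agent.SCG.TP3

/-!
# Completeness of the grammar of a token program (helper52)
-/

set_option autoImplicit false

namespace Pool.Agent.SCG

open Relation

section Gr4

variable {T : Type} {P : TP T} {m : ℕ} {e : Fin m ≃ P.X}

theorem mem_of_isR {l : NT P m} {rhs : List (T ⊕ NT P m)} {perm forb : Option (List (T ⊕ NT P m))}
    (h : IsR e l rhs perm forb) : (⟨l, rhs, perm, forb⟩ : Rule T (NT P m)) ∈ rls P e := by
  have hA : rA P ⊆ rls P e := fun r h => by unfold rls; simp only [Set.mem_union]; tauto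
  have hB : rB P ⊆ rls P e := fun r h => by unfold rls; simp only [Set.mem_union]; tauto
  have hC : rC P ⊆ rls P e := fun r h => by unfold rls; simp only [Set.mem_union]; tauto
  have hD : rD P ⊆ rls P e := fun r h => by unfold rls; simp only [Set.mem_union]; tauto
  have hE : rE P e ⊆ rls P e := fun r h => by unfold rls; simp only [Set.mem_union]; tauto
  have hF : rF P ⊆ rls P e := fun r h => by unfold rls; simp only [Set.mem_union]; tauto
  have hG : rG P ⊆ rls P e := fun r h => by unfold rls; simp only [Set.mem_union]; tauto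
  have hH : rH P ⊆ rls P e := fun r h => by unfold rls; simp only [Set.mem_union]; tauto
  have hI : rI P ⊆ rls P e := fun r h => by unfold rls; simp only [Set.mem_union]; tauto
  have hJ : rJ P ⊆ rls P e := fun r h => by unfold rls; simp only [Set.mem_union]; tauto
  have hK : rK P ⊆ rls P e := fun r h => by unfold rls; simp only [Set.mem_union]; tauto
  have hL : rL P ⊆ rls P e := fun r h => by unfold rls; simp only [Set.mem_union]; tauto
  have hM : rM P ⊆ rls P e := fun r h => by unfold rls; simp only [Set.mem_union]; tauto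
  have hN : rN P ⊆ rls P e := fun r h => by unfold rls; simp only [Set.mem_union]; tauto
  have hO : rO P ⊆ rls P e := fun r h => by unfold rls; simp only [Set.mem_union]; tauto
  cases h with
  | A a => exact hA ⟨a, rfl⟩
  | B a b => exact hB ⟨(a, b), rfl⟩
  | C a => exact hC ⟨a, rfl⟩
  | D i => exact hD ⟨i, rfl⟩
  | E i j => exact hE ⟨(i, j), rfl⟩
  | F i => exact hF ⟨i, rfl⟩
  | G i x y h => exact hG ⟨i, x, y, h, rfl⟩
  | H i => exact hH ⟨i, rfl⟩
  | I i => exact hI ⟨i, rfl⟩
  | J i => exact hJ ⟨i, rfl⟩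
  | K i x y h => exact hK ⟨i, x, y, h, rfl⟩
  | L i => exact hL ⟨i, rfl⟩
  | M c h => exact hM ⟨c, h, rfl⟩
  | N x a => exact hN ⟨(x, a), rfl⟩
  | O a => exact hO ⟨a, rfl⟩

theorem st_of {l : NT P m} {rhs : List (T ⊕ NT P m)} {perm forb : Option (List (T ⊕ NT P m))}
    (h : IsR e l rhs perm forb) (u₁ u₂ : List (T ⊕ NT P m))
    (hp : ∀ s, perm = some [s] → s ∈ u₁ ++ Sum.inr l :: u₂)
    (hf : ∀ s, forb = some [s] → s ∉ u₁ ++ Sum.inr l :: u₂) :
    St (rls P e) (u₁ ++ Sum.inr l :: u₂) (u₁ ++ rhs ++ u₂) := by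
  have hm := mem_of_isR h
  have one : ∀ α : List (T ⊕ NT P m), α ≠ [] → α.length ≤ 1 → ∃ s, α = [s] := by
    intro α h1 h2
    have h3 := List.length_pos_iff.2 h1
    exact List.length_eq_one_iff.1 (by omega)
  refine ⟨_, hm, u₁, u₂, rfl, rfl, fun α hα => ?_, fun β hβ => ?_⟩
  · have hα' : perm = some α := hα
    obtain ⟨s, rfl⟩ := one α (fun h1 => rls_perm P e _ hm (by rw [← h1]; exact hα))
      ((rls_deg P e _ hm).1 α hα)
    exact (mem_iff_infix s _).2 (hp s hα')
  · have hβ' : forb = some β := hβ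
    obtain ⟨s, rfl⟩ := one β (fun h1 => rls_forb P e _ hm (by rw [← h1]; exact hβ))
      ((rls_deg P e _ hm).2 β hβ)
    exact fun h1 => hf s hβ' ((mem_iff_infix s _).1 h1)

/-- the first symbol is rewritten -/
theorem st_hd {l : NT P m} {rhs : List (T ⊕ NT P m)} {perm forb : Option (List (T ⊕ NT P m))}
    (h : IsR e l rhs perm forb) (u : List (T ⊕ NT P m))
    (hp : ∀ s, perm = some [s] → s ∈ u) (hf : ∀ s, forb = some [s] → s ∉ Sum.inr l :: u) :
    St (rls P e) (Sum.inr l :: u) (rhs ++ u) :=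
  st_of h [] u (fun s hs => List.mem_cons_of_mem _ (hp s hs)) hf

theorem run_gen (a : T) (w : List T) : ReflTransGen (St (rls P e)) [Sum.inr NT.S]
    (Sum.inr (NT.gen a) :: (w.map P.ini).map tk) := by
  induction w with
  | nil => exact ReflTransGen.single (st_hd (IsR.A a) [] (by simp) (by simp))
  | cons b w ih =>
    refine ih.tail ?_
    have := st_hd (e := e) (IsR.B a b) ((w.map P.ini).map tk) (by simp) (by simp)
    exact this

theorem run_st (a : T) (w : List T) : ReflTransGen (St (rls P e)) [Sum.inr NT.S]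
    (Sum.inr (NT.ctl (P.st a)) :: (w.map P.ini).map tk) :=
  (run_gen a w).tail (st_hd (IsR.C a) _ (by simp) (by simp))

theorem run_tst (i : P.I) (l : List P.X) (ht : ∀ x ∈ l, x ∉ P.N i) (j : Fin (m + 1)) :
    ReflTransGen (St (rls P e)) (Sum.inr (NT.tst i 0) :: l.map tk)
      (Sum.inr (NT.tst i j) :: l.map tk) := by
  induction j using Fin.induction with
  | zero => exact ReflTransGen.refl
  | succ j ih =>
    refine ih.tail (st_hd (IsR.E i j) _ (by simp) fun s hs h => ?_)
    rcases fb_spec P e i j with ⟨h1, -⟩ | ⟨h1, h2⟩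
    · rw [h1] at hs
      simp at hs
    · rw [h1] at hs
      have h3 : s = Sum.inr (NT.tok (e j)) := by simpa using hs.symm
      rw [h3, List.mem_cons] at h
      rcases h with h | h
      · simp at h
      · exact ht _ (mem_map_tk.1 h) h2

theorem run_step {c c' : P.C × List P.X} (h : P.Step c c') : ReflTransGen (St (rls P e))
    (Sum.inr (NT.ctl c.1) :: c.2.map tk) (Sum.inr (NT.ctl c'.1) :: c'.2.map tk) := by
  obtain ⟨i, h1, h2, h3, h4⟩ := h
  rw [← h1, ← h2]
  have s1 : St (rls P e) (Sum.inr (NT.ctl (P.src i)) :: c.2.map tk)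
      (Sum.inr (NT.tst i 0) :: c.2.map tk) := st_hd (IsR.D i) _ (by simp) (by simp)
  have s2 : St (rls P e) (Sum.inr (NT.tst i (Fin.last m)) :: c.2.map tk)
      (Sum.inr (nx P i) :: c.2.map tk) := st_hd (IsR.F i) _ (by simp) (by simp)
  refine (ReflTransGen.head s1 ((run_tst i c.2 h3 (Fin.last m)).tail s2)).trans ?_
  rcases h4 with ⟨h5, h6⟩ | ⟨x, y, h5, l₁, l₂, h6, h7⟩
  · have h7 : nx P i = (NT.ctl (P.dst i) : NT P m) := by
      unfold nx
      rw [if_pos h5]
    rw [h7, h6]
  · have h8 : nx P i = (NT.k3 i : NT P m) := by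
      unfold nx
      rw [if_neg (by rw [h5]; simp)]
    rw [h8, h6, h7]
    have s3 : St (rls P e) (Sum.inr (NT.k3 i) :: (l₁ ++ x :: l₂).map tk)
        (Sum.inr (NT.k3 i) :: (l₁.map tk ++ Sum.inr (NT.z i) :: l₂.map tk)) := by
      have := st_of (e := e) (IsR.G i x y h5) (Sum.inr (NT.k3 i) :: l₁.map tk) (l₂.map tk)
        (by simp) (by simp)
      simpa [tk] using this
    have s4 : St (rls P e) (Sum.inr (NT.k3 i) :: (l₁.map tk ++ Sum.inr (NT.z i) :: l₂.map tk))
        (Sum.inr (NT.k4 i) :: (l₁.map tk ++ Sum.inr (NT.z i) :: l₂.map tk)) :=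
      st_hd (IsR.H i) _ (by simp) (by simp)
    have s5 : St (rls P e) (Sum.inr (NT.k4 i) :: (l₁.map tk ++ Sum.inr (NT.z i) :: l₂.map tk))
        (Sum.inr (NT.k4 i) :: (l₁.map tk ++ Sum.inr (NT.z' i) :: l₂.map tk)) := by
      have := st_of (e := e) (IsR.I i) (Sum.inr (NT.k4 i) :: l₁.map tk) (l₂.map tk)
        (by simp) (by simp [tk])
      simpa using this
    have s6 : St (rls P e) (Sum.inr (NT.k4 i) :: (l₁.map tk ++ Sum.inr (NT.z' i) :: l₂.map tk))
        (Sum.inr (NT.k5 i) :: (l₁.map tk ++ Sum.inr (NT.z' i) :: l₂.map tk)) :=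
      st_hd (IsR.J i) _ (by simp) (by simp [tk])
    have s7 : St (rls P e) (Sum.inr (NT.k5 i) :: (l₁.map tk ++ Sum.inr (NT.z' i) :: l₂.map tk))
        (Sum.inr (NT.k5 i) :: (l₁ ++ y :: l₂).map tk) := by
      have := st_of (e := e) (IsR.K i x y h5) (Sum.inr (NT.k5 i) :: l₁.map tk) (l₂.map tk)
        (by simp) (by simp)
      simpa [tk] using this
    have s8 : St (rls P e) (Sum.inr (NT.k5 i) :: (l₁ ++ y :: l₂).map tk)
        (Sum.inr (NT.ctl (P.dst i)) :: (l₁ ++ y :: l₂).map tk) :=
      st_hd (IsR.L i) _ (by simp) (by simp [tk])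
    exact (((((ReflTransGen.single s3).tail s4).tail s5).tail s6).tail s7).tail s8

theorem run_fin_g (a : T) (l : List P.X) : ∀ v : List T, ReflTransGen (St (rls P e))
    (Sum.inr (NT.fin a) :: (v.map Sum.inl ++ l.map tk))
    (Sum.inr (NT.fin a) :: (v ++ l.map P.lt).map Sum.inl) := by
  induction l with
  | nil =>
    intro v
    simp only [List.map_nil, List.append_nil]
    exact ReflTransGen.refl
  | cons x l ih =>
    intro v
    have s1 : St (rls P e) (Sum.inr (NT.fin a) :: (v.map Sum.inl ++ (x :: l).map tk))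
        (Sum.inr (NT.fin a) :: ((v ++ [P.lt x]).map Sum.inl ++ l.map tk)) := by
      have := st_of (e := e) (IsR.N x a) (Sum.inr (NT.fin a) :: v.map Sum.inl) (l.map tk)
        (by simp) (by simp)
      simpa [tk] using this
    refine ReflTransGen.head s1 ?_
    have := ih (v ++ [P.lt x])
    simpa using this

theorem run_acc {c : P.C} (hc : c ∈ P.acc) (l : List P.X) : ReflTransGen (St (rls P e))
    (Sum.inr (NT.ctl c) :: l.map tk) ((P.fl c :: l.map P.lt).map Sum.inl) := by
  have s1 : St (rls P e) (Sum.inr (NT.ctl c) :: l.map tk)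
      (Sum.inr (NT.fin (P.fl c)) :: l.map tk) := st_hd (IsR.M c hc) _ (by simp) (by simp)
  have s2 := run_fin_g (e := e) (P.fl c) l []
  have s3 : St (rls P e) (Sum.inr (NT.fin (P.fl c)) :: (l.map P.lt).map Sum.inl)
      ((P.fl c :: l.map P.lt).map Sum.inl) := st_hd (IsR.O (P.fl c)) _ (by simp) (by simp)
  exact (ReflTransGen.head s1 s2).tail s3

/-- **The language of the grammar of a token program** -/
theorem gram_lang [Finite T] : (gram P e).lang = P.lang := by
  refine Set.Subset.antisymm sound ?_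
  rintro w ⟨a, w', rfl, c, l, h, hc⟩
  have h1 : ∀ c' : P.C × List P.X, ReflTransGen P.Step (P.st a, w'.map P.ini) c' →
      ReflTransGen (St (rls P e)) [Sum.inr NT.S] (Sum.inr (NT.ctl c'.1) :: c'.2.map tk) := by
    intro c' h'
    induction h' with
    | refl => exact run_st a w'
    | tail _ h2 ih => exact ih.trans (run_step h2)
  have h2 := (h1 _ h).trans (run_acc hc l)
  obtain ⟨-, h3, h4⟩ := P.R_of_reach h
  rw [h3, h4] at h2
  exact (exists_derives (gram P e) _ _).2 h2

end Gr4

/-- **Token programs and simple grammars** -/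
theorem exists_simple {T : Type} [Finite T] (P : TP T) : ∃ G : Grammar T, G.Propagating ∧
    G.Simple ∧ G.Degree 1 1 ∧ G.lang = P.lang := by
  have := P.finX
  obtain ⟨m, ⟨e⟩⟩ := Finite.exists_equiv_fin P.X
  obtain ⟨h1, h2, h3⟩ := gram_prop P e.symm
  exact ⟨gram P e.symm, h1, h2, h3, gram_lang⟩

end Pool.Agent.SCG
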