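import Pool.Agent.SCG.Defs
import Pool.Agent.Lib_helper16.Heads.Defs

/-!
# From grammars to multihead automata (helper52)

The commutative closure of the language of a propagating semi-conditional grammar of degree (1,1)
is accepted by a two-way nondeterministic multihead finite automaton.
-/

set_option autoImplicit false

namespace Pool.Agent.SCG

open Pool.Agent.Heads Relation

/-! ### Parikh vectors -/

section Cnt

variable {S : Type}

open Classical in
/-- the multiplicities of the symbols of a string -/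
noncomputable def cnt (u : List S) : S → ℕ := fun s => u.count s

theorem mem_iff_infix (s : S) (u : List S) : [s] <:+: u ↔ s ∈ u := by
  constructor
  · rintro ⟨a, b, h⟩
    rw [← h]
    simp
  · intro h
    obtain ⟨a, b, h⟩ := List.append_of_mem h
    exact ⟨a, b, by rw [h]; simp⟩

theorem cnt_append (u v : List S) (s : S) : cnt (u ++ v) s = cnt u s + cnt v s := by
  classical
  unfold cnt
  rw [List.count_append]

theorem cnt_cons (a : S) (u : List S) (s : S) : cnt (a :: u) s = cnt [a] s + cnt u s := by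
  rw [← cnt_append, List.singleton_append]

theorem cnt_self (a : S) : cnt [a] a = 1 := by
  classical
  unfold cnt
  simp

theorem cnt_ne {a s : S} (h : s ≠ a) : cnt [a] s = 0 := by
  classical
  unfold cnt
  rw [List.count_eq_zero]
  simpa using h

theorem cnt_nil (s : S) : cnt ([] : List S) s = 0 := by
  unfold cnt
  simp

theorem cnt_pos_iff (u : List S) (s : S) : 0 < cnt u s ↔ s ∈ u := by
  classical
  unfold cnt
  exact List.count_pos_iff

theorem cnt_zero_iff (u : List S) (s : S) : cnt u s = 0 ↔ s ∉ u := by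
  rw [← cnt_pos_iff]
  omega

theorem cnt_perm {u v : List S} (h : u.Perm v) : cnt u = cnt v := by
  classical
  funext s
  unfold cnt
  exact h.count_eq s

theorem perm_of_cnt {u v : List S} (h : cnt u = cnt v) : u.Perm v := by
  classical
  rw [List.perm_iff_count]
  intro s
  have h1 := congrFun h s
  unfold cnt at h1
  convert h1

theorem sum_cnt [Fintype S] (u : List S) : ∑ s, cnt u s = u.length := by
  classical
  induction u with
  | nil => simp [cnt_nil]
  | cons a u ih =>
    have h1 : ∑ s, cnt [a] s = 1 := by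
      rw [Finset.sum_eq_single a (fun b _ hb => cnt_ne hb) (fun h => absurd (Finset.mem_univ a) h),
        cnt_self]
    rw [Finset.sum_congr rfl fun s _ => cnt_cons a u s, Finset.sum_add_distrib, ih, h1,
      List.length_cons, Nat.add_comm]

end Cnt

section Parikh

variable {T : Type} (G : Grammar T)

/-- one step on vectors of multiplicities -/
def PStep (v v' : T ⊕ G.N → ℕ) : Prop :=
  ∃ r ∈ G.rules, 0 < v (Sum.inr r.lhs) ∧ (∀ s, r.perm = some [s] → 0 < v s) ∧
    (∀ s, r.forb = some [s] → v s = 0) ∧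
    ∀ s, v' s + cnt [Sum.inr r.lhs] s = v s + cnt r.rhs s

theorem pstep_of_step {u u' : List (T ⊕ G.N)} (h : G.Step u u') : PStep G (cnt u) (cnt u') := by
  obtain ⟨r, hr, u₁, u₂, rfl, rfl, h1, h2⟩ := h
  refine ⟨r, hr, ?_, fun s hs => ?_, fun s hs => ?_, fun s => ?_⟩
  · rw [cnt_pos_iff]
    simp
  · have h3 := h1 _ hs
    rwa [mem_iff_infix, ← cnt_pos_iff] at h3
  · have h3 := h2 _ hs
    rwa [mem_iff_infix, ← cnt_zero_iff] at h3
  · rw [cnt_append, cnt_append, cnt_append, cnt_cons _ u₂]
    omega

theorem step_of_pstep (hd : G.Degree 1 1) {u : List (T ⊕ G.N)} {v' : T ⊕ G.N → ℕ}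
    (h : PStep G (cnt u) v') : ∃ u', G.Step u u' ∧ cnt u' = v' := by
  obtain ⟨r, hr, h1, h2, h3, h4⟩ := h
  rw [cnt_pos_iff] at h1
  obtain ⟨u₁, u₂, rfl⟩ := List.append_of_mem h1
  refine ⟨u₁ ++ r.rhs ++ u₂, ⟨r, hr, u₁, u₂, rfl, rfl, fun α hα => ?_, fun β hβ => ?_⟩, ?_⟩
  · have h5 := (hd r hr).1 α hα
    rcases Nat.lt_or_ge α.length 1 with h6 | h6
    · have : α = [] := List.length_eq_zero_iff.1 (by omega)
      rw [this]
      exact List.nil_infix
    · obtain ⟨s, rfl⟩ := List.length_eq_one_iff.1 (le_antisymm h5 h6)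
      rw [mem_iff_infix, ← cnt_pos_iff]
      exact h2 s hα
  · have h5 := (hd r hr).2 β hβ
    rcases Nat.lt_or_ge β.length 1 with h6 | h6
    · have : β = [] := List.length_eq_zero_iff.1 (by omega)
      subst this
      exact absurd hβ (G.forb_ne r hr)
    · obtain ⟨s, rfl⟩ := List.length_eq_one_iff.1 (le_antisymm h5 h6)
      rw [mem_iff_infix, ← cnt_zero_iff]
      exact h3 s hβ
  · funext s
    have h5 := h4 s
    rw [cnt_append, cnt_cons _ u₂] at h5
    rw [cnt_append, cnt_append]
    omega

/-- the reachable vectors -/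
def PReach (v : T ⊕ G.N → ℕ) : Prop := ReflTransGen (PStep G) (cnt [Sum.inr G.start]) v

theorem derives_iff {u v : List (T ⊕ G.N)} :
    (∃ m, G.Derives m u v) ↔ ReflTransGen G.Step u v := by
  constructor
  · rintro ⟨m, h⟩
    induction m generalizing u with
    | zero =>
      have : u = v := h
      rw [this]
    | succ m ih =>
      obtain ⟨x, hx, hx1⟩ := h
      exact (ReflTransGen.single hx).trans (ih hx1)
  · intro h
    induction h using ReflTransGen.head_induction_on with
    | refl => exact ⟨0, rfl⟩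
    | head h1 _ ih =>
      obtain ⟨m, hm⟩ := ih
      exact ⟨m + 1, _, h1, hm⟩

theorem preach_of_reach {u : List (T ⊕ G.N)} (h : ReflTransGen G.Step [Sum.inr G.start] u) :
    PReach G (cnt u) := by
  induction h with
  | refl => exact ReflTransGen.refl
  | tail _ h1 ih => exact ReflTransGen.tail ih (pstep_of_step G h1)

theorem reach_of_preach (hd : G.Degree 1 1) {v : T ⊕ G.N → ℕ} (h : PReach G v) :
    ∃ u, ReflTransGen G.Step [Sum.inr G.start] u ∧ cnt u = v := by
  unfold PReach at h
  induction h with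
  | refl => exact ⟨_, ReflTransGen.refl, rfl⟩
  | tail _ h1 ih =>
    obtain ⟨u, hu, rfl⟩ := ih
    obtain ⟨u', hu', h2⟩ := step_of_pstep G hd h1
    exact ⟨u', hu.tail hu', h2⟩

theorem mem_comm_iff (hd : G.Degree 1 1) (w : List T) :
    w ∈ comm G.lang ↔ PReach G (cnt (w.map Sum.inl)) := by
  constructor
  · rintro ⟨w', ⟨m, hm⟩, hp⟩
    have h1 := preach_of_reach G ((derives_iff G).1 ⟨m, hm⟩)
    rwa [cnt_perm (hp.map _)] at h1
  · intro h
    obtain ⟨u, hu, h1⟩ := reach_of_preach G hd h
    have h2 := perm_of_cnt h1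
    have h3 : ∀ x ∈ u, ∃ a : T, x = Sum.inl a := by
      intro x hx
      obtain ⟨a, -, rfl⟩ := List.mem_map.1 (h2.subset hx)
      exact ⟨a, rfl⟩
    have h4 : (u.filterMap Sum.getLeft?).map Sum.inl = u := by
      clear h1 h2 hu
      induction u with
      | nil => rfl
      | cons x u ih =>
        obtain ⟨a, rfl⟩ := h3 x (by simp)
        rw [List.filterMap_cons_some (b := a) (by rfl), List.map_cons,
          ih fun y hy => h3 y (List.mem_cons_of_mem _ hy)]
    have h5 : (w.map (Sum.inl : T → T ⊕ G.N)).filterMap Sum.getLeft? = w := by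
      clear h1 h2 h
      induction w with
      | nil => rfl
      | cons x w ih =>
        rw [List.map_cons, List.filterMap_cons_some (b := x) (by rfl), ih]
    refine ⟨u.filterMap Sum.getLeft?, ?_, ?_⟩
    · obtain ⟨m, hm⟩ := (derives_iff G).2 hu
      refine ⟨m, ?_⟩
      show G.Derives m _ _
      rw [h4]
      exact hm
    · have h6 := h2.filterMap Sum.getLeft?
      rwa [h5] at h6

theorem sum_le_of_pstep (hp : G.Propagating) [Fintype (T ⊕ G.N)] {v v' : T ⊕ G.N → ℕ}
    (h : PStep G v v') : ∑ s, v s ≤ ∑ s, v' s := by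
  classical
  obtain ⟨r, hr, -, -, -, h4⟩ := h
  have h5 : ∑ s, v' s + 1 = ∑ s, v s + r.rhs.length := by
    have h6 : ∑ s, (v' s + cnt [Sum.inr r.lhs] s) =
        ∑ s, (v s + cnt r.rhs s) := Finset.sum_congr rfl fun s _ => h4 s
    rw [Finset.sum_add_distrib, Finset.sum_add_distrib, sum_cnt, sum_cnt] at h6
    simpa using h6
  have h6 : 0 < r.rhs.length := List.length_pos_iff.2 (hp r hr)
  omega

end Parikh

end Pool.Agent.SCG
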